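import Mathlib

open Topology

namespace Pool.Agent.Helper509.RD

section

variable {N G : Type*} [Group N] [Group G] [TopologicalSpace N] [TopologicalSpace G]
  {φ : G →* MulAut N}

instance topSemi : TopologicalSpace (N ⋊[φ] G) :=
  TopologicalSpace.induced SemidirectProduct.equivProd inferInstance

/-- product homeomorphism -/
def homeoProd : (N ⋊[φ] G) ≃ₜ N × G :=
  SemidirectProduct.equivProd.toHomeomorphOfIsInducing ⟨rfl⟩

lemma continuous_toProd : Continuous (fun x : N ⋊[φ] G => (x.left, x.right)) :=
  (homeoProd (φ := φ)).continuous

lemma continuous_left : Continuous (fun x : N ⋊[φ] G => x.left) :=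
  continuous_fst.comp continuous_toProd

lemma continuous_right : Continuous (fun x : N ⋊[φ] G => x.right) :=
  continuous_snd.comp continuous_toProd

lemma continuous_mk {X : Type*} [TopologicalSpace X] {f : X → N} {g : X → G} (hf : Continuous f)
    (hg : Continuous g) : Continuous (fun x => (⟨f x, g x⟩ : N ⋊[φ] G)) :=
  (homeoProd (φ := φ)).symm.continuous.comp (hf.prodMk hg)

lemma continuous_inl' : Continuous (SemidirectProduct.inl : N → N ⋊[φ] G) :=
  continuous_mk continuous_id continuous_const

lemma continuous_inr' : Continuous (SemidirectProduct.inr : G → N ⋊[φ] G) :=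
  continuous_mk continuous_const continuous_id

theorem isTopologicalGroup_semi [IsTopologicalGroup N] [IsTopologicalGroup G]
    (h : Continuous (fun p : G × N => φ p.1 p.2)) : IsTopologicalGroup (N ⋊[φ] G) where
  continuous_mul := by
    have h1 : Continuous (fun p : (N ⋊[φ] G) × (N ⋊[φ] G) =>
        (⟨p.1.left * φ p.1.right p.2.left, p.1.right * p.2.right⟩ : N ⋊[φ] G)) := by
      apply continuous_mk
      · exact (continuous_left.comp continuous_fst).mul
          (h.comp ((continuous_right.comp continuous_fst).prodMk
            (continuous_left.comp continuous_snd)))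
      · exact (continuous_right.comp continuous_fst).mul (continuous_right.comp continuous_snd)
    exact h1
  continuous_inv := by
    have h1 : Continuous (fun p : N ⋊[φ] G =>
        (⟨φ p.right⁻¹ p.left⁻¹, p.right⁻¹⟩ : N ⋊[φ] G)) := by
      apply continuous_mk
      · exact h.comp (continuous_right.inv.prodMk continuous_left.inv)
      · exact continuous_right.inv
    exact h1

instance [T2Space N] [T2Space G] : T2Space (N ⋊[φ] G) :=
  (homeoProd (φ := φ)).symm.t2Space

instance [LocallyCompactSpace N] [LocallyCompactSpace G] : LocallyCompactSpace (N ⋊[φ] G) :=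
  (homeoProd (φ := φ)).isClosedEmbedding.locallyCompactSpace

instance [SecondCountableTopology N] [SecondCountableTopology G] :
    SecondCountableTopology (N ⋊[φ] G) :=
  (homeoProd (φ := φ)).secondCountableTopology

instance [SigmaCompactSpace N] [SigmaCompactSpace G] : SigmaCompactSpace (N ⋊[φ] G) :=
  (homeoProd (φ := φ)).isClosedEmbedding.sigmaCompactSpace

end

end Pool.Agent.Helper509.RD
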