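import Pool.Agent.Helper509.RD.Cop
import Pool.Agent.Helper509.RD.TopSemi

open Monoid Topology
open scoped Pointwise

namespace Pool.Agent.Helper509.RD

lemma z2_add_self (a : ZMod 2) : a + a = 0 := CharTwo.add_self_eq_zero a

/-! the compact group `K` and the free group `F` acting on it -/

/-- pairs of sequences -/
abbrev E0 : Type := (ℤ → ZMod 2) × (ℤ → ZMod 2)

/-- the compact group -/
abbrev K : Type := Multiplicative E0

/-- the free group on two letters -/
abbrev F : Type := FreeGroup Bool

/-- `(x,y) ↦ (x+y,y)` -/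
def aE : E0 ≃+ E0 where
  toFun e := (e.1 + e.2, e.2)
  invFun e := (e.1 + e.2, e.2)
  left_inv e := by
    ext i
    · simp only [Pi.add_apply]
      rw [add_assoc, z2_add_self, add_zero]
    · rfl
  right_inv e := by
    ext i
    · simp only [Pi.add_apply]
      rw [add_assoc, z2_add_self, add_zero]
    · rfl
  map_add' e e' := by
    ext i
    · simp only [Prod.fst_add, Prod.snd_add, Pi.add_apply]; ring
    · rfl

/-- `(x,y) ↦ (x shifted,y)` -/
def tE : E0 ≃+ E0 where
  toFun e := (fun j => e.1 (j - 1), e.2)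
  invFun e := (fun j => e.1 (j + 1), e.2)
  left_inv e := by ext i <;> simp
  right_inv e := by ext i <;> simp
  map_add' e e' := by ext i <;> rfl

/-- action of `F` on `K` -/
def phi : F →* MulAut K := FreeGroup.lift (fun b : Bool =>
  if b then (AddEquiv.toMultiplicative aE : MulAut K) else AddEquiv.toMultiplicative tE)

/-- positions: a head position and a finite set of marks -/
abbrev O : Type := ℤ × Finset ℤ

/-- marking -/
def aO : Equiv.Perm O where
  toFun o := (o.1, symmDiff o.2 {o.1})
  invFun o := (o.1, symmDiff o.2 {o.1})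
  left_inv o := by simp
  right_inv o := by simp

/-- moving -/
def tO : Equiv.Perm O where
  toFun o := (o.1 + 1, o.2)
  invFun o := (o.1 - 1, o.2)
  left_inv o := by simp
  right_inv o := by simp

/-- action of `F` on positions -/
def FO : F →* Equiv.Perm O := FreeGroup.lift (fun b : Bool => if b then aO else tO)

/-- pairing -/
def eps (e : E0) (o : O) : ZMod 2 := e.1 o.1 + ∑ i ∈ o.2, e.2 i

lemma sum_symmDiff_z2 (f : ℤ → ZMod 2) (s t : Finset ℤ) :
    ∑ i ∈ symmDiff s t, f i = ∑ i ∈ s, f i + ∑ i ∈ t, f i := by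
  have h1 : ∑ i ∈ symmDiff s t, f i = ∑ i ∈ s \ t, f i + ∑ i ∈ t \ s, f i := by
    rw [symmDiff_def, Finset.sup_eq_union, Finset.sum_union]
    exact disjoint_sdiff_sdiff
  have h2 := Finset.sum_inter_add_sum_sdiff s t f
  have h3 := Finset.sum_inter_add_sum_sdiff t s f
  rw [h1, ← h2, ← h3, Finset.inter_comm t s]
  have h4 := z2_add_self (∑ i ∈ s ∩ t, f i)
  linear_combination -h4

lemma eps_add (e e' : E0) (o : O) : eps (e + e') o = eps e o + eps e' o := by
  unfold eps
  simp only [Prod.fst_add, Prod.snd_add, Pi.add_apply, Finset.sum_add_distrib]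
  ring

@[simp] lemma eps_zero (o : O) : eps 0 o = 0 := by simp [eps]

lemma eps_aE (e : E0) (o : O) : eps (aE e) (aO o) = eps e o := by
  unfold eps aE aO
  simp only [AddEquiv.coe_mk, Equiv.coe_fn_mk, Pi.add_apply]
  rw [sum_symmDiff_z2]
  simp only [Finset.sum_singleton]
  have := z2_add_self (e.2 o.1)
  linear_combination this

lemma eps_tE (e : E0) (o : O) : eps (tE e) (tO o) = eps e o := by
  unfold eps tE tO
  simp

/-- `K` written additively -/
def add (k : K) : E0 := Multiplicative.toAdd k

@[simp] lemma add_mul (k k' : K) : add (k * k') = add k + add k' := rfl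
@[simp] lemma add_one : add (1 : K) = 0 := rfl

lemma FO_cancel (f : F) (o : O) : FO f (FO f⁻¹ o) = o := by
  rw [← Equiv.Perm.mul_apply, ← map_mul, mul_inv_cancel, map_one]; rfl

lemma FO_cancel' (f : F) (o : O) : FO f⁻¹ (FO f o) = o := by
  rw [← Equiv.Perm.mul_apply, ← map_mul, inv_mul_cancel, map_one]; rfl

lemma phi_cancel (f : F) (k : K) : phi f (phi f⁻¹ k) = k := by
  rw [← MulAut.mul_apply, ← map_mul, mul_inv_cancel, map_one]; rfl

lemma eps_phi (f : F) (k : K) (o : O) : eps (add (phi f k)) (FO f o) = eps (add k) o := by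
  induction f using FreeGroup.induction_on generalizing k o with
  | C1 => simp
  | of b =>
    cases b
    · simp only [phi, FO, FreeGroup.lift_apply_of]
      exact eps_tE _ _
    · simp only [phi, FO, FreeGroup.lift_apply_of]
      exact eps_aE _ _
  | inv_of b ih =>
    have h := ih (phi (FreeGroup.of b)⁻¹ k) (FO (FreeGroup.of b)⁻¹ o)
    rw [← h, phi_cancel, FO_cancel]
  | mul f g hf hg =>
    rw [map_mul, map_mul, MulAut.mul_apply, Equiv.Perm.mul_apply, hf, hg]

lemma snd_phi (f : F) (k : K) : (add (phi f k)).2 = (add k).2 := by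
  induction f using FreeGroup.induction_on generalizing k with
  | C1 => simp
  | of b =>
    cases b
    · simp only [phi, FreeGroup.lift_apply_of]; rfl
    · simp only [phi, FreeGroup.lift_apply_of]; rfl
  | inv_of b ih =>
    have h := ih (phi (FreeGroup.of b)⁻¹ k)
    rw [← h, phi_cancel]
  | mul f g hf hg =>
    rw [map_mul, MulAut.mul_apply, hf, hg]

/-- toggling marks -/
def pos (o : O) (D : Finset ℤ) : O := (o.1, symmDiff o.2 D)

lemma FO_pos (f : F) (o : O) (D : Finset ℤ) : FO f (pos o D) = pos (FO f o) D := by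
  induction f using FreeGroup.induction_on generalizing o with
  | C1 => simp
  | of b =>
    cases b
    · simp only [FO, FreeGroup.lift_apply_of, Bool.false_eq_true, if_false]; rfl
    · simp only [FO, FreeGroup.lift_apply_of, if_true]
      unfold aO pos
      simp only [Equiv.coe_fn_mk, Prod.mk.injEq, true_and]
      rw [symmDiff_right_comm]
  | inv_of b ih =>
    have h := ih (FO (FreeGroup.of b)⁻¹ o)
    rw [FO_cancel] at h
    rw [← h, FO_cancel']
  | mul f g hf hg =>
    rw [map_mul, Equiv.Perm.mul_apply, Equiv.Perm.mul_apply, hg, hf]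

lemma eps_pos (e : E0) (o : O) (D : Finset ℤ) : eps e (pos o D) = eps e o + ∑ i ∈ D, e.2 i := by
  unfold eps pos
  simp only
  rw [sum_symmDiff_z2]; ring

/-- the group `J = K ⋊ F` -/
abbrev J : Type := K ⋊[phi] F

/-- letters indexed by positions and bits -/
abbrev S : Type := O × ZMod 2

instance : MulAction J S where
  smul κ s := (FO κ.right s.1, s.2 + eps (add κ.left) (FO κ.right s.1))
  one_smul s := by
    change (FO (1:F) s.1, s.2 + eps (add (1:K)) (FO (1:F) s.1)) = s
    simp
  mul_smul κ κ' s := by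
    change (FO (κ.right * κ'.right) s.1, s.2 + eps (add (κ.left * phi κ.right κ'.left))
      (FO (κ.right * κ'.right) s.1)) = (FO κ.right (FO κ'.right s.1),
        (s.2 + eps (add κ'.left) (FO κ'.right s.1)) +
          eps (add κ.left) (FO κ.right (FO κ'.right s.1)))
    rw [map_mul, Equiv.Perm.mul_apply, add_mul, eps_add, eps_phi]
    ext1
    · rfl
    · simp only; ring

lemma smul_S (κ : J) (s : S) : κ • s = (FO κ.right s.1, s.2 + eps (add κ.left) (FO κ.right s.1)) :=
  rfl

/-- free group on the toggling letters (`false`) and the transvection letters (`true`) -/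
abbrev N : Type := FreeGroup (S × Bool)

/-- permutation of the letters -/
def permS (κ : J) : Equiv.Perm (S × Bool) := (MulAction.toPerm κ).prodCongr (Equiv.refl Bool)

lemma permS_apply (κ : J) (x : S × Bool) : permS κ x = (κ • x.1, x.2) := rfl

/-- action of `J` on `N` -/
def Psi : J →* MulAut N where
  toFun κ := FreeGroup.freeGroupCongr (permS κ)
  map_one' := by
    apply MulEquiv.toMonoidHom_injective
    ext x
    simp [permS_apply]
  map_mul' κ κ' := by
    apply MulEquiv.toMonoidHom_injective
    ext x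
    simp [permS_apply, mul_smul]

lemma Psi_of (κ : J) (x : S × Bool) : Psi κ (FreeGroup.of x) = FreeGroup.of (κ • x.1, x.2) := by
  simp [Psi, permS_apply]

/-! the free product `A` -/

/-- index set of the finite factors -/
abbrev Y : Type := Σ n : ℕ, (Fin n → ZMod 2)

/-- index set of all factors -/
abbrev Ix : Type := Finset S ⊕ Y

/-- the factors -/
def Mf : Ix → Type
  | .inl _ => Multiplicative ℤ
  | .inr y => Multiplicative (Fin y.1 → ZMod 2)

instance instGroupMf : ∀ i, Group (Mf i)
  | .inl _ => inferInstanceAs (Group (Multiplicative ℤ))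
  | .inr y => inferInstanceAs (Group (Multiplicative (Fin y.1 → ZMod 2)))

instance instDecMf : ∀ i, DecidableEq (Mf i)
  | .inl _ => inferInstanceAs (DecidableEq (Multiplicative ℤ))
  | .inr y => inferInstanceAs (DecidableEq (Multiplicative (Fin y.1 → ZMod 2)))

instance instCountMf : ∀ i, Countable (Mf i)
  | .inl _ => inferInstanceAs (Countable ℤ)
  | .inr y => inferInstanceAs (Countable (Fin y.1 → ZMod 2))

/-- the free product -/
abbrev A : Type := CoprodI Mf

/-- infinite cyclic factor -/
def cHom (E : Finset S) : Multiplicative ℤ →* A := CoprodI.of (M := Mf) (i := Sum.inl E)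

/-- finite factor -/
def pHom (y : Y) : Multiplicative (Fin y.1 → ZMod 2) →* A :=
  CoprodI.of (M := Mf) (i := Sum.inr y)

/-- generator -/
def cc (E : Finset S) : A := cHom E (Multiplicative.ofAdd 1)

/-- element of a finite factor -/
def pY (y : Y) (q : Fin y.1 → ZMod 2) : A := pHom y (Multiplicative.ofAdd q)

lemma pY_add (y : Y) (q q' : Fin y.1 → ZMod 2) : pY y (q + q') = pY y q * pY y q' := by
  unfold pY; rw [ofAdd_add, map_mul]

@[simp] lemma pY_zero (y : Y) : pY y 0 = 1 := by
  unfold pY; rw [ofAdd_zero, map_one]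

/-- homomorphisms out of `A` -/
def liftA {B : Type*} [Monoid B] (fc : Finset S → (Multiplicative ℤ →* B))
    (fp : ∀ y : Y, Multiplicative (Fin y.1 → ZMod 2) →* B) : A →* B :=
  CoprodI.lift (M := Mf) (fun i => match i with
    | .inl E => fc E
    | .inr y => fp y)

@[simp] lemma liftA_cHom {B : Type*} [Monoid B] (fc : Finset S → (Multiplicative ℤ →* B)) (fp) (E)
    (m) : liftA fc fp (cHom E m) = fc E m :=
  CoprodI.lift_of (M := Mf) (i := Sum.inl E) _ m

@[simp] lemma liftA_pHom {B : Type*} [Monoid B] (fc : Finset S → (Multiplicative ℤ →* B)) (fp) (y)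
    (m) : liftA fc fp (pHom y m) = fp y m :=
  CoprodI.lift_of (M := Mf) (i := Sum.inr y) _ m

@[simp] lemma liftA_cc {B : Type*} [Monoid B] (fc : Finset S → (Multiplicative ℤ →* B)) (fp) (E) :
    liftA fc fp (cc E) = fc E (Multiplicative.ofAdd 1) := liftA_cHom _ _ _ _

@[simp] lemma liftA_pY {B : Type*} [Monoid B] (fc : Finset S → (Multiplicative ℤ →* B)) (fp) (y)
    (q) : liftA fc fp (pY y q) = fp y (Multiplicative.ofAdd q) := liftA_pHom _ _ _ _

lemma homA_ext {B : Type*} [Monoid B] {f g : A →* B} (hc : ∀ E, f (cc E) = g (cc E))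
    (hp : ∀ y q, f (pY y q) = g (pY y q)) : f = g := by
  apply CoprodI.ext_hom
  rintro (E | y)
  · have h1 : f.comp (cHom E) = g.comp (cHom E) := by
      apply MonoidHom.ext_mint
      exact hc E
    exact h1
  · ext q
    exact hp y (Multiplicative.toAdd q)

lemma A_induction {P : A → Prop} (a : A) (h1 : P 1) (hc : ∀ E m, P (cHom E m))
    (hp : ∀ y q, P (pY y q)) (hm : ∀ a b, P a → P b → P (a * b)) : P a := by
  induction a using CoprodI.induction_on with
  | one => exact h1
  | of i m =>
    rcases i with E | y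
    · exact hc E m
    · exact hp y (Multiplicative.toAdd (show Multiplicative (Fin y.1 → ZMod 2) from m))
  | mul x y hx hy => exact hm x y hx hy

/-- shifting the index of a finite factor -/
def shiftY (v : ℕ → ZMod 2) (y : Y) : Y := ⟨y.1, fun i => y.2 i + v i⟩

lemma shiftY_add (v v' : ℕ → ZMod 2) (y : Y) : shiftY (v + v') y = shiftY v (shiftY v' y) := by
  unfold shiftY
  congr 1
  ext i
  simp only [Pi.add_apply]
  ring

lemma shiftY_zero (y : Y) : shiftY 0 y = y := by
  unfold shiftY
  simp

lemma pY_congr {n : ℕ} {y y' : Fin n → ZMod 2} (h : y = y') (q : Fin n → ZMod 2) :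
    pY ⟨n, y⟩ q = pY ⟨n, y'⟩ q := by
  subst h; rfl

/-- automorphisms permuting the factors -/
def permHom (σ : Equiv.Perm (Finset S)) (v : ℕ → ZMod 2) : A →* A :=
  liftA (fun E => cHom (σ E)) (fun y => pHom (shiftY v y))

@[simp] lemma permHom_cHom (σ : Equiv.Perm (Finset S)) (v : ℕ → ZMod 2) (E) (m) :
    permHom σ v (cHom E m) = cHom (σ E) m := liftA_cHom _ _ _ _
@[simp] lemma permHom_cc (σ : Equiv.Perm (Finset S)) (v : ℕ → ZMod 2) (E) :
    permHom σ v (cc E) = cc (σ E) := liftA_cHom _ _ _ _
@[simp] lemma permHom_pY (σ : Equiv.Perm (Finset S)) (v : ℕ → ZMod 2) (y : Y) (q) :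
    permHom σ v (pY y q) = pY (shiftY v y) q := liftA_pY _ _ _ _

lemma permHom_mul (σ σ' : Equiv.Perm (Finset S)) (v v' : ℕ → ZMod 2) :
    permHom (σ * σ') (v + v') = (permHom σ v).comp (permHom σ' v') := by
  apply homA_ext
  · intro E; simp
  · rintro ⟨n, y⟩ q
    rw [MonoidHom.comp_apply, permHom_pY, permHom_pY]
    erw [permHom_pY]
    apply pY_congr
    ext i
    simp only [shiftY, Pi.add_apply]
    ring

lemma permHom_one : permHom 1 0 = MonoidHom.id A := by
  apply homA_ext
  · intro E; simp
  · rintro ⟨n, y⟩ q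
    rw [permHom_pY]
    apply pY_congr
    simp

/-- the automorphism -/
def permAut (σ : Equiv.Perm (Finset S)) (v : ℕ → ZMod 2) : MulAut A :=
  MonoidHom.toMulEquiv (permHom σ v) (permHom σ⁻¹ (-v))
    (by rw [← permHom_mul, inv_mul_cancel, neg_add_cancel, permHom_one])
    (by rw [← permHom_mul, mul_inv_cancel, add_neg_cancel, permHom_one])

@[simp] lemma permAut_apply (σ : Equiv.Perm (Finset S)) (v : ℕ → ZMod 2) (a : A) :
    permAut σ v a = permHom σ v a := rfl

/-- action of `J` on `A` -/
def JA : J →* MulAut A where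
  toFun κ := permAut (MulAction.toPerm κ) (fun i : ℕ => (add κ.left).2 (i : ℤ))
  map_one' := by
    ext a
    have h1 : (MulAction.toPerm (1 : J) : Equiv.Perm (Finset S)) = 1 := by ext; simp
    have h2 : (fun i : ℕ => (add (1 : J).left).2 (i : ℤ)) = 0 := rfl
    rw [permAut_apply, h1, h2, permHom_one]; rfl
  map_mul' κ κ' := by
    ext a
    have h1 : (MulAction.toPerm (κ * κ') : Equiv.Perm (Finset S)) =
        MulAction.toPerm κ * MulAction.toPerm κ' := by
      ext x
      simp [mul_smul]
    have h2 : (fun i : ℕ => (add (κ * κ').left).2 (i : ℤ)) =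
        (fun i : ℕ => (add κ.left).2 (i : ℤ)) + (fun i : ℕ => (add κ'.left).2 (i : ℤ)) := by
      ext i
      rw [SemidirectProduct.mul_left, add_mul]
      simp only [Prod.snd_add, Pi.add_apply, snd_phi]
    rw [permAut_apply, h1, h2, permHom_mul]; rfl

lemma JA_apply (κ : J) (a : A) : JA κ a =
    permHom (MulAction.toPerm κ) (fun i : ℕ => (add κ.left).2 (i : ℤ)) a := rfl

@[simp] lemma JA_cHom (κ : J) (E : Finset S) (m) : JA κ (cHom E m) = cHom (κ • E) m := by
  rw [JA_apply]; simp
@[simp] lemma JA_cc (κ : J) (E : Finset S) : JA κ (cc E) = cc (κ • E) := by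
  rw [JA_apply]; simp
lemma JA_pY (κ : J) (y : Y) (q) :
    JA κ (pY y q) = pY (shiftY (fun i : ℕ => (add κ.left).2 (i : ℤ)) y) q := by
  rw [JA_apply, permHom_pY]

end Pool.Agent.Helper509.RD
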