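import Pool.Agent.Helper509.RD.Tripod

open List Monoid

namespace Pool.Agent.Helper509.RD.CP

variable {ι : Type*} {M : ι → Type*} [∀ i, Group (M i)]

/-- product of a list of syllables -/
def prodL (l : List (Σ i, M i)) : CoprodI M := (l.map fun s => CoprodI.of s.2).prod

/-- reduced lists -/
def Red (l : List (Σ i, M i)) : Prop := (∀ s ∈ l, s.2 ≠ 1) ∧ l.IsChain (fun a b => a.1 ≠ b.1)

/-- formal inverse -/
def invL (l : List (Σ i, M i)) : List (Σ i, M i) := (l.map fun s => ⟨s.1, s.2⁻¹⟩).reverse

@[simp] lemma prodL_nil : prodL ([] : List (Σ i, M i)) = 1 := rfl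
@[simp] lemma prodL_cons (s : Σ i, M i) (l) : prodL (s :: l) = CoprodI.of s.2 * prodL l := by
  simp [prodL]
@[simp] lemma prodL_append (l l' : List (Σ i, M i)) : prodL (l ++ l') = prodL l * prodL l' := by
  simp [prodL]

@[simp] lemma invL_nil : invL ([] : List (Σ i, M i)) = [] := rfl
@[simp] lemma invL_append (l l' : List (Σ i, M i)) : invL (l ++ l') = invL l' ++ invL l := by
  simp [invL]
@[simp] lemma invL_cons (s : Σ i, M i) (l) : invL (s :: l) = invL l ++ [⟨s.1, s.2⁻¹⟩] := by
  simp [invL]
@[simp] lemma length_invL (l : List (Σ i, M i)) : (invL l).length = l.length := by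
  simp [invL]
@[simp] lemma invL_invL (l : List (Σ i, M i)) : invL (invL l) = l := by
  induction l with
  | nil => rfl
  | cons a l ih => rw [invL_cons, invL_append, ih]; simp

lemma prodL_invL (l : List (Σ i, M i)) : prodL (invL l) = (prodL l)⁻¹ := by
  induction l with
  | nil => simp
  | cons a l ih => rw [invL_cons, prodL_append, ih]; simp [mul_inv_rev]

lemma Red.left {l l' : List (Σ i, M i)} (h : Red (l ++ l')) : Red l :=
  ⟨fun s hs => h.1 s (List.mem_append_left _ hs), h.2.left_of_append⟩
lemma Red.right {l l' : List (Σ i, M i)} (h : Red (l ++ l')) : Red l' :=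
  ⟨fun s hs => h.1 s (List.mem_append_right _ hs), h.2.right_of_append⟩
lemma Red.tail {s : Σ i, M i} {l' : List (Σ i, M i)} (h : Red (s :: l')) : Red l' :=
  Red.right (l := [s]) h

lemma Red.invL {l : List (Σ i, M i)} (h : Red l) : Red (invL l) := by
  constructor
  · intro s hs
    unfold CP.invL at hs
    rw [List.mem_reverse, List.mem_map] at hs
    obtain ⟨t, ht, rfl⟩ := hs
    simpa using h.1 t ht
  · unfold CP.invL
    apply isChain_reverse'
    · intro a b hab; exact hab.symm
    · rw [List.isChain_map]; exact h.2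

lemma Red.append {l l' : List (Σ i, M i)} (h : Red l) (h' : Red l')
    (hh : ∀ x ∈ l.getLast?, ∀ y ∈ l'.head?, x.1 ≠ y.1) : Red (l ++ l') :=
  ⟨fun s hs => (List.mem_append.mp hs).elim (h.1 s) (h'.1 s), h.2.append h'.2 hh⟩

variable [DecidableEq ι] [∀ i, DecidableEq (M i)]

/-- normal form -/
def nf (a : CoprodI M) : List (Σ i, M i) := (CoprodI.Word.equiv a).toList

lemma nf_red (a : CoprodI M) : Red (nf a) :=
  ⟨(CoprodI.Word.equiv a).ne_one, (CoprodI.Word.equiv a).chain_ne⟩

@[simp] lemma prodL_nf (a : CoprodI M) : prodL (nf a) = a :=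
  CoprodI.Word.equiv.symm_apply_apply a

lemma nf_prodL {l : List (Σ i, M i)} (h : Red l) : nf (prodL l) = l := by
  have := CoprodI.Word.equiv.apply_symm_apply (⟨l, h.1, h.2⟩ : CoprodI.Word M)
  exact congrArg CoprodI.Word.toList this

lemma nf_inv (a : CoprodI M) : nf a⁻¹ = invL (nf a) := by
  conv_lhs => rw [← prodL_nf a, ← prodL_invL]
  exact nf_prodL (nf_red a).invL

@[simp] lemma nf_one : nf (1 : CoprodI M) = [] := by
  have : Red ([] : List (Σ i, M i)) := ⟨by simp, by simp⟩
  exact nf_prodL this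

lemma nf_of {i : ι} {m : M i} (h : m ≠ 1) : nf (CoprodI.of m) = [⟨i, m⟩] := by
  have : Red ([⟨i, m⟩] : List (Σ i, M i)) := ⟨by simpa using h, by simp⟩
  have h2 := nf_prodL this
  simpa using h2

/-- prefix product -/
def pre (i : ℕ) (a : CoprodI M) : CoprodI M := prodL ((nf a).take i)

/-- index of a syllable -/
def idx (i : ℕ) (a : CoprodI M) : Option ι := ((nf a)[i]?).map Sigma.fst

/-- the structure of a product `h * k` -/
lemma mul_cases (h k : CoprodI M) : ∃ p r r' : List (Σ i, M i), nf h⁻¹ = p ++ r ∧ nf k = p ++ r' ∧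
    nf h = invL r ++ invL p ∧
    ((nf (h * k) = invL r ++ r') ∨
      ∃ (i : ι) (q q' : M i) (t t' : List (Σ i, M i)), q ≠ q' ∧ r = ⟨i, q⟩ :: t ∧
        r' = ⟨i, q'⟩ :: t' ∧ nf (h * k) = invL t ++ ⟨i, q⁻¹ * q'⟩ :: t') := by
  obtain ⟨p, r, r', h1, h2, h3⟩ := split (nf h⁻¹) (nf k)
  have hr1 : Red (p ++ r) := by rw [← h1]; exact nf_red _
  have hr2 : Red (p ++ r') := by rw [← h2]; exact nf_red _
  have hr := hr1.right
  have hr' := hr2.right
  have hh : nf h = invL r ++ invL p := by
    rw [← invL_append, ← h1, nf_inv, invL_invL]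
  have hprod : h * k = prodL (invL r ++ r') := by
    conv_lhs => rw [← prodL_nf h, ← prodL_nf k, hh, h2]
    simp only [prodL_append, prodL_invL]
    group
  refine ⟨p, r, r', h1, h2, hh, ?_⟩
  rcases h3 with h3 | h3 | ⟨x, y, t, t', h3, h4, h5⟩
  · left
    subst h3
    rw [hprod]
    exact nf_prodL (by simpa using hr')
  · left
    subst h3
    rw [hprod]
    exact nf_prodL (by simpa using hr.invL)
  · subst h3 h4
    obtain ⟨i, q⟩ := x
    obtain ⟨j, q'⟩ := y
    by_cases hij : i = j
    · subst hij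
      right
      have hq : q ≠ q' := fun h' => h5 (by rw [h'])
      refine ⟨i, q, q', t, t', hq, rfl, rfl, ?_⟩
      have hprod2 : h * k = prodL (invL t ++ ⟨i, q⁻¹ * q'⟩ :: t') := by
        rw [hprod]
        simp [mul_assoc]
      rw [hprod2]
      apply nf_prodL
      have hi := hr.invL
      rw [invL_cons] at hi
      refine hi.left.append ⟨?_, ?_⟩ ?_
      · intro s hs
        rw [List.mem_cons] at hs
        rcases hs with hs | hs
        · subst hs
          simp only [ne_eq]
          rw [inv_mul_eq_one]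
          exact hq
        · exact hr'.1 s (List.mem_cons_of_mem _ hs)
      · have := hr'.2
        rw [List.isChain_cons] at this ⊢
        exact this
      · intro x hx y hy
        simp only [head?_cons, Option.mem_def, Option.some.injEq] at hy
        subst hy
        have h6 := hi.2
        rw [List.isChain_append] at h6
        exact h6.2.2 x hx ⟨i, q⁻¹⟩ (by simp)
    · left
      rw [hprod]
      apply nf_prodL
      refine hr.invL.append hr' ?_
      intro x hx y hy
      rw [invL_cons] at hx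
      simp only [getLast?_append, getLast?_singleton, 
        Option.mem_def, Option.some.injEq, head?_cons, Option.some_or] at hx hy
      subst hy
      rw [← hx]
      exact hij

theorem tripod (h k : CoprodI M) : ∃ i j, pre i h = pre i (h * k) ∧ pre j h⁻¹ = pre j k ∧
    (i + j = (nf h).length ∨ (i + 1 + j = (nf h).length ∧ ∃ x, idx i h = some x ∧
      idx i (h * k) = some x ∧ idx j h⁻¹ = some x ∧ idx j k = some x)) := by
  obtain ⟨p, r, r', h1, h2, hh, h3⟩ := mul_cases h k
  rcases h3 with h3 | ⟨i, q, q', t, t', hq, h4, h5, h3⟩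
  · refine ⟨r.length, p.length, ?_, ?_, Or.inl ?_⟩
    · unfold pre
      rw [hh, h3, List.take_left' (by simp), List.take_left' (by simp)]
    · unfold pre
      rw [h1, h2, List.take_left' rfl, List.take_left' rfl]
    · rw [hh]; simp
  · subst h4 h5
    refine ⟨t.length, p.length, ?_, ?_, Or.inr ⟨?_, i, ?_, ?_, ?_, ?_⟩⟩
    · unfold pre
      rw [hh, h3, invL_cons, List.append_assoc, List.take_left' (by simp),
        List.take_left' (by simp)]
    · unfold pre
      rw [h1, h2, List.take_left' rfl, List.take_left' rfl]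
    · rw [hh]; simp; omega
    · unfold idx
      rw [hh, invL_cons, List.append_assoc, List.getElem?_append_right (by simp)]
      simp
    · unfold idx
      rw [h3, List.getElem?_append_right (by simp)]
      simp
    · unfold idx
      rw [h1, List.getElem?_append_right (by simp)]
      simp
    · unfold idx
      rw [h2, List.getElem?_append_right (by simp)]
      simp

omit [DecidableEq ι] [∀ i, DecidableEq (M i)] in
lemma take_invL {l : List (Σ i, M i)} {i j : ℕ} (h : i + j = l.length) :
    (invL l).take j = invL (l.drop i) := by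
  unfold invL
  rw [List.take_reverse, List.map_drop]
  congr 2
  simp only [List.length_map]
  omega

lemma pre_inv {i j : ℕ} {h : CoprodI M} (hij : i + j = (nf h).length) :
    pre j h⁻¹ = h⁻¹ * pre i h := by
  unfold pre
  rw [nf_inv, take_invL hij, prodL_invL]
  conv_rhs => rw [← prodL_nf h, ← List.take_append_drop i (nf h)]
  rw [prodL_append]
  have h3 : nf (prodL ((nf h).take i) * prodL ((nf h).drop i)) = nf h := by
    rw [← prodL_append, List.take_append_drop, prodL_nf]
  rw [h3]
  group

lemma decomp {i j : ℕ} {h : CoprodI M} (hij : i + 1 + j = (nf h).length) {s : Σ i, M i}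
    (hs : (nf h)[i]? = some s) : h = pre i h * CoprodI.of s.2 * (pre j h⁻¹)⁻¹ := by
  rw [pre_inv hij]
  have h1 : pre (i + 1) h = pre i h * CoprodI.of s.2 := by
    unfold pre
    rw [List.take_add_one, hs]
    simp
  rw [h1]
  group

lemma idx_inv {i j : ℕ} {h : CoprodI M} (hij : i + 1 + j = (nf h).length) :
    idx j h⁻¹ = idx i h := by
  unfold idx
  rw [nf_inv]
  unfold invL
  rw [List.getElem?_reverse (by simp; omega), List.getElem?_map]
  have : (List.map (fun s : Σ i, M i => (⟨s.1, s.2⁻¹⟩ : Σ i, M i)) (nf h)).length - 1 - j = i := by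
    simp; omega
  rw [this]
  cases (nf h)[i]? <;> simp

lemma nf_map (κ : CoprodI M →* CoprodI M) (τ : (Σ i, M i) → (Σ i, M i))
    (h1 : ∀ s, s.2 ≠ 1 → (τ s).2 ≠ 1) (h2 : ∀ s s', s.1 ≠ s'.1 → (τ s).1 ≠ (τ s').1)
    (h3 : ∀ s : Σ i, M i, κ (CoprodI.of s.2) = CoprodI.of (τ s).2) (a : CoprodI M) :
    nf (κ a) = (nf a).map τ := by
  have hp : ∀ l : List (Σ i, M i), κ (prodL l) = prodL (l.map τ) := by
    intro l
    induction l with
    | nil => simp
    | cons s l ih => simp [h3, ih]
  have hr : Red ((nf a).map τ) := by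
    constructor
    · intro s hs
      rw [List.mem_map] at hs
      obtain ⟨t, ht, rfl⟩ := hs
      exact h1 t ((nf_red a).1 t ht)
    · rw [List.isChain_map]
      exact (nf_red a).2.imp (fun a b hab => h2 a b hab)
  conv_lhs => rw [← prodL_nf a, hp]
  exact nf_prodL hr

lemma pre_map (κ : CoprodI M →* CoprodI M) (τ : (Σ i, M i) → (Σ i, M i))
    (h1 : ∀ s, s.2 ≠ 1 → (τ s).2 ≠ 1) (h2 : ∀ s s', s.1 ≠ s'.1 → (τ s).1 ≠ (τ s').1)
    (h3 : ∀ s : Σ i, M i, κ (CoprodI.of s.2) = CoprodI.of (τ s).2) (i : ℕ) (a : CoprodI M) :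
    pre i (κ a) = κ (pre i a) := by
  have hp : ∀ l : List (Σ i, M i), κ (prodL l) = prodL (l.map τ) := by
    intro l
    induction l with
    | nil => simp
    | cons s l ih => simp [h3, ih]
  unfold pre
  rw [nf_map κ τ h1 h2 h3, ← List.map_take, hp]

section Weight

variable (w : (Σ i, M i) → ℕ)

/-- total weight -/
def wt (a : CoprodI M) : ℕ := ((nf a).map w).sum

@[simp] lemma wt_one : wt w (1 : CoprodI M) = 0 := by simp [wt]

lemma wt_of_le {i : ι} (m : M i) : wt w (CoprodI.of m) ≤ w ⟨i, m⟩ := by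
  by_cases h : m = 1
  · subst h; simp
  · unfold wt; rw [nf_of h]; simp

variable {w} (hinv : ∀ i (m : M i), w ⟨i, m⁻¹⟩ = w ⟨i, m⟩)
include hinv

omit [DecidableEq ι] [∀ i, DecidableEq (M i)] in
lemma sum_invL (l : List (Σ i, M i)) : ((invL l).map w).sum = (l.map w).sum := by
  unfold invL
  rw [List.map_reverse, List.sum_reverse, List.map_map]
  congr 1
  apply List.map_congr_left
  intro s _
  exact hinv s.1 s.2

lemma wt_inv (a : CoprodI M) : wt w a⁻¹ = wt w a := by
  unfold wt; rw [nf_inv, sum_invL hinv]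

omit hinv in
lemma wt_mul_le (hmul : ∀ i (m m' : M i), w ⟨i, m * m'⟩ ≤ w ⟨i, m⟩ + w ⟨i, m'⟩)
    (h k : CoprodI M) : wt w (h * k) ≤ wt w h + wt w k := by
  obtain ⟨p, r, r', h1, h2, hh, h3⟩ := mul_cases h k
  unfold wt
  rw [hh, h2]
  rcases h3 with h3 | ⟨i, q, q', t, t', hq, h4, h5, h3⟩
  · rw [h3]
    simp only [List.map_append, List.sum_append]
    omega
  · rw [h3]
    subst h4 h5
    simp only [List.map_append, List.sum_append, invL_cons, List.map_cons, List.map_nil,
      List.sum_cons, List.sum_nil]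
    have := hmul i q⁻¹ q'
    omega

end Weight

lemma length_le_wt {w : (Σ i, M i) → ℕ} (h : ∀ s : Σ i, M i, s.2 ≠ 1 → 1 ≤ w s) (a : CoprodI M) :
    (nf a).length ≤ wt w a := by
  unfold wt
  rw [← List.length_map (f := w)]
  apply List.length_le_sum_of_one_le
  intro i hi
  rw [List.mem_map] at hi
  obtain ⟨s, hs, rfl⟩ := hi
  exact h s ((nf_red a).1 s hs)

lemma le_wt {w : (Σ i, M i) → ℕ} {a : CoprodI M} {s : Σ i, M i} (h : s ∈ nf a) : w s ≤ wt w a := by
  unfold wt
  exact List.single_le_sum (by simp) _ (List.mem_map_of_mem h)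

end Pool.Agent.Helper509.RD.CP
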