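import Mathlib

open MeasureTheory Set
open scoped ENNReal

namespace Pool.Agent.Helper509.RD

section CS

variable {α : Type*} [MeasurableSpace α] {μ : Measure α}

lemma lintegral_mul_sq_le {f g : α → ℝ≥0∞} (hf : AEMeasurable f μ) (hg : AEMeasurable g μ) :
    (∫⁻ a, f a * g a ∂μ) ^ 2 ≤ (∫⁻ a, f a ^ 2 ∂μ) * ∫⁻ a, g a ^ 2 ∂μ := by
  have h := ENNReal.lintegral_mul_le_Lp_mul_Lq μ Real.HolderConjugate.two_two hf hg
  have h1 : (∫⁻ a, f a * g a ∂μ) ^ 2 ≤
      ((∫⁻ a, f a ^ (2:ℝ) ∂μ) ^ (1 / (2:ℝ)) * (∫⁻ a, g a ^ (2:ℝ) ∂μ) ^ (1 / (2:ℝ))) ^ 2 := by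
    gcongr
    exact h
  refine h1.trans (le_of_eq ?_)
  rw [mul_pow, ← ENNReal.rpow_natCast, ← ENNReal.rpow_natCast, ← ENNReal.rpow_mul,
    ← ENNReal.rpow_mul]
  norm_num

lemma tsum_mul_sq_le {ι : Type*} [Countable ι] (f g : ι → ℝ≥0∞) :
    (∑' i, f i * g i) ^ 2 ≤ (∑' i, f i ^ 2) * ∑' i, g i ^ 2 := by
  let _ : MeasurableSpace ι := ⊤
  have h := lintegral_mul_sq_le (μ := Measure.count (α := ι)) (f := f) (g := g)
    (measurable_of_countable _).aemeasurable (measurable_of_countable _).aemeasurable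
  simpa [lintegral_count] using h

lemma sum_sq_le {ι : Type*} (s : Finset ι) (f : ι → ℝ≥0∞) :
    (∑ i ∈ s, f i) ^ 2 ≤ s.card * ∑ i ∈ s, f i ^ 2 := by
  classical
  have h := tsum_mul_sq_le (ι := s) (fun _ => 1) (fun i => f i)
  simp only [one_mul, one_pow, tsum_fintype] at h
  simpa [Finset.sum_attach s (fun i => f i), Finset.sum_attach s (fun i => f i ^ 2)] using h

end CS

lemma measurableSet_eq_of_countable {α T : Type*} [MeasurableSpace α] [Countable T]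
    [MeasurableSpace T] [MeasurableSingletonClass T] {f g : α → T} (hf : Measurable f)
    (hg : Measurable g) : MeasurableSet {a | f a = g a} := by
  have : {a | f a = g a} = ⋃ c : T, (f ⁻¹' {c} ∩ g ⁻¹' {c}) := by
    ext a
    simp only [mem_ofPred_eq, mem_iUnion, mem_inter_iff, mem_preimage, mem_singleton_iff]
    constructor
    · intro h; exact ⟨g a, h, rfl⟩
    · rintro ⟨c, h1, h2⟩; rw [h1, h2]
  rw [this]
  exact MeasurableSet.iUnion fun c =>
    (hf (measurableSet_singleton c)).inter (hg (measurableSet_singleton c))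

section Main

variable {G : Type*} [Group G] [TopologicalSpace G] [IsTopologicalGroup G] [MeasurableSpace G]
  [BorelSpace G] [SecondCountableTopology G] {μ : Measure G} [μ.IsMulLeftInvariant] [SFinite μ]
  {T : Type*} [Countable T] [MeasurableSpace T] [MeasurableSingletonClass T]

/-- the part of the convolution singled out by one level -/
lemma part_bound {S : Set G} (hS : MeasurableSet S) {C C' : G → T} (hC : Measurable C)
    (hC' : Measurable C') {M : ℝ≥0∞}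
    (hM : ∀ c w, μ {h | h ∈ S ∧ C h = c ∧ C' h⁻¹ = w} ≤ M)
    {f ξ : G → ℝ≥0∞} (hf : Measurable f) (hξ : Measurable ξ) :
    ∫⁻ g, (∫⁻ h, {h | h ∈ S ∧ C h = C g ∧ C' h⁻¹ = C' (h⁻¹ * g)}.indicator
      (fun h => f h * ξ (h⁻¹ * g)) h ∂μ) ^ 2 ∂μ ≤
      M * (∫⁻ h in S, f h ^ 2 ∂μ) * ∫⁻ k, ξ k ^ 2 ∂μ := by
  classical
  set A : T → ℝ≥0∞ := fun c => ∫⁻ h, {h | h ∈ S ∧ C h = c}.indicator (fun h => f h ^ 2) h ∂μ
    with hA
  -- the second factor
  set B : T → G → ℝ≥0∞ := fun c g => ∫⁻ h, {h | h ∈ S ∧ C h = c ∧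
    C' h⁻¹ = C' (h⁻¹ * g)}.indicator (fun h => ξ (h⁻¹ * g) ^ 2) h ∂μ with hB
  have hmS : ∀ c, MeasurableSet {h | h ∈ S ∧ C h = c} := fun c =>
    hS.inter (hC (measurableSet_singleton c))
  have hm2 : ∀ c, MeasurableSet {p : G × G | p.1 ∈ S ∧ C p.1 = c ∧
      C' p.1⁻¹ = C' (p.1⁻¹ * p.2)} := by
    intro c
    refine (measurable_fst hS).inter ((hC.comp measurable_fst (measurableSet_singleton c)).inter ?_)
    exact measurableSet_eq_of_countable (hC'.comp measurable_fst.inv)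
      (hC'.comp (measurable_fst.inv.mul measurable_snd))
  have hm3 : ∀ c g, MeasurableSet {h : G | h ∈ S ∧ C h = c ∧ C' h⁻¹ = C' (h⁻¹ * g)} := by
    intro c g
    exact (measurable_id.prodMk measurable_const) (hm2 c)
  have step1 : ∀ g, (∫⁻ h, {h | h ∈ S ∧ C h = C g ∧ C' h⁻¹ = C' (h⁻¹ * g)}.indicator
      (fun h => f h * ξ (h⁻¹ * g)) h ∂μ) ^ 2 ≤ A (C g) * B (C g) g := by
    intro g
    have h1 : ∀ h, {h | h ∈ S ∧ C h = C g ∧ C' h⁻¹ = C' (h⁻¹ * g)}.indicator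
        (fun h => f h * ξ (h⁻¹ * g)) h =
        ({h | h ∈ S ∧ C h = C g}.indicator f h) *
        ({h | h ∈ S ∧ C h = C g ∧ C' h⁻¹ = C' (h⁻¹ * g)}.indicator (fun h => ξ (h⁻¹ * g)) h) := by
      intro h
      by_cases hh : h ∈ S ∧ C h = C g ∧ C' h⁻¹ = C' (h⁻¹ * g)
      · have h2 : h ∈ {h | h ∈ S ∧ C h = C g} := ⟨hh.1, hh.2.1⟩
        rw [Set.indicator_of_mem (show h ∈ {h | h ∈ S ∧ C h = C g ∧ C' h⁻¹ = C' (h⁻¹ * g)} from hh),
          Set.indicator_of_mem h2,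
          Set.indicator_of_mem (show h ∈ {h | h ∈ S ∧ C h = C g ∧ C' h⁻¹ = C' (h⁻¹ * g)} from hh)]
      · rw [Set.indicator_of_notMem (show h ∉ {h | h ∈ S ∧ C h = C g ∧ C' h⁻¹ = C' (h⁻¹ * g)} from hh),
          Set.indicator_of_notMem (show h ∉ {h | h ∈ S ∧ C h = C g ∧ C' h⁻¹ = C' (h⁻¹ * g)} from hh),
          mul_zero]
    rw [lintegral_congr h1]
    refine (lintegral_mul_sq_le ?_ ?_).trans ?_
    · exact (hf.indicator (hmS _)).aemeasurable
    · exact ((hξ.comp (measurable_inv.mul_const g)).indicator (hm3 _ g)).aemeasurable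
    · refine mul_le_mul' (le_of_eq ?_) (le_of_eq ?_)
      · apply lintegral_congr
        intro h
        by_cases hh : h ∈ {h | h ∈ S ∧ C h = C g}
        · rw [Set.indicator_of_mem hh, Set.indicator_of_mem hh]
        · rw [Set.indicator_of_notMem hh, Set.indicator_of_notMem hh]; simp
      · apply lintegral_congr
        intro h
        by_cases hh : h ∈ {h | h ∈ S ∧ C h = C g ∧ C' h⁻¹ = C' (h⁻¹ * g)}
        · rw [Set.indicator_of_mem hh, Set.indicator_of_mem hh]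
        · rw [Set.indicator_of_notMem hh, Set.indicator_of_notMem hh]; simp
  have hBmeas : ∀ c, Measurable (B c) := by
    intro c
    apply Measurable.lintegral_prod_right' (f := fun p : G × G =>
      {p : G × G | p.2 ∈ S ∧ C p.2 = c ∧ C' p.2⁻¹ = C' (p.2⁻¹ * p.1)}.indicator
        (fun p => ξ (p.2⁻¹ * p.1) ^ 2) p)
    exact ((hξ.comp (measurable_snd.inv.mul measurable_fst)).pow_const 2).indicator
      (measurable_swap (hm2 c))
  have step2 : ∀ c, ∫⁻ g, B c g ∂μ ≤ M * ∫⁻ k, ξ k ^ 2 ∂μ := by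
    intro c
    have h1 : ∫⁻ g, B c g ∂μ = ∫⁻ h, ∫⁻ g, {h | h ∈ S ∧ C h = c ∧
        C' h⁻¹ = C' (h⁻¹ * g)}.indicator (fun h => ξ (h⁻¹ * g) ^ 2) h ∂μ ∂μ := by
      rw [hB]
      rw [lintegral_lintegral_swap]
      exact (((hξ.comp (measurable_snd.inv.mul measurable_fst)).pow_const 2).indicator
        (measurable_swap (hm2 c))).aemeasurable
    have h2 : ∀ h, ∫⁻ g, {h | h ∈ S ∧ C h = c ∧
        C' h⁻¹ = C' (h⁻¹ * g)}.indicator (fun h => ξ (h⁻¹ * g) ^ 2) h ∂μ =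
        ∫⁻ k, {h | h ∈ S ∧ C h = c ∧ C' h⁻¹ = C' k}.indicator (fun _ => ξ k ^ 2) h ∂μ := by
      intro h
      exact lintegral_mul_left_eq_self (μ := μ) (fun k => {h | h ∈ S ∧ C h = c ∧
        C' h⁻¹ = C' k}.indicator (fun _ => ξ k ^ 2) h) h⁻¹
    rw [h1, lintegral_congr h2, lintegral_lintegral_swap]
    · have h3 : ∀ k, ∫⁻ h, {h | h ∈ S ∧ C h = c ∧ C' h⁻¹ = C' k}.indicator
          (fun _ => ξ k ^ 2) h ∂μ ≤ M * ξ k ^ 2 := by
        intro k
        rw [lintegral_indicator]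
        · rw [lintegral_const, Measure.restrict_apply MeasurableSet.univ, Set.univ_inter, mul_comm]
          gcongr
          exact hM c (C' k)
        · exact hS.inter ((hC (measurableSet_singleton c)).inter
            (hC'.comp measurable_inv (measurableSet_singleton (C' k))))
      refine (lintegral_mono h3).trans ?_
      rw [lintegral_const_mul _ (hξ.pow_const 2)]
    · refine Measurable.aemeasurable ?_
      have : MeasurableSet {p : G × G | p.1 ∈ S ∧ C p.1 = c ∧ C' p.1⁻¹ = C' p.2} :=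
        (measurable_fst hS).inter ((hC.comp measurable_fst (measurableSet_singleton c)).inter
          (measurableSet_eq_of_countable (hC'.comp measurable_fst.inv)
            (hC'.comp measurable_snd)))
      exact ((hξ.comp measurable_snd).pow_const 2).indicator this
  have hAsum : ∑' c, A c = ∫⁻ h in S, f h ^ 2 ∂μ := by
    rw [hA, ← lintegral_tsum (fun c => ((hf.pow_const 2).indicator (hmS c)).aemeasurable),
      ← lintegral_indicator hS]
    apply lintegral_congr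
    intro h
    rw [tsum_eq_single (C h)]
    · by_cases hh : h ∈ S
      · rw [Set.indicator_of_mem hh, Set.indicator_of_mem (show h ∈ {h' | h' ∈ S ∧ C h' = C h} from
          ⟨hh, rfl⟩)]
      · rw [Set.indicator_of_notMem hh, Set.indicator_of_notMem]
        exact fun h' => hh h'.1
    · intro c hc
      rw [Set.indicator_of_notMem]
      exact fun h' => hc h'.2.symm
  calc ∫⁻ g, (∫⁻ h, {h | h ∈ S ∧ C h = C g ∧ C' h⁻¹ = C' (h⁻¹ * g)}.indicator
      (fun h => f h * ξ (h⁻¹ * g)) h ∂μ) ^ 2 ∂μ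
      ≤ ∫⁻ g, A (C g) * B (C g) g ∂μ := lintegral_mono step1
    _ ≤ ∫⁻ g, ∑' c, A c * B c g ∂μ := by
        apply lintegral_mono
        intro g
        exact ENNReal.le_tsum (f := fun c => A c * B c g) (C g)
    _ = ∑' c, ∫⁻ g, A c * B c g ∂μ :=
        lintegral_tsum (fun c => ((hBmeas c).const_mul (A c)).aemeasurable)
    _ = ∑' c, A c * ∫⁻ g, B c g ∂μ := by
        congr 1; ext c; rw [lintegral_const_mul _ (hBmeas c)]
    _ ≤ ∑' c, A c * (M * ∫⁻ k, ξ k ^ 2 ∂μ) := by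
        gcongr with c
        exact step2 c
    _ = M * (∫⁻ h in S, f h ^ 2 ∂μ) * ∫⁻ k, ξ k ^ 2 ∂μ := by
        rw [ENNReal.tsum_mul_right, hAsum]; ring

/-- sum of the inverse squares -/
noncomputable def Theta : ℝ≥0∞ := ∑' l : ℕ, ((1 + l : ℝ≥0∞)⁻¹) ^ 2

lemma Theta_ne_top : Theta ≠ ∞ := by
  have h1 : Summable (fun l : ℕ => (1 / ((l:ℝ) + 1) ^ 2)) := by
    have := (Real.summable_one_div_nat_pow (p := 2)).mpr (by norm_num)
    exact_mod_cast (summable_nat_add_iff 1).mpr this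
  have h2 : Theta = ∑' l : ℕ, ENNReal.ofReal (1 / ((l:ℝ) + 1) ^ 2) := by
    unfold Theta
    congr 1
    ext l
    rw [ENNReal.ofReal_div_of_pos (by positivity), ENNReal.ofReal_one, one_div,
      ENNReal.ofReal_pow (by positivity), ENNReal.ofReal_add (by positivity) (by norm_num),
      ENNReal.ofReal_natCast, ENNReal.ofReal_one, ENNReal.inv_pow, add_comm]
  rw [h2]
  exact h1.tsum_ofReal_ne_top

lemma tsum_sq_le (a : ℕ → ℝ≥0∞) :
    (∑' l, a l) ^ 2 ≤ Theta * ∑' l : ℕ, (1 + l : ℝ≥0∞) ^ 2 * a l ^ 2 := by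
  have h := tsum_mul_sq_le (fun l : ℕ => (1 + l : ℝ≥0∞)⁻¹) (fun l : ℕ => (1 + l : ℝ≥0∞) * a l)
  have h1 : ∀ l : ℕ, (1 + l : ℝ≥0∞)⁻¹ * ((1 + l : ℝ≥0∞) * a l) = a l := by
    intro l
    rw [← mul_assoc, ENNReal.inv_mul_cancel (by simp) (by simp), one_mul]
  simp only [h1, mul_pow] at h
  exact h

/-- convolution bound from a system of centres -/
theorem centers_bound {Λ : Type*} (L : G → ℕ) (hL : Measurable L) (Box : ℕ → Finset Λ)
    (good : Λ → Set G) (hgood : ∀ x, MeasurableSet (good x)) (C C' : Λ → G → T)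
    (hC : ∀ x, Measurable (C x)) (hC' : ∀ x, Measurable (C' x)) (M : ℝ≥0∞)
    (hM : ∀ x c w, μ {h | h ∈ good x ∧ C x h = c ∧ C' x h⁻¹ = w} ≤ M)
    (hcov : ∀ h k, ∃ x ∈ Box (L h), h ∈ good x ∧ C x h = C x (h * k) ∧ C' x h⁻¹ = C' x k)
    {f ξ : G → ℝ≥0∞} (hf : Measurable f) (hξ : Measurable ξ) :
    ∫⁻ g, (∫⁻ h, f h * ξ (h⁻¹ * g) ∂μ) ^ 2 ∂μ ≤
      Theta * M * (∫⁻ h, f h ^ 2 * ((1 + L h : ℝ≥0∞) ^ 2 * ((Box (L h)).card : ℝ≥0∞) ^ 2) ∂μ) *
        ∫⁻ k, ξ k ^ 2 ∂μ := by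
  classical
  set S : ℕ → Λ → Set G := fun l x => L ⁻¹' {l} ∩ good x with hS
  have hSm : ∀ l x, MeasurableSet (S l x) := fun l x =>
    (hL (measurableSet_singleton l)).inter (hgood x)
  set P : ℕ → Λ → G → ℝ≥0∞ := fun l x g => ∫⁻ h, {h | h ∈ S l x ∧ C x h = C x g ∧
    C' x h⁻¹ = C' x (h⁻¹ * g)}.indicator (fun h => f h * ξ (h⁻¹ * g)) h ∂μ with hP
  have hm2 : ∀ l x, MeasurableSet {p : G × G | p.2 ∈ S l x ∧ C x p.2 = C x p.1 ∧
      C' x p.2⁻¹ = C' x (p.2⁻¹ * p.1)} := by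
    intro l x
    refine (measurable_snd (hSm l x)).inter ((measurableSet_eq_of_countable
      ((hC x).comp measurable_snd) ((hC x).comp measurable_fst)).inter ?_)
    exact measurableSet_eq_of_countable ((hC' x).comp measurable_snd.inv)
      ((hC' x).comp (measurable_snd.inv.mul measurable_fst))
  have hjoint : ∀ l x, Measurable (fun p : G × G => {p : G × G | p.2 ∈ S l x ∧
      C x p.2 = C x p.1 ∧ C' x p.2⁻¹ = C' x (p.2⁻¹ * p.1)}.indicator
        (fun p => f p.2 * ξ (p.2⁻¹ * p.1)) p) := fun l x =>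
    ((hf.comp measurable_snd).mul (hξ.comp (measurable_snd.inv.mul measurable_fst))).indicator
      (hm2 l x)
  have hPm : ∀ l x, Measurable (P l x) := fun l x =>
    Measurable.lintegral_prod_right' (hjoint l x)
  have hcomp : ∀ g h, f h * ξ (h⁻¹ * g) ≤ ∑' l : ℕ, ∑ x ∈ Box l, {h | h ∈ S l x ∧
      C x h = C x g ∧ C' x h⁻¹ = C' x (h⁻¹ * g)}.indicator (fun h => f h * ξ (h⁻¹ * g)) h := by
    intro g h
    obtain ⟨x, hx, h1, h2, h3⟩ := hcov h (h⁻¹ * g)
    rw [mul_inv_cancel_left] at h2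
    refine le_trans ?_ (ENNReal.le_tsum (L h))
    refine le_trans ?_ (Finset.single_le_sum (f := fun x => {h' | h' ∈ S (L h) x ∧
      C x h' = C x g ∧ C' x h'⁻¹ = C' x (h'⁻¹ * g)}.indicator
        (fun h' => f h' * ξ (h'⁻¹ * g)) h) (fun _ _ => zero_le) hx)
    rw [Set.indicator_of_mem]
    exact ⟨⟨rfl, h1⟩, h2, h3⟩
  have hF : ∀ g, ∫⁻ h, f h * ξ (h⁻¹ * g) ∂μ ≤ ∑' l : ℕ, ∑ x ∈ Box l, P l x g := by
    intro g
    refine (lintegral_mono (hcomp g)).trans ?_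
    have hmm : ∀ l x, Measurable (fun h => {h | h ∈ S l x ∧
      C x h = C x g ∧ C' x h⁻¹ = C' x (h⁻¹ * g)}.indicator (fun h => f h * ξ (h⁻¹ * g)) h) :=
      fun l x => (hjoint l x).comp (measurable_const.prodMk measurable_id)
    rw [lintegral_tsum (fun l => (Finset.measurable_sum _ fun x _ => hmm l x).aemeasurable)]
    apply le_of_eq
    congr 1
    ext l
    rw [lintegral_finsetSum _ (fun x _ => hmm l x)]
  have hsq : ∀ g, (∫⁻ h, f h * ξ (h⁻¹ * g) ∂μ) ^ 2 ≤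
      Theta * ∑' l : ℕ, (1 + l : ℝ≥0∞) ^ 2 * ((Box l).card * ∑ x ∈ Box l, P l x g ^ 2) := by
    intro g
    calc (∫⁻ h, f h * ξ (h⁻¹ * g) ∂μ) ^ 2 ≤ (∑' l : ℕ, ∑ x ∈ Box l, P l x g) ^ 2 := by
          gcongr; exact hF g
      _ ≤ Theta * ∑' l : ℕ, (1 + l : ℝ≥0∞) ^ 2 * (∑ x ∈ Box l, P l x g) ^ 2 := tsum_sq_le _
      _ ≤ _ := by
          gcongr with l
          exact sum_sq_le _ _
  have hpart : ∀ l x, ∫⁻ g, P l x g ^ 2 ∂μ ≤
      M * (∫⁻ h in L ⁻¹' {l}, f h ^ 2 ∂μ) * ∫⁻ k, ξ k ^ 2 ∂μ := by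
    intro l x
    refine (part_bound (hSm l x) (hC x) (hC' x) (M := M) ?_ hf hξ).trans ?_
    · intro c w
      refine (measure_mono ?_).trans (hM x c w)
      rintro h ⟨⟨_, h1⟩, h2⟩
      exact ⟨h1, h2⟩
    · gcongr
      exact Set.inter_subset_left
  calc ∫⁻ g, (∫⁻ h, f h * ξ (h⁻¹ * g) ∂μ) ^ 2 ∂μ
      ≤ ∫⁻ g, Theta * ∑' l : ℕ, (1 + l : ℝ≥0∞) ^ 2 *
          ((Box l).card * ∑ x ∈ Box l, P l x g ^ 2) ∂μ := lintegral_mono hsq
    _ = Theta * ∑' l : ℕ, (1 + l : ℝ≥0∞) ^ 2 *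
          ((Box l).card * ∑ x ∈ Box l, ∫⁻ g, P l x g ^ 2 ∂μ) := by
        have hPm2 : ∀ l, Measurable (fun g => ∑ x ∈ Box l, P l x g ^ 2) := fun l =>
          Finset.measurable_sum _ fun x _ => (hPm l x).pow_const 2
        rw [lintegral_const_mul _ (Measurable.tsum fun l =>
          ((hPm2 l).const_mul _).const_mul _),
          lintegral_tsum (fun l => (((hPm2 l).const_mul _).const_mul _).aemeasurable)]
        congr 2
        ext l
        rw [lintegral_const_mul _ ((hPm2 l).const_mul _), lintegral_const_mul _ (hPm2 l),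
          lintegral_finsetSum _ (fun x _ => (hPm l x).pow_const 2)]
    _ ≤ Theta * ∑' l : ℕ, (1 + l : ℝ≥0∞) ^ 2 *
          ((Box l).card * ∑ x ∈ Box l, M * (∫⁻ h in L ⁻¹' {l}, f h ^ 2 ∂μ) *
            ∫⁻ k, ξ k ^ 2 ∂μ) := by
        gcongr with l x
        exact hpart l x
    _ = Theta * M * (∑' l : ℕ, ∫⁻ h in L ⁻¹' {l}, f h ^ 2 *
          ((1 + L h : ℝ≥0∞) ^ 2 * ((Box (L h)).card : ℝ≥0∞) ^ 2) ∂μ) *
            ∫⁻ k, ξ k ^ 2 ∂μ := by
        rw [mul_assoc, mul_assoc]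
        congr 1
        rw [← ENNReal.tsum_mul_right, ← ENNReal.tsum_mul_left]
        congr 1
        ext l
        have h1 : ∫⁻ h in L ⁻¹' {l}, f h ^ 2 *
            ((1 + L h : ℝ≥0∞) ^ 2 * ((Box (L h)).card : ℝ≥0∞) ^ 2) ∂μ =
            (∫⁻ h in L ⁻¹' {l}, f h ^ 2 ∂μ) *
              ((1 + l : ℝ≥0∞) ^ 2 * ((Box l).card : ℝ≥0∞) ^ 2) := by
          rw [← lintegral_mul_const _ (hf.pow_const 2)]
          apply setLIntegral_congr_fun (hL (measurableSet_singleton l))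
          intro h hh
          have : L h = l := hh
          simp only [this]
        rw [h1, Finset.sum_const, nsmul_eq_mul]
        ring
    _ = _ := by
        congr 2
        rw [← lintegral_iUnion (fun l => hL (measurableSet_singleton l))]
        · have : (⋃ l, L ⁻¹' {l}) = Set.univ := by
            ext h; simp
          rw [this, setLIntegral_univ]
        · intro i j hij
          exact Disjoint.preimage L (by simpa using hij)

end Main

end Pool.Agent.Helper509.RD
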