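import Pool.Agent.Helper509.RD.Meas
import Pool.Agent.Helper509.RD.HS

open Monoid Topology MeasureTheory
open scoped Pointwise ENNReal

namespace Pool.Agent.Helper509.RD

/-- the discrete data of an element -/
def disc (g : GG) : F × N × A := (g.right.right.right, g.right.left, g.left)

lemma lc_disc : IsLocallyConstant disc := by
  have h1 : IsLocallyConstant (fun g : GG => g.right.right.right) :=
    lc_of_cont (continuous_right.comp cont_rr)
  exact h1.comp₂ (lc_rl.comp₂ lc_left Prod.mk) Prod.mk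

/-- normalised `A`-part -/
noncomputable def be (i : ℕ) (d : F × N × A) : A := NA (FG.pre i d.2.1)⁻¹ d.2.2

/-- the type of centres -/
abbrev TC : Type := F × N × A × Option Ix

instance : MeasurableSpace TC := ⊤

/-- centres -/
noncomputable def Cf (i : ℕ × ℕ × ℕ) (b : Bool) (d : F × N × A) : TC :=
  (FG.pre i.1 d.1, FG.pre i.2.1 d.2.1, CP.pre i.2.2 (be i.2.1 d),
    if b then CP.idx i.2.2 (be i.2.1 d) else none)

/-- parameters -/
abbrev Lam : Type := (ℕ × ℕ × ℕ) × (ℕ × ℕ × ℕ) × Option (Option ℤ)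

/-- the kind condition -/
def kindOK (i j : ℕ) (a : A) : Option (Option ℤ) → Prop
  | none => i + j = (CP.nf a).length
  | some none => i + 1 + j = (CP.nf a).length ∧
      ∃ (y : Y) (q : Mf (.inr y)), (CP.nf a)[i]? = some ⟨.inr y, q⟩
  | some (some m) => i + 1 + j = (CP.nf a).length ∧
      ∃ E : Finset S, (CP.nf a)[i]? = some ⟨.inl E, (Multiplicative.ofAdd m : Multiplicative ℤ)⟩

/-- the good set -/
def good (x : Lam) : Set GG := {h | x.1.1 + x.2.1.1 = (disc h).1.norm ∧
  x.1.2.1 + x.2.1.2.1 = (disc h).2.1.norm ∧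
    kindOK x.1.2.2 x.2.1.2.2 (be x.1.2.1 (disc h)) x.2.2}

lemma isOpen_good (x : Lam) : IsOpen (good x) :=
  lc_disc {d | x.1.1 + x.2.1.1 = d.1.norm ∧ x.1.2.1 + x.2.1.2.1 = d.2.1.norm ∧
    kindOK x.1.2.2 x.2.1.2.2 (be x.1.2.1 d) x.2.2}

lemma measurable_Cf (i : ℕ × ℕ × ℕ) (b : Bool) : Measurable (fun g : GG => Cf i b (disc g)) := by
  intro s _
  exact (lc_disc ((Cf i b) ⁻¹' s)).measurableSet

lemma Psi_cancel (κ : J) (ν : N) : Psi κ⁻¹ (Psi κ ν) = ν := by
  rw [← MulAut.mul_apply, ← map_mul, inv_mul_cancel, map_one]; rfl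
lemma Psi_cancel' (κ : J) (ν : N) : Psi κ (Psi κ⁻¹ ν) = ν := by
  rw [← MulAut.mul_apply, ← map_mul, mul_inv_cancel, map_one]; rfl
lemma JA_cancel (κ : J) (a : A) : JA κ⁻¹ (JA κ a) = a := by
  rw [← MulAut.mul_apply, ← map_mul, inv_mul_cancel, map_one]; rfl
lemma JA_cancel' (κ : J) (a : A) : JA κ (JA κ⁻¹ a) = a := by
  rw [← MulAut.mul_apply, ← map_mul, mul_inv_cancel, map_one]; rfl
lemma NA_cancel (ν : N) (a : A) : NA ν⁻¹ (NA ν a) = a := by
  rw [← MulAut.mul_apply, ← map_mul, inv_mul_cancel, map_one]; rfl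
lemma NA_cancel' (ν : N) (a : A) : NA ν (NA ν⁻¹ a) = a := by
  rw [← MulAut.mul_apply, ← map_mul, mul_inv_cancel, map_one]; rfl
lemma NA_mul (ν ν' : N) (a : A) : NA (ν * ν') a = NA ν (NA ν' a) := by
  rw [map_mul]; rfl

lemma inv_rrr (h : GG) : (h⁻¹).right.right.right = (h.right.right.right)⁻¹ := rfl
lemma inv_rr (h : GG) : (h⁻¹).right.right = (h.right.right)⁻¹ := rfl
lemma inv_rl (h : GG) : (h⁻¹).right.left = Psi (h.right.right)⁻¹ (h.right.left)⁻¹ := rfl
lemma inv_l (h : GG) : (h⁻¹).left = JA (h.right.right)⁻¹ (NA (h.right.left)⁻¹ (h.left)⁻¹) := by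
  have h1 : (h⁻¹).left = NA (h⁻¹).right.left (JA (h⁻¹).right.right (h.left)⁻¹) := rfl
  rw [h1, inv_rr, inv_rl, NA_Psi_apply]

/-- the key identity for inverses -/
lemma be_inv {i j : ℕ} {h : GG} (hij : i + j = h.right.left.norm) :
    be j (disc h⁻¹) = JA (h.right.right)⁻¹ (be i (disc h))⁻¹ := by
  unfold be disc
  simp only
  rw [inv_rl, inv_l, pre_Psi, FG.pre_inv hij, ← map_inv (Psi (h.right.right)⁻¹), NA_Psi_apply]
  congr 1
  rw [← NA_mul, map_inv]
  congr 2
  group

lemma be_mul {i j : ℕ} {h k : GG} (hij : i + j = h.right.left.norm)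
    (h1 : FG.pre i h.right.left = FG.pre i (h.right.left * Psi h.right.right k.right.left))
    (h2 : FG.pre j (h.right.left)⁻¹ = FG.pre j (Psi h.right.right k.right.left)) :
    be i (disc (h * k)) = be i (disc h) * JA h.right.right (be j (disc k)) := by
  unfold be disc
  simp only
  have e1 : (h * k).right.left = h.right.left * Psi h.right.right k.right.left := rfl
  have e2 : (h * k).left = h.left * NA h.right.left (JA h.right.right k.left) := rfl
  rw [e1, e2, ← h1, map_mul, ← NA_mul]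
  congr 1
  have e3 : (FG.pre i h.right.left)⁻¹ * h.right.left =
      Psi h.right.right (FG.pre j k.right.left)⁻¹ := by
    rw [map_inv, ← pre_Psi, ← h2, FG.pre_inv hij]
    group
  rw [e3, NA_Psi_apply]

/-- lengths after normalisation -/
lemma be_len (i : ℕ) (h : GG) : wA (be i (disc h)) ≤ (Len h + 1) ^ 3 := by
  obtain ⟨_, h2, h3⟩ := bounds_Len h
  unfold be disc
  simp only
  refine (wA_NA _ _).trans ?_
  rw [FreeGroup.norm_inv_eq]
  have h4 := FG.pre_norm_le i h.right.left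
  calc ((FG.pre i h.right.left).norm + 1) * wA h.left ≤ (Len h + 1) * (Len h * (Len h + 1)) := by
        apply Nat.mul_le_mul
        · omega
        · exact h3
    _ ≤ (Len h + 1) ^ 3 := by nlinarith

/-- the finite set of parameters -/
noncomputable def BX (l : ℕ) : Finset Lam :=
  let R := Finset.range ((l + 1) ^ 3 + 1)
  (R ×ˢ R ×ˢ R) ×ˢ (R ×ˢ R ×ˢ R) ×ˢ
    Finset.insertNone (Finset.insertNone (Finset.Icc (-((l + 1) ^ 3 : ℕ) : ℤ) ((l + 1) ^ 3 : ℕ)))

lemma mem_BX {l : ℕ} {x : Lam} (h1 : x.1.1 ≤ (l + 1) ^ 3) (h2 : x.1.2.1 ≤ (l + 1) ^ 3)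
    (h3 : x.1.2.2 ≤ (l + 1) ^ 3) (h4 : x.2.1.1 ≤ (l + 1) ^ 3) (h5 : x.2.1.2.1 ≤ (l + 1) ^ 3)
    (h6 : x.2.1.2.2 ≤ (l + 1) ^ 3)
    (h7 : ∀ m, x.2.2 = some (some m) → m.natAbs ≤ (l + 1) ^ 3) : x ∈ BX l := by
  unfold BX
  simp only [Finset.mem_product, Finset.mem_range, Finset.mem_insertNone]
  refine ⟨⟨?_, ?_, ?_⟩, ⟨?_, ?_, ?_⟩, ?_⟩
  · omega
  · omega
  · omega
  · omega
  · omega
  · omega
  · intro a ha b hb
    rw [Finset.mem_Icc]
    have := h7 b (by rw [ha, hb])
    generalize (l + 1) ^ 3 = B at *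
    omega

lemma card_BX (l : ℕ) : (BX l).card ≤ 320 * (l + 1) ^ 21 := by
  unfold BX
  simp only [Finset.card_product, Finset.card_range, Finset.card_insertNone, Int.card_Icc]
  have h0 : 1 ≤ (l + 1) ^ 3 := Nat.one_le_pow _ _ (by omega)
  have h1 : (l + 1) ^ 21 = ((l + 1) ^ 3) ^ 7 := by rw [← pow_mul]
  rw [h1]
  generalize (l + 1) ^ 3 = B at *
  have h2 : ((B : ℤ) + 1 - -(B : ℤ)).toNat = 2 * B + 1 := by omega
  rw [h2]
  have h3 : (B + 1) * ((B + 1) * (B + 1)) ≤ (2 * B) * ((2 * B) * (2 * B)) := by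
    gcongr <;> omega
  have h4 : 2 * B + 1 + 1 + 1 ≤ 5 * B := by omega
  calc (B + 1) * ((B + 1) * (B + 1)) * ((B + 1) * ((B + 1) * (B + 1)) * (2 * B + 1 + 1 + 1))
      ≤ (2 * B) * ((2 * B) * (2 * B)) * ((2 * B) * ((2 * B) * (2 * B)) * (5 * B)) := by
        gcongr
    _ = 320 * B ^ 7 := by ring

lemma natAbs_le_wA {a : A} {i : ℕ} {E : Finset S} {m : ℤ}
    (h : (CP.nf a)[i]? = some ⟨.inl E, (Multiplicative.ofAdd m : Multiplicative ℤ)⟩) :
    m.natAbs ≤ wA a := by
  have h1 := CP.le_wt (w := w) (List.mem_of_getElem? h)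
  exact h1

theorem coverage (h k : GG) : ∃ x ∈ BX (Len h), h ∈ good x ∧
    Cf x.1 x.2.2.isSome (disc h) = Cf x.1 x.2.2.isSome (disc (h * k)) ∧
    Cf x.2.1 x.2.2.isSome (disc h⁻¹) = Cf x.2.1 x.2.2.isSome (disc k) := by
  obtain ⟨b1, b2, _⟩ := bounds_Len h
  obtain ⟨i1, j1, f1, f2, f3⟩ := FG.tripod h.right.right.right k.right.right.right
  obtain ⟨i2, j2, n1, n2, n3⟩ := FG.tripod h.right.left (Psi h.right.right k.right.left)
  obtain ⟨i3, j3, a1, a2, a3⟩ := CP.tripod (be i2 (disc h)) (JA h.right.right (be j2 (disc k)))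
  have b3 : (CP.nf (be i2 (disc h))).length ≤ (Len h + 1) ^ 3 :=
    (CP.length_le_wt w_pos _).trans (be_len i2 h)
  have b4 : Len h ≤ (Len h + 1) ^ 3 := by
    calc Len h ≤ Len h + 1 := by omega
      _ ≤ (Len h + 1) ^ 3 := Nat.le_self_pow (by omega) _
  rw [← be_mul n1 n2 n3] at a1
  have n4 : FG.pre j2 (h⁻¹).right.left = FG.pre j2 k.right.left := by
    rw [inv_rl, pre_Psi, n3, pre_Psi, Psi_cancel]
  have a4 : CP.pre j3 (be j2 (disc h⁻¹)) = CP.pre j3 (be j2 (disc k)) := by
    rw [be_inv n1, pre_JA, a2, pre_JA, JA_cancel]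
  have e1 : (h * k).right.right.right = h.right.right.right * k.right.right.right := rfl
  have e2 : (h * k).right.left = h.right.left * Psi h.right.right k.right.left := rfl
  rcases a3 with a3 | ⟨a3, x, c1, c2, c3, c4⟩
  · refine ⟨((i1, i2, i3), (j1, j2, j3), none), ?_, ?_, ?_, ?_⟩
    · apply mem_BX <;> simp only
      · omega
      · omega
      · omega
      · omega
      · omega
      · omega
      · intro m hm; exact absurd hm (by simp)
    · exact ⟨f1, n1, a3⟩
    · unfold Cf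
      simp only [Option.isSome_none, Bool.false_eq_true, if_false, Prod.mk.injEq, and_true]
      refine ⟨?_, ?_, a1⟩
      · change FG.pre i1 h.right.right.right = FG.pre i1 (h * k).right.right.right
        rw [e1]; exact f2
      · change FG.pre i2 h.right.left = FG.pre i2 (h * k).right.left
        rw [e2]; exact n2
    · unfold Cf
      simp only [Option.isSome_none, Bool.false_eq_true, if_false, Prod.mk.injEq, and_true]
      refine ⟨?_, ?_, a4⟩
      · change FG.pre j1 (h⁻¹).right.right.right = FG.pre j1 k.right.right.right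
        rw [inv_rrr]; exact f3
      · exact n4
  · rw [← be_mul n1 n2 n3] at c2
    have c5 : CP.idx j3 (be j2 (disc h⁻¹)) = CP.idx j3 (be j2 (disc k)) := by
      have : be j2 (disc k) = JA (h.right.right)⁻¹ (JA h.right.right (be j2 (disc k))) := by
        rw [JA_cancel]
      rw [be_inv n1, this, idx_JA, idx_JA, c3, c4]
    have c6 : ∃ s, (CP.nf (be i2 (disc h)))[i3]? = some s ∧ s.1 = x := by
      unfold CP.idx at c1
      rw [Option.map_eq_some_iff] at c1
      exact c1
    obtain ⟨s, hs, _⟩ := c6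
    have key : ∃ kd : Option ℤ, kindOK i3 j3 (be i2 (disc h)) (some kd) ∧
        (∀ m, kd = some m → m.natAbs ≤ (Len h + 1) ^ 3) := by
      rcases s with ⟨E | y, m⟩
      · refine ⟨some (Multiplicative.toAdd (show Multiplicative ℤ from m)), ⟨a3, E, hs⟩, ?_⟩
        intro m' hm'
        rw [Option.some.injEq] at hm'
        rw [← hm']
        exact (natAbs_le_wA hs).trans (be_len i2 h)
      · exact ⟨none, ⟨a3, y, m, hs⟩, fun m hm => absurd hm (by simp)⟩
    obtain ⟨kd, hkd, hkd2⟩ := key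
    refine ⟨((i1, i2, i3), (j1, j2, j3), some kd), ?_, ?_, ?_, ?_⟩
    · apply mem_BX <;> simp only
      · omega
      · omega
      · omega
      · omega
      · omega
      · omega
      · intro m hm
        rw [Option.some.injEq] at hm
        exact hkd2 m hm
    · exact ⟨f1, n1, hkd⟩
    · unfold Cf
      simp only [Option.isSome_some, if_true, Prod.mk.injEq]
      refine ⟨?_, ?_, a1, c1.trans c2.symm⟩
      · change FG.pre i1 h.right.right.right = FG.pre i1 (h * k).right.right.right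
        rw [e1]; exact f2
      · change FG.pre i2 h.right.left = FG.pre i2 (h * k).right.left
        rw [e2]; exact n2
    · unfold Cf
      simp only [Option.isSome_some, if_true, Prod.mk.injEq]
      refine ⟨?_, ?_, a4, c5⟩
      · change FG.pre j1 (h⁻¹).right.right.right = FG.pre j1 k.right.right.right
        rw [inv_rrr]; exact f3
      · exact n4

end Pool.Agent.Helper509.RD
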