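import Pool.Agent.Helper509.RD.Trans

open Monoid Topology
open scoped Pointwise

namespace Pool.Agent.Helper509.RD

instance topFG {α : Type*} : TopologicalSpace (FreeGroup α) := ⊥
instance discFG {α : Type*} : DiscreteTopology (FreeGroup α) := ⟨rfl⟩
instance topA : TopologicalSpace A := ⊥
instance discA : DiscreteTopology A := ⟨rfl⟩

instance countA : Countable A := by
  have : Function.Injective (fun a : A => CP.nf a) := by
    intro a b h
    have h' : CP.nf a = CP.nf b := h
    rw [← CP.prodL_nf a, ← CP.prodL_nf b, h']
  exact this.countable

lemma lc_dep {X Z W : Type*} [TopologicalSpace X] {g : X → Z} (hg : IsLocallyConstant g)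
    {h : Z → X → W} (hh : ∀ z, IsLocallyConstant (h z)) :
    IsLocallyConstant (fun x => h (g x) x) := by
  rw [IsLocallyConstant.iff_eventually_eq] at hg ⊢
  intro x
  have h1 := hg x
  have h2 := (IsLocallyConstant.iff_eventually_eq _).mp (hh (g x)) x
  filter_upwards [h1, h2] with y hy hy'
  rw [hy, hy']

lemma lc_of_cont {X Z : Type*} [TopologicalSpace X] [TopologicalSpace Z] [DiscreteTopology Z]
    {g : X → Z} (hg : Continuous g) : IsLocallyConstant g :=
  (IsLocallyConstant.iff_continuous g).mpr hg

lemma continuous_phi (f : F) : Continuous (phi f) := by
  induction f using FreeGroup.induction_on with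
  | C1 => rw [map_one]; exact continuous_id
  | of b =>
    cases b
    · simp only [phi, FreeGroup.lift_apply_of, Bool.false_eq_true, if_false]
      have : Continuous (fun e : E0 => ((fun j => e.1 (j - 1), e.2) : E0)) := by fun_prop
      exact this
    · simp only [phi, FreeGroup.lift_apply_of, if_true]
      have : Continuous (fun e : E0 => ((e.1 + e.2, e.2) : E0)) := by fun_prop
      exact this
  | inv_of b ih =>
    cases b
    · rw [map_inv]
      simp only [phi, FreeGroup.lift_apply_of, Bool.false_eq_true, if_false]
      have : Continuous (fun e : E0 => ((fun j => e.1 (j + 1), e.2) : E0)) := by fun_prop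
      exact this
    · rw [map_inv]
      simp only [phi, FreeGroup.lift_apply_of, if_true]
      have : Continuous (fun e : E0 => ((e.1 + e.2, e.2) : E0)) := by fun_prop
      exact this
  | mul f g hf hg =>
    rw [map_mul]
    exact hf.comp hg

lemma continuous_phi2 : Continuous (fun p : F × K => phi p.1 p.2) := by
  rw [continuous_prod_of_discrete_left]
  exact continuous_phi

instance : IsTopologicalGroup J := isTopologicalGroup_semi continuous_phi2

lemma continuous_add : Continuous (add : K → E0) := continuous_id

lemma lc_right : IsLocallyConstant (fun κ : J => κ.right) := lc_of_cont continuous_right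

lemma lc_eps (o : O) : IsLocallyConstant (fun κ : J => eps (add κ.left) o) := by
  apply lc_of_cont
  unfold eps
  have h1 : Continuous (fun κ : J => add κ.left) := continuous_add.comp continuous_left
  have h2 : Continuous (fun κ : J => (add κ.left).1) := continuous_fst.comp h1
  have h3 : Continuous (fun κ : J => (add κ.left).2) := continuous_snd.comp h1
  refine ((continuous_apply _).comp h2).add ?_
  exact continuous_finsetSum _ fun i _ => (continuous_apply i).comp h3

lemma lc_smulS (s : S) : IsLocallyConstant (fun κ : J => κ • s) := by
  have h1 : IsLocallyConstant (fun κ : J => eps (add κ.left) (FO κ.right s.1)) :=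
    lc_dep (h := fun f (κ : J) => eps (add κ.left) (FO f s.1)) lc_right (fun f => lc_eps _)
  exact lc_right.comp₂ h1 (fun f e => (FO f s.1, s.2 + e))

lemma lc_smulE (E : Finset S) : IsLocallyConstant (fun κ : J => κ • E) := by
  induction E using Finset.induction_on with
  | empty => simp only [Finset.smul_finset_empty]; exact IsLocallyConstant.const _
  | insert s E _ ih =>
    simp only [Finset.smul_finset_insert]
    exact (lc_smulS s).comp₂ ih insert

lemma lc_Psi (ν : N) : IsLocallyConstant (fun κ : J => Psi κ ν) := by
  induction ν using FreeGroup.induction_on with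
  | C1 => simp only [map_one]; exact IsLocallyConstant.const _
  | of x =>
    simp only [Psi_of]
    exact (lc_smulS x.1).comp (fun s => FreeGroup.of (s, x.2))
  | inv_of x _ =>
    simp only [map_inv, Psi_of]
    exact (lc_smulS x.1).comp (fun s => (FreeGroup.of (s, x.2))⁻¹)
  | mul a b ha hb =>
    simp only [map_mul]
    exact ha.comp₂ hb (· * ·)

lemma lc_y (n : ℕ) : IsLocallyConstant (fun κ : J => (fun i : Fin n => (add κ.left).2 ((i : ℕ) : ℤ))) := by
  apply lc_of_cont
  have h1 : Continuous (fun κ : J => (add κ.left).2) :=
    continuous_snd.comp (continuous_add.comp continuous_left)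
  exact continuous_pi fun i => (continuous_apply _).comp h1

lemma lc_JA (a : A) : IsLocallyConstant (fun κ : J => JA κ a) := by
  refine A_induction (P := fun a => IsLocallyConstant (fun κ : J => JA κ a)) a ?_ ?_ ?_ ?_
  · simp only [map_one]; exact IsLocallyConstant.const _
  · intro E m
    simp only [JA_cHom]
    exact (lc_smulE E).comp (fun E => cHom E m)
  · rintro ⟨n, y⟩ q
    simp only [JA_pY]
    exact (lc_y n).comp (fun v => pY ⟨n, fun i => y i + v i⟩ q)
  · intro a b ha hb
    simp only [map_mul]
    exact ha.comp₂ hb (· * ·)

lemma continuous_Psi2 : Continuous (fun p : J × N => Psi p.1 p.2) := by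
  rw [continuous_prod_of_discrete_right]
  exact fun ν => (lc_Psi ν).continuous

instance : IsTopologicalGroup NJ := isTopologicalGroup_semi continuous_Psi2

lemma continuous_Phi2 : Continuous (fun p : NJ × A => Phi p.1 p.2) := by
  rw [continuous_prod_of_discrete_right]
  intro a
  simp only [Phi_apply]
  have h1 : IsLocallyConstant (fun x : NJ => x.left) := lc_of_cont continuous_left
  have h2 : IsLocallyConstant (fun x : NJ => JA x.right a) :=
    (lc_JA a).comp_continuous continuous_right
  exact (h1.comp₂ h2 (fun ν b => NA ν b)).continuous

instance : IsTopologicalGroup GG := isTopologicalGroup_semi continuous_Phi2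

instance : LocallyCompactSpace K := inferInstanceAs (LocallyCompactSpace E0)
instance : CompactSpace K := inferInstanceAs (CompactSpace E0)
instance : T2Space K := inferInstanceAs (T2Space E0)
instance : SecondCountableTopology K := inferInstanceAs (SecondCountableTopology E0)

instance : LocallyCompactSpace GG := inferInstance
instance : T2Space GG := inferInstance
instance : SecondCountableTopology GG := inferInstance
instance : SigmaCompactSpace GG := inferInstance

noncomputable instance : MeasurableSpace GG := borel GG
instance : BorelSpace GG := ⟨rfl⟩

end Pool.Agent.Helper509.RD
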