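import Pool.Agent.Helper509.RD.Weight
import Pool.Agent.Helper509.RD.GTop

open Monoid Topology
open scoped Pointwise

namespace Pool.Agent.Helper509.RD

/-! special finite sets -/

/-- encoding of a bit -/
def aux (b : ZMod 2) : ℤ := if b = 1 then -1 else -2

lemma aux_neg (b : ZMod 2) : aux b < 0 := by unfold aux; split_ifs <;> norm_num

lemma aux_eq (b : ZMod 2) : aux b = -1 ↔ b = 1 := by
  unfold aux; split_ifs with h <;> simp [h]

/-- the special set -/
def EE (n : ℕ) (y q : Fin n → ZMod 2) : Finset S :=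
  Finset.univ.image (fun i : Fin n => ((((0 : ℤ), ({((i : ℕ) : ℤ)} : Finset ℤ)), y i) : S)) ∪
  Finset.univ.image (fun p : Fin n × ZMod 2 =>
    ((((0 : ℤ), ({aux (q p.1), ((p.1 : ℕ) : ℤ)} : Finset ℤ)), p.2) : S))

lemma pair_eq {a a' : ℤ} (ha : a < 0) (ha' : a' < 0) {i i' : ℕ}
    (h : ({a, (i : ℤ)} : Finset ℤ) = {a', (i' : ℤ)}) : a = a' ∧ i = i' := by
  have h1 : a ∈ ({a', (i' : ℤ)} : Finset ℤ) := by rw [← h]; simp
  have h2 : (i : ℤ) ∈ ({a', (i' : ℤ)} : Finset ℤ) := by rw [← h]; simp
  simp only [Finset.mem_insert, Finset.mem_singleton] at h1 h2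
  constructor
  · rcases h1 with h1 | h1
    · exact h1
    · omega
  · rcases h2 with h2 | h2
    · omega
    · exact_mod_cast h2

lemma single_ne_pair {a : ℤ} (ha : a < 0) {i i' : ℕ} :
    ({(i : ℤ)} : Finset ℤ) ≠ {a, (i' : ℤ)} := by
  intro h
  have h1 : a ∈ ({(i : ℤ)} : Finset ℤ) := by rw [h]; simp
  simp only [Finset.mem_singleton] at h1
  omega

lemma card_EE (n : ℕ) (y q : Fin n → ZMod 2) : (EE n y q).card = 3 * n := by
  unfold EE
  rw [Finset.card_union_of_disjoint, Finset.card_image_of_injective,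
    Finset.card_image_of_injective]
  · simp; ring
  · rintro ⟨i, b⟩ ⟨i', b'⟩ h
    simp only [Prod.mk.injEq, true_and] at h
    obtain ⟨h1, h2⟩ := h
    have := (pair_eq (aux_neg _) (aux_neg _) h1).2
    rw [h2, Fin.ext this]
  · intro i i' h
    simp only [Prod.mk.injEq, Finset.singleton_inj, Nat.cast_inj, true_and] at h
    exact Fin.ext h.1
  · rw [Finset.disjoint_left]
    intro x hx hx'
    rw [Finset.mem_image] at hx hx'
    obtain ⟨i, _, rfl⟩ := hx
    obtain ⟨p, _, hp⟩ := hx'
    simp only [Prod.mk.injEq, true_and] at hp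
    exact single_ne_pair (aux_neg _) hp.1.symm

lemma mem_EE_single {n : ℕ} {y q : Fin n → ZMod 2} (i : ℕ) (hi : i < n) (b : ZMod 2) :
    ((((0 : ℤ), ({(i : ℤ)} : Finset ℤ)), b) : S) ∈ EE n y q ↔ b = y ⟨i, hi⟩ := by
  unfold EE
  rw [Finset.mem_union, Finset.mem_image, Finset.mem_image]
  constructor
  · rintro (⟨i', _, h⟩ | ⟨p, _, h⟩)
    · simp only [Prod.mk.injEq, Finset.singleton_inj, Nat.cast_inj, true_and] at h
      rw [← h.2]
      congr 1
      exact Fin.ext h.1
    · simp only [Prod.mk.injEq, true_and] at h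
      exact absurd h.1.symm (single_ne_pair (aux_neg _))
  · intro h
    left
    exact ⟨⟨i, hi⟩, Finset.mem_univ _, by simp [h]⟩

lemma mem_EE_pair {n : ℕ} {y q : Fin n → ZMod 2} (i : ℕ) (hi : i < n) (b : ZMod 2) :
    ((((0 : ℤ), ({-1, (i : ℤ)} : Finset ℤ)), b) : S) ∈ EE n y q ↔ q ⟨i, hi⟩ = 1 := by
  unfold EE
  rw [Finset.mem_union, Finset.mem_image, Finset.mem_image]
  constructor
  · rintro (⟨i', _, h⟩ | ⟨p, _, h⟩)
    · simp only [Prod.mk.injEq, true_and] at h
      exact absurd h.1 (single_ne_pair (by norm_num))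
    · simp only [Prod.mk.injEq, true_and] at h
      have h1 := pair_eq (aux_neg _) (by norm_num) h.1
      rw [aux_eq] at h1
      rw [← h1.1]
      congr 1
      exact Fin.ext h1.2.symm
  · intro h
    right
    refine ⟨(⟨i, hi⟩, b), Finset.mem_univ _, ?_⟩
    simp only [Prod.mk.injEq, true_and, and_true]
    rw [h]
    simp [aux]

/-- base letter -/
def s0 : S := (((0 : ℤ), (∅ : Finset ℤ)), 0)

lemma pos_s0 (D : Finset ℤ) : pos s0.1 D = ((0 : ℤ), D) := by
  unfold pos s0
  simp

lemma pp_EE (n : ℕ) (y q : Fin n → ZMod 2) : pp s0 (EE n y q) = pY ⟨n, y⟩ q := by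
  have hc : (EE n y q).card / 3 = n := by rw [card_EE]; omega
  have h1 : cond s0 (EE n y q) := by
    intro i hi
    rw [hc] at hi
    rw [pos_s0]
    unfold one'
    rw [mem_EE_single i hi, mem_EE_single i hi]
    rcases z2_cases (y ⟨i, hi⟩) with h | h <;> rw [h] <;> simp
  unfold pp
  rw [if_pos h1]
  refine pY_congr2 hc ?_ ?_
  · intro i hi hi'
    simp only
    rw [pos_s0]
    unfold bit
    simp only [mem_EE_single i hi']
    have : s0.2 = 0 := rfl
    rw [this, zero_add]
    rcases z2_cases (y ⟨i, hi'⟩) with h | h <;> rw [h] <;> simp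
  · intro i hi hi'
    simp only
    rw [pos_s0]
    unfold full
    simp only [mem_EE_pair i hi', and_self]
    rcases z2_cases (q ⟨i, hi'⟩) with h | h <;> rw [h] <;> simp

/-! embeddings -/

/-- embedding of `A` -/
noncomputable def gA : A →* GG := SemidirectProduct.inl
/-- embedding of `N ⋊ J` -/
noncomputable def gNJ : NJ →* GG := SemidirectProduct.inr
/-- embedding of `N` -/
noncomputable def gN : N →* GG := gNJ.comp SemidirectProduct.inl
/-- embedding of `J` -/
noncomputable def gJ : J →* GG := gNJ.comp SemidirectProduct.inr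
/-- embedding of `K` -/
noncomputable def gK : K →* GG := gJ.comp SemidirectProduct.inl
/-- embedding of `F` -/
noncomputable def gF : F →* GG := gJ.comp SemidirectProduct.inr

lemma gA_Phi (x : NJ) (a : A) : gA (Phi x a) = gNJ x * gA a * (gNJ x)⁻¹ := by
  unfold gA gNJ
  rw [← map_inv]; exact SemidirectProduct.inl_aut x a

lemma gN_Psi (κ : J) (ν : N) : gN (Psi κ ν) = gJ κ * gN ν * (gJ κ)⁻¹ := by
  unfold gN gJ
  simp only [MonoidHom.comp_apply]
  rw [← map_inv, ← map_inv, ← map_mul, ← map_mul]
  congr 1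
  exact SemidirectProduct.inl_aut κ ν

/-- finite set of letters -/
def LL : Set GG := {gF (FreeGroup.of true), gF (FreeGroup.of false),
  gN (FreeGroup.of (s0, true)), gN (FreeGroup.of (s0, false)), gA (cc ∅)}

/-- symmetric compact generating set -/
def TT : Set GG := Set.range gK ∪ (LL ∪ LL⁻¹)

section gen

variable (C : Subgroup GG) (hC : TT ⊆ C)
include hC

lemma mem_K (k : K) : gK k ∈ C := hC (Or.inl ⟨k, rfl⟩)

lemma mem_F (f : F) : gF f ∈ C := by
  induction f using FreeGroup.induction_on with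
  | C1 => rw [map_one]; exact one_mem _
  | of b =>
    apply hC
    right; left
    cases b
    · right; left; rfl
    · left; rfl
  | inv_of b ih => rw [map_inv]; exact inv_mem ih
  | mul f g hf hg => rw [map_mul]; exact mul_mem hf hg

lemma mem_J (κ : J) : gJ κ ∈ C := by
  have : gJ κ = gK κ.left * gF κ.right := by
    unfold gK gF
    simp only [MonoidHom.comp_apply]
    rw [← map_mul, SemidirectProduct.inl_left_mul_inr_right]
  rw [this]
  exact mul_mem (mem_K C hC _) (mem_F C hC _)

omit hC in
lemma trans_O (T : Finset ℤ) : ∀ j : ℤ, ∃ f : F, FO f ((0 : ℤ), (∅ : Finset ℤ)) = (j, T) := by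
  have ht : ∀ (m : ℤ) (j : ℤ) (T : Finset ℤ), FO (FreeGroup.of false ^ m) (j, T) = (j + m, T) := by
    intro m
    have h1 : ∀ (n : ℕ) (j : ℤ) (T : Finset ℤ),
        FO (FreeGroup.of false ^ n) (j, T) = (j + n, T) := by
      intro n
      induction n with
      | zero => intro j T; simp
      | succ n ih =>
        intro j T
        rw [pow_succ, map_mul, Equiv.Perm.mul_apply]
        have : FO (FreeGroup.of false) (j, T) = (j + 1, T) := by
          simp [FO, tO]
        rw [this, ih]
        push_cast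
        ring_nf
    intro j T
    rcases Int.eq_nat_or_neg m with ⟨n, rfl | rfl⟩
    · rw [zpow_natCast]; exact h1 n j T
    · rw [zpow_neg, zpow_natCast, map_inv, Equiv.Perm.inv_eq_iff_eq, h1]
      ring_nf
  induction T using Finset.induction_on with
  | empty => intro j; exact ⟨FreeGroup.of false ^ j, by rw [ht]; simp⟩
  | insert i T hi ih =>
    intro j
    obtain ⟨f, hf⟩ := ih i
    refine ⟨FreeGroup.of false ^ (j - i) * (FreeGroup.of true * f), ?_⟩
    rw [map_mul, map_mul, Equiv.Perm.mul_apply, Equiv.Perm.mul_apply, hf]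
    have : FO (FreeGroup.of true) (i, T) = (i, insert i T) := by
      simp only [FO, FreeGroup.lift_apply_of, if_true, aO, Equiv.coe_fn_mk, Prod.mk.injEq,
        true_and]
      ext x
      simp only [Finset.mem_symmDiff, Finset.mem_singleton, Finset.mem_insert]
      constructor
      · rintro (⟨h1, h2⟩ | ⟨h1, h2⟩)
        · exact Or.inr h1
        · exact Or.inl h1
      · rintro (h | h)
        · right; subst h; exact ⟨rfl, hi⟩
        · left
          refine ⟨h, ?_⟩
          rintro rfl
          exact hi h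
    rw [this, ht]
    ring_nf

omit hC in
lemma trans_S (s : S) : ∃ κ : J, κ • s0 = s := by
  obtain ⟨⟨j, T⟩, b⟩ := s
  obtain ⟨f, hf⟩ := trans_O T j
  refine ⟨⟨Multiplicative.ofAdd ((fun _ => b, 0) : E0), f⟩, ?_⟩
  rw [smul_S]
  have h1 : s0 = (((0 : ℤ), (∅ : Finset ℤ)), 0) := rfl
  rw [h1]
  simp only
  rw [hf]
  congr 1
  simp [eps, add]

lemma mem_N (ν : N) : gN ν ∈ C := by
  induction ν using FreeGroup.induction_on with
  | C1 => rw [map_one]; exact one_mem _
  | of x =>
    obtain ⟨s, b⟩ := x
    obtain ⟨κ, rfl⟩ := trans_S s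
    have : (FreeGroup.of (κ • s0, b) : N) = Psi κ (FreeGroup.of (s0, b)) := by
      rw [Psi_of]
    rw [this, gN_Psi]
    refine mul_mem (mul_mem (mem_J C hC κ) ?_) (inv_mem (mem_J C hC κ))
    apply hC
    right; left
    cases b
    · right; right; right; left; rfl
    · right; right; left; rfl
  | inv_of b ih => rw [map_inv]; exact inv_mem ih
  | mul f g hf hg => rw [map_mul]; exact mul_mem hf hg

lemma mem_NJ (x : NJ) : gNJ x ∈ C := by
  have : gNJ x = gN x.left * gJ x.right := by
    unfold gN gJ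
    simp only [MonoidHom.comp_apply]
    rw [← map_mul, SemidirectProduct.inl_left_mul_inr_right]
  rw [this]
  exact mul_mem (mem_N C hC _) (mem_J C hC _)

omit hC in
lemma Phi_inl (ν : N) (a : A) : Phi (SemidirectProduct.inl ν) a = NA ν a := by
  rw [Phi_apply]; simp

lemma mem_NA {a : A} (ha : gA a ∈ C) (ν : N) : gA (NA ν a) ∈ C := by
  rw [← Phi_inl, gA_Phi]
  exact mul_mem (mul_mem (mem_NJ C hC _) ha) (inv_mem (mem_NJ C hC _))

lemma mem_cc (E : Finset S) : gA (cc E) ∈ C := by
  induction E using Finset.induction_on with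
  | empty =>
    apply hC
    right; left
    right; right; right; right; rfl
  | insert s E hs ih =>
    have h := mem_NA C hC ih (FreeGroup.of (s, false))
    rw [NA_false, togAut_cc] at h
    have h2 : tog s E = insert s E := by
      change symmDiff E {s} = _
      ext x
      simp only [Finset.mem_symmDiff, Finset.mem_singleton, Finset.mem_insert]
      constructor
      · rintro (⟨h1, h2⟩ | ⟨h1, h2⟩)
        · exact Or.inr h1
        · exact Or.inl h1
      · rintro (h' | h')
        · right; subst h'; exact ⟨rfl, hs⟩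
        · left
          refine ⟨h', ?_⟩
          rintro rfl
          exact hs h'
    rwa [h2] at h

lemma mem_pp (s : S) (E : Finset S) : gA (pp s E) ∈ C := by
  have h := mem_NA C hC (mem_cc C hC E) (FreeGroup.of (s, true))
  rw [NA_true, transAut_cc, map_mul] at h
  exact (Subgroup.mul_mem_cancel_right C (mem_cc C hC E)).mp h

lemma mem_A (a : A) : gA a ∈ C := by
  refine A_induction (P := fun a => gA a ∈ C) a ?_ ?_ ?_ ?_
  · rw [map_one]; exact one_mem _
  · intro E m
    have h1 : cHom E m = cc E ^ (Multiplicative.toAdd m) := by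
      unfold cc
      rw [← map_zpow]
      congr 1
      apply Multiplicative.toAdd.injective
      simp
    rw [h1, map_zpow]
    exact zpow_mem (mem_cc C hC E) _
  · rintro ⟨n, y⟩ q
    rw [← pp_EE n y q]
    exact mem_pp C hC _ _
  · intro a b ha hb
    rw [map_mul]; exact mul_mem ha hb

theorem closure_top : C = ⊤ := by
  rw [eq_top_iff]
  intro g _
  have : g = gA g.left * gNJ g.right := (SemidirectProduct.inl_left_mul_inr_right g).symm
  rw [this]
  exact mul_mem (mem_A C hC _) (mem_NJ C hC _)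

end gen

end Pool.Agent.Helper509.RD
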