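import Pool.Agent.Helper509.RD.Gen

open Monoid Topology
open scoped Pointwise

namespace Pool.Agent.Helper509.RD

lemma continuous_gK : Continuous gK :=
  continuous_inr'.comp (continuous_inr'.comp continuous_inl')

lemma TT_inv : TT⁻¹ = TT := by
  unfold TT
  rw [Set.union_inv, Set.union_inv, inv_inv, Set.union_comm (LL⁻¹) LL]
  congr 1
  ext x
  rw [Set.mem_inv]
  constructor
  · rintro ⟨k, hk⟩; exact ⟨k⁻¹, by rw [map_inv, hk, inv_inv]⟩
  · rintro ⟨k, hk⟩; exact ⟨k⁻¹, by rw [map_inv, hk]⟩

lemma one_mem_TT : (1 : GG) ∈ TT := Or.inl ⟨1, map_one _⟩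

lemma LL_finite : LL.Finite := by unfold LL; exact Set.toFinite _

lemma TT_compact : IsCompact TT :=
  (isCompact_range continuous_gK).union (LL_finite.isCompact.union LL_finite.inv.isCompact)

lemma exists_pow (g : GG) : ∃ n : ℕ, g ∈ TT ^ n := by
  have hg : g ∈ Subgroup.closure TT := by
    rw [closure_top (Subgroup.closure TT) Subgroup.subset_closure]; trivial
  induction hg using Subgroup.closure_induction with
  | mem x hx => exact ⟨1, by rwa [pow_one]⟩
  | one => exact ⟨0, by rw [pow_zero]; exact Set.mem_one.mpr rfl⟩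
  | mul x y _ _ hx hy =>
    obtain ⟨n, hn⟩ := hx
    obtain ⟨m, hm⟩ := hy
    exact ⟨n + m, by rw [pow_add]; exact Set.mul_mem_mul hn hm⟩
  | inv x _ hx =>
    obtain ⟨n, hn⟩ := hx
    refine ⟨n, ?_⟩
    rw [← TT_inv, inv_pow, Set.mem_inv, inv_inv]
    exact hn

open Classical in
/-- word length -/
noncomputable def Len (g : GG) : ℕ := Nat.find (exists_pow g)

lemma Len_mem (g : GG) : g ∈ TT ^ Len g := by
  classical
  exact Nat.find_spec (exists_pow g)

lemma Len_le_iff (g : GG) (n : ℕ) : Len g ≤ n ↔ g ∈ TT ^ n := by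
  classical
  constructor
  · intro h
    exact Set.pow_subset_pow_right one_mem_TT h (Len_mem g)
  · intro h
    exact Nat.find_min' (exists_pow g) h

lemma Len_one : Len 1 = 0 := by
  have : Len 1 ≤ 0 := (Len_le_iff _ _).mpr (by rw [pow_zero]; exact Set.mem_one.mpr rfl)
  omega

lemma Len_inv_le (g : GG) : Len g⁻¹ ≤ Len g := by
  rw [Len_le_iff, ← TT_inv, inv_pow, Set.mem_inv, inv_inv]
  exact Len_mem g

lemma Len_inv (g : GG) : Len g⁻¹ = Len g :=
  le_antisymm (Len_inv_le g) (by simpa using Len_inv_le g⁻¹)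

lemma Len_mul_le (g h : GG) : Len (g * h) ≤ Len g + Len h := by
  rw [Len_le_iff, pow_add]
  exact Set.mul_mem_mul (Len_mem g) (Len_mem h)

lemma TTpow_compact (n : ℕ) : IsCompact (TT ^ n) := by
  induction n with
  | zero => rw [pow_zero]; exact isCompact_singleton
  | succ n ih => rw [pow_succ]; exact ih.mul TT_compact

lemma measurable_Len : Measurable Len := by
  apply measurable_of_Iic
  intro n
  have : Len ⁻¹' Set.Iic n = TT ^ n := by
    ext g
    simp [Len_le_iff]
  rw [this]
  exact (TTpow_compact n).measurableSet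

/-- the open subgroup `K` -/
def KK : Set GG := {g | g.left = 1 ∧ g.right.left = 1 ∧ g.right.right.right = 1}

lemma mem_KK {g : GG} : g ∈ KK ↔ g ∈ Set.range gK := by
  constructor
  · rintro ⟨h1, h2, h3⟩
    refine ⟨g.right.right.left, ?_⟩
    refine SemidirectProduct.ext h1.symm (SemidirectProduct.ext h2.symm
      (SemidirectProduct.ext rfl h3.symm))
  · rintro ⟨k, rfl⟩
    exact ⟨rfl, rfl, rfl⟩

lemma isOpen_KK : IsOpen KK := by
  have h1 : IsOpen {g : GG | g.left = 1} :=
    (isOpen_discrete {(1 : A)}).preimage continuous_left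
  have h2 : IsOpen {g : GG | g.right.left = 1} :=
    (isOpen_discrete {(1 : N)}).preimage (continuous_left.comp continuous_right)
  have h3 : IsOpen {g : GG | g.right.right.right = 1} :=
    (isOpen_discrete {(1 : F)}).preimage
      (continuous_right.comp (continuous_right.comp continuous_right))
  exact h1.inter (h2.inter h3)

lemma Len_bdd {C : Set GG} (hC : IsCompact C) : BddAbove (Len '' C) := by
  have hopen : ∀ g : GG, IsOpen ((fun x => g⁻¹ * x) ⁻¹' KK) := fun g =>
    isOpen_KK.preimage (continuous_const.mul continuous_id)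
  obtain ⟨t, ht⟩ := hC.elim_finite_subcover (fun g : GG => (fun x => g⁻¹ * x) ⁻¹' KK) hopen
    (by
      intro g _
      rw [Set.mem_iUnion]
      refine ⟨g, ?_⟩
      rw [Set.mem_preimage, inv_mul_cancel]
      exact ⟨rfl, rfl, rfl⟩)
  refine ⟨t.sup (fun g => Len g + 1), ?_⟩
  rintro _ ⟨x, hx, rfl⟩
  have := ht hx
  rw [Set.mem_iUnion₂] at this
  obtain ⟨g, hg, hgx⟩ := this
  refine le_trans ?_ (Finset.le_sup (f := fun g => Len g + 1) hg)
  have h1 : x = g * (g⁻¹ * x) := by group
  rw [h1]
  refine (Len_mul_le _ _).trans ?_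
  simp only [add_le_add_iff_left]
  rw [Len_le_iff, pow_one]
  exact Or.inl (mem_KK.mp hgx)

/-- complexity bounds for products of `n` generators -/
lemma bounds (n : ℕ) (g : GG) (hg : g ∈ TT ^ n) : g.right.right.right.norm ≤ n ∧
    g.right.left.norm ≤ n ∧ wA g.left ≤ n * (n + 1) := by
  induction n generalizing g with
  | zero =>
    rw [pow_zero, Set.mem_one] at hg
    subst hg
    simp
  | succ n ih =>
    rw [pow_succ] at hg
    obtain ⟨x, hx, s, hs, rfl⟩ := hg
    obtain ⟨h1, h2, h3⟩ := ih x hx
    -- letter bounds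
    have hl : s.right.right.right.norm ≤ 1 ∧ s.right.left.norm ≤ 1 ∧ wA s.left ≤ 1 := by
      have hLL : ∀ s ∈ LL, s.right.right.right.norm ≤ 1 ∧ s.right.left.norm ≤ 1 ∧
          wA s.left ≤ 1 ∧ (wA (s⁻¹).left ≤ 1) ∧ ((s⁻¹).right.left.norm ≤ 1) := by
        intro s hs
        rcases hs with rfl | rfl | rfl | rfl | rfl
        · refine ⟨?_, ?_, ?_, ?_, ?_⟩ <;> simp [gF, gJ, gNJ]
        · refine ⟨?_, ?_, ?_, ?_, ?_⟩ <;> simp [gF, gJ, gNJ]
        · refine ⟨?_, ?_, ?_, ?_, ?_⟩ <;> simp [gN, gNJ]
        · refine ⟨?_, ?_, ?_, ?_, ?_⟩ <;> simp [gN, gNJ]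
        · refine ⟨?_, ?_, ?_, ?_, ?_⟩
          · simp [gA]
          · simp [gA]
          · simpa [gA] using wA_cc ∅
          · rw [← map_inv]
            simp only [gA, SemidirectProduct.left_inl, wA_inv]
            exact wA_cc ∅
          · simp [gA]
      rcases hs with ⟨k, rfl⟩ | hs | hs
      · refine ⟨?_, ?_, ?_⟩ <;> simp [gK, gJ, gNJ]
      · exact ⟨(hLL s hs).1, (hLL s hs).2.1, (hLL s hs).2.2.1⟩
      · rw [Set.mem_inv] at hs
        have h := hLL _ hs
        refine ⟨?_, ?_, ?_⟩
        · have h4 := h.1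
          have h5 : (s⁻¹).right.right.right = (s.right.right.right)⁻¹ := rfl
          rw [h5, FreeGroup.norm_inv_eq] at h4
          exact h4
        · simpa using h.2.2.2.2
        · simpa using h.2.2.2.1
    refine ⟨?_, ?_, ?_⟩
    · have : (x * s).right.right.right = x.right.right.right * s.right.right.right := rfl
      rw [this]
      have := FreeGroup.norm_mul_le x.right.right.right s.right.right.right
      omega
    · have : (x * s).right.left = x.right.left * Psi x.right.right s.right.left := rfl
      rw [this]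
      have h4 := FreeGroup.norm_mul_le x.right.left (Psi x.right.right s.right.left)
      have h5 : (Psi x.right.right s.right.left).norm ≤ s.right.left.norm := by
        have : Psi x.right.right s.right.left =
            FreeGroup.map (permS x.right.right) s.right.left := rfl
        rw [this]
        conv_lhs => rw [← FreeGroup.mk_toWord (x := s.right.left)]
        rw [FreeGroup.map.mk]
        refine FreeGroup.norm_mk_le.trans ?_
        rw [List.length_map]; rfl
      omega
    · have : (x * s).left = x.left * NA x.right.left (JA x.right.right s.left) := rfl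
      rw [this]
      refine (wA_mul _ _).trans ?_
      have h4 := wA_NA x.right.left (JA x.right.right s.left)
      rw [wA_JA] at h4
      have h5 : (x.right.left.norm + 1) * wA s.left ≤ (n + 1) * 1 := by
        apply Nat.mul_le_mul
        · omega
        · exact hl.2.2
      nlinarith

lemma bounds_Len (g : GG) : g.right.right.right.norm ≤ Len g ∧
    g.right.left.norm ≤ Len g ∧ wA g.left ≤ Len g * (Len g + 1) := bounds _ g (Len_mem g)

end Pool.Agent.Helper509.RD
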