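import Pool.Agent.Helper509.RD.NonRD

open Monoid Topology MeasureTheory
open scoped Pointwise ENNReal

namespace Pool.Agent.Helper509.RD

lemma FO_t_zpow (m : ℤ) (j : ℤ) (T : Finset ℤ) :
    FO (FreeGroup.of false ^ m) (j, T) = (j + m, T) := by
  have h1 : ∀ (n : ℕ) (j : ℤ) (T : Finset ℤ),
      FO (FreeGroup.of false ^ n) (j, T) = (j + n, T) := by
    intro n
    induction n with
    | zero => intro j T; simp
    | succ n ih =>
      intro j T
      rw [pow_succ, map_mul, Equiv.Perm.mul_apply]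
      have : FO (FreeGroup.of false) (j, T) = (j + 1, T) := by
        simp [FO, tO]
      rw [this, ih]
      push_cast
      ring_nf
  rcases Int.eq_nat_or_neg m with ⟨n, rfl | rfl⟩
  · rw [zpow_natCast]; exact h1 n j T
  · rw [zpow_neg, zpow_natCast, map_inv, Equiv.Perm.inv_eq_iff_eq, h1]
    ring_nf

/-- a word marking the position `j` -/
def wd (j : ℤ) : F := FreeGroup.of false ^ (-j) * (FreeGroup.of true * FreeGroup.of false ^ j)

lemma FO_wd (j : ℤ) (D : Finset ℤ) : FO (wd j) ((0 : ℤ), D) = ((0 : ℤ), symmDiff D {j}) := by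
  unfold wd
  rw [map_mul, map_mul, Equiv.Perm.mul_apply, Equiv.Perm.mul_apply, FO_t_zpow j 0 D]
  have : FO (FreeGroup.of true) ((0 : ℤ) + j, D) = ((0 : ℤ) + j, symmDiff D {j}) := by
    simp [FO, aO]
  rw [this, FO_t_zpow]
  simp

lemma hN_conj (f : F) (o : O) (b : ZMod 2) :
    hN (FreeGroup.of ((FO f o, b), false)) =
      hF f * hN (FreeGroup.of ((o, b), false)) * (hF f)⁻¹ := by
  apply Subtype.ext
  change gN (FreeGroup.of ((FO f o, b), false)) =
      gF f * gN (FreeGroup.of ((o, b), false)) * (gF f)⁻¹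
  have h1 : gF f = gJ (SemidirectProduct.inr f) := rfl
  rw [h1, ← gN_Psi, Psi_of]
  congr 2
  rw [smul_S]
  simp

lemma hA_NA (ν : N) (a : A) : hA (NA ν a) = hN ν * hA a * (hN ν)⁻¹ := by
  apply Subtype.ext
  change gA (NA ν a) = gN ν * gA a * (gN ν)⁻¹
  rw [← Phi_inl, gA_Phi]
  rfl

section

variable {L : HH → ℝ} (h1 : L 1 = 0) (hinv : ∀ g, L g⁻¹ = L g)
  (hmul : ∀ g h, L (g * h) ≤ L g + L h)

include hinv hmul in
lemma L_conj (x y : HH) : L (x * y * x⁻¹) ≤ 2 * L x + L y := by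
  have e1 := hmul (x * y) x⁻¹
  have e2 := hmul x y
  rw [hinv] at e1
  linarith

include h1 hmul in
lemma L_pow (x : HH) (n : ℕ) : L (x ^ n) ≤ n * L x := by
  induction n with
  | zero => simp [h1]
  | succ n ih =>
    rw [pow_succ]
    have := hmul (x ^ n) x
    push_cast
    linarith

include h1 hinv hmul in
lemma L_zpow (x : HH) (n : ℤ) : L (x ^ n) ≤ n.natAbs * L x := by
  rcases Int.eq_nat_or_neg n with ⟨k, rfl | rfl⟩
  · rw [zpow_natCast]; simpa using L_pow h1 hmul x k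
  · rw [zpow_neg, zpow_natCast, hinv]; simpa using L_pow h1 hmul x k

variable {c : ℝ} (hc0 : 0 ≤ c) (hct : L (hF (FreeGroup.of false)) ≤ c)
  (hca : L (hF (FreeGroup.of true)) ≤ c)

include h1 hinv hmul hct hca in
lemma L_wd (j : ℤ) : L (hF (wd j)) ≤ (2 * j.natAbs + 1) * c := by
  unfold wd
  rw [map_mul, map_mul, map_zpow, map_zpow]
  have e1 := hmul (hF (FreeGroup.of false) ^ (-j)) (hF (FreeGroup.of true) *
    hF (FreeGroup.of false) ^ j)
  have e2 := hmul (hF (FreeGroup.of true)) (hF (FreeGroup.of false) ^ j)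
  have e3 := L_zpow h1 hinv hmul (hF (FreeGroup.of false)) (-j)
  have e4 := L_zpow h1 hinv hmul (hF (FreeGroup.of false)) j
  rw [Int.natAbs_neg] at e3
  have e5 : (j.natAbs : ℝ) * L (hF (FreeGroup.of false)) ≤ j.natAbs * c := by gcongr
  linarith

variable (hcb : ∀ b : ZMod 2, L (hN (FreeGroup.of ((((0 : ℤ), (∅ : Finset ℤ)), b), false))) ≤ c)

lemma aux_natAbs (b : ZMod 2) : (aux b).natAbs ≤ 2 := by
  unfold aux; split_ifs <;> norm_num

include h1 hinv hmul hc0 hct hca in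
lemma word_EE {n : ℕ} {y q : Fin n → ZMod 2} {s : S} (hs : s ∈ EE n y q) :
    ∃ f : F, s = (FO f ((0 : ℤ), (∅ : Finset ℤ)), s.2) ∧ L (hF f) ≤ (2 * n + 6) * c := by
  unfold EE at hs
  rw [Finset.mem_union, Finset.mem_image, Finset.mem_image] at hs
  rcases hs with ⟨i, _, rfl⟩ | ⟨⟨i, b⟩, _, rfl⟩
  · refine ⟨wd (i : ℕ), ?_, ?_⟩
    · rw [FO_wd]
      have : symmDiff (∅ : Finset ℤ) {((i : ℕ) : ℤ)} = {((i : ℕ) : ℤ)} := by
        rw [← Finset.bot_eq_empty, bot_symmDiff]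
      rw [this]
    · refine (L_wd h1 hinv hmul hct hca _).trans ?_
      have : ((i : ℕ) : ℝ) ≤ n := by exact_mod_cast i.2.le
      rw [Int.natAbs_natCast]
      gcongr
      linarith
  · refine ⟨wd (aux (q i)) * wd (i : ℕ), ?_, ?_⟩
    · rw [map_mul, Equiv.Perm.mul_apply, FO_wd, FO_wd]
      have : symmDiff (∅ : Finset ℤ) {((i : ℕ) : ℤ)} = {((i : ℕ) : ℤ)} := by
        rw [← Finset.bot_eq_empty, bot_symmDiff]
      rw [this]
      have h2 : symmDiff ({((i : ℕ) : ℤ)} : Finset ℤ) {aux (q i)} =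
          {aux (q i), ((i : ℕ) : ℤ)} := by
        have h3 := aux_neg (q i)
        ext x
        simp only [Finset.mem_symmDiff, Finset.mem_singleton, Finset.mem_insert]
        omega
      rw [h2]
    · rw [map_mul]
      refine (hmul _ _).trans ?_
      have e1 := L_wd h1 hinv hmul hct hca (aux (q i))
      have e2 := L_wd h1 hinv hmul hct hca ((i : ℕ) : ℤ)
      have e3 : ((i : ℕ) : ℝ) ≤ n := by exact_mod_cast i.2.le
      have e4 : ((aux (q i)).natAbs : ℝ) ≤ 2 := by exact_mod_cast aux_natAbs (q i)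
      rw [Int.natAbs_natCast] at e2
      nlinarith [mul_le_mul_of_nonneg_right e3 hc0, mul_le_mul_of_nonneg_right e4 hc0]

include h1 hinv hmul hc0 hct hca hcb in
lemma L_tog {n : ℕ} {y q : Fin n → ZMod 2} {s : S} (hs : s ∈ EE n y q) :
    L (hN (FreeGroup.of (s, false))) ≤ (4 * n + 13) * c := by
  obtain ⟨f, hf1, hf2⟩ := word_EE h1 hinv hmul hc0 hct hca hs
  rw [hf1, hN_conj]
  refine (L_conj hinv hmul _ _).trans ?_
  have := hcb s.2
  linarith

lemma tog_insert {s : S} {E : Finset S} (hs : s ∉ E) : tog s E = insert s E := by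
  change symmDiff E {s} = _
  ext x
  simp only [Finset.mem_symmDiff, Finset.mem_singleton, Finset.mem_insert]
  constructor
  · rintro (⟨h1, h2⟩ | ⟨h1, h2⟩)
    · exact Or.inr h1
    · exact Or.inl h1
  · rintro (h' | h')
    · right; subst h'; exact ⟨rfl, hs⟩
    · left
      refine ⟨h', ?_⟩
      rintro rfl
      exact hs h'

variable (hcc : L (hA (cc ∅)) ≤ c)

include hinv hmul hcc in
lemma L_cc {X : ℝ} (E : Finset S) (hE : ∀ s ∈ E, L (hN (FreeGroup.of (s, false))) ≤ X) :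
    L (hA (cc E)) ≤ c + 2 * E.card * X := by
  induction E using Finset.induction_on with
  | empty => simpa using hcc
  | insert s E hs ih =>
    have e1 := ih (fun s' hs' => hE s' (Finset.mem_insert_of_mem hs'))
    have e2 : cc (insert s E) = NA (FreeGroup.of (s, false)) (cc E) := by
      rw [NA_false, togAut_cc, tog_insert hs]
    rw [e2, hA_NA, Finset.card_insert_of_notMem hs]
    have e3 := L_conj hinv hmul (hN (FreeGroup.of (s, false))) (hA (cc E))
    have e4 := hE s (Finset.mem_insert_self _ _)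
    push_cast
    linarith

variable (hcr : L (hN (FreeGroup.of (s0, true))) ≤ c)

include h1 hinv hmul hc0 hct hca hcb hcc hcr in
lemma L_pY (n : ℕ) (y q : Fin n → ZMod 2) :
    L (hA (pY ⟨n, y⟩ q)) ≤ (4 + 12 * n * (4 * n + 13)) * c := by
  have e1 : hA (pY ⟨n, y⟩ q) = hN (FreeGroup.of (s0, true)) * hA (cc (EE n y q)) *
      (hN (FreeGroup.of (s0, true)))⁻¹ * (hA (cc (EE n y q)))⁻¹ := by
    rw [← hA_NA, NA_true, transAut_cc, pp_EE, map_mul]
    group
  rw [e1]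
  have e2 := hmul (hN (FreeGroup.of (s0, true)) * hA (cc (EE n y q)) *
      (hN (FreeGroup.of (s0, true)))⁻¹) (hA (cc (EE n y q)))⁻¹
  have e3 := L_conj hinv hmul (hN (FreeGroup.of (s0, true))) (hA (cc (EE n y q)))
  have e4 := L_cc hinv hmul hcc (EE n y q) (X := (4 * n + 13) * c)
    (fun s hs => L_tog h1 hinv hmul hc0 hct hca hcb hs)
  rw [hinv] at e2
  rw [card_EE] at e4
  push_cast at e4
  nlinarith

end

/-- exponential beats polynomial -/
lemma contra {C c s : ℝ} (hc : 0 ≤ c) {u : ℝ≥0∞} (hu : u ≠ 0) (hu2 : u ≠ ∞)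
    (h : ∀ n : ℕ, 2 ^ n * u ≤
      (ENNReal.ofReal C * ENNReal.ofReal ((1 + c * (n + 1) ^ 2) ^ s)) ^ 2) : False := by
  set C' := max C 0 with hC'
  have hC0 : 0 ≤ C' := le_max_right _ _
  have hCC : ENNReal.ofReal C = ENNReal.ofReal C' := by
    rw [hC', ENNReal.ofReal_max]; simp
  set r := u.toReal with hr
  have hrpos : 0 < r := ENNReal.toReal_pos hu hu2
  set m := ⌈s⌉₊ with hm
  have key : ∀ n : ℕ, r / 2 ≤ (C' ^ 2 * (1 + c) ^ (2 * m)) *
      (((n + 1 : ℕ) : ℝ) ^ (4 * m) / 2 ^ (n + 1)) := by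
    intro n
    have h1 := h n
    rw [hCC] at h1
    have hx : 0 ≤ c * ((n : ℝ) + 1) ^ 2 := by positivity
    have h2 : (1 + c * ((n : ℝ) + 1) ^ 2) ^ s ≤ ((1 + c) * ((n : ℝ) + 1) ^ 2) ^ m := by
      calc (1 + c * ((n : ℝ) + 1) ^ 2) ^ s ≤ (1 + c * ((n : ℝ) + 1) ^ 2) ^ (m : ℝ) :=
            Real.rpow_le_rpow_of_exponent_le (by linarith) (Nat.le_ceil s)
        _ = (1 + c * ((n : ℝ) + 1) ^ 2) ^ m := Real.rpow_natCast _ _
        _ ≤ ((1 + c) * ((n : ℝ) + 1) ^ 2) ^ m := by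
            gcongr
            have : (1 : ℝ) ≤ ((n : ℝ) + 1) ^ 2 := by nlinarith [Nat.cast_nonneg (α := ℝ) n]
            linarith
    have h3 : 2 ^ n * r ≤ (C' * ((1 + c) * ((n : ℝ) + 1) ^ 2) ^ m) ^ 2 := by
      have h4 : ENNReal.ofReal (2 ^ n * r) ≤
          ENNReal.ofReal ((C' * ((1 + c) * ((n : ℝ) + 1) ^ 2) ^ m) ^ 2) := by
        rw [ENNReal.ofReal_mul (by positivity), hr, ENNReal.ofReal_toReal hu2,
          ENNReal.ofReal_pow (by norm_num), ENNReal.ofReal_pow (by positivity),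
          ENNReal.ofReal_mul hC0]
        have h5 : ENNReal.ofReal 2 = 2 := by norm_num
        rw [h5]
        refine h1.trans ?_
        gcongr
      exact (ENNReal.ofReal_le_ofReal_iff (by positivity)).mp h4
    have h6 : (C' * ((1 + c) * ((n : ℝ) + 1) ^ 2) ^ m) ^ 2 =
        C' ^ 2 * (1 + c) ^ (2 * m) * ((n + 1 : ℕ) : ℝ) ^ (4 * m) := by
      push_cast
      rw [mul_pow, mul_pow, mul_pow, ← pow_mul, ← pow_mul, ← pow_mul]
      ring
    rw [h6] at h3
    rw [← mul_div_assoc, le_div_iff₀ (by positivity)]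
    calc r / 2 * 2 ^ (n + 1) = 2 ^ n * r := by ring
      _ ≤ _ := h3
  have hlim : Filter.Tendsto (fun n : ℕ => (C' ^ 2 * (1 + c) ^ (2 * m)) *
      (((n + 1 : ℕ) : ℝ) ^ (4 * m) / 2 ^ (n + 1))) Filter.atTop (𝓝 0) := by
    have h1 := tendsto_pow_const_div_const_pow_of_one_lt (4 * m) (r := (2 : ℝ)) (by norm_num)
    have h2 := (Filter.tendsto_add_atTop_iff_nat 1).mpr h1
    simpa using h2.const_mul (C' ^ 2 * (1 + c) ^ (2 * m))
  have := ge_of_tendsto' hlim key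
  linarith

theorem not_rd_HH (ν : Measure HH) (hν : ν.IsHaarMeasure) :
    ¬ ∃ L : HH → ℝ, Measurable L ∧ L 1 = 0 ∧ (∀ g, 0 ≤ L g) ∧ (∀ g, L g⁻¹ = L g) ∧
      (∀ g h, L (g * h) ≤ L g + L h) ∧
      (∀ K : Set HH, IsCompact K → BddAbove (L '' K)) ∧
      ∃ C s : ℝ, 0 ≤ C ∧ 0 ≤ s ∧
        ∀ f ξ : HH → ℂ, Continuous f → HasCompactSupport f → Continuous ξ →
          HasCompactSupport ξ →
          eLpNorm (fun x => ∫ y, f y * ξ (y⁻¹ * x) ∂ν) 2 ν ≤
            ENNReal.ofReal C * eLpNorm (fun g => f g * (((1 + L g) ^ s : ℝ) : ℂ)) 2 ν *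
              eLpNorm ξ 2 ν := by
  rintro ⟨L, _, h1, h0, hinv, hmul, hbdd, C, s, _, hs, hRD⟩
  obtain ⟨b, hb⟩ := hbdd U0 U0_compact
  have hbU : ∀ x ∈ U0, L x ≤ b := fun x hx => hb ⟨x, hx, rfl⟩
  have hb0 : 0 ≤ b := by
    have := hbU 1 one_mem_U0
    rwa [h1] at this
  set c : ℝ := b + L (hF (FreeGroup.of false)) + L (hF (FreeGroup.of true)) +
    L (hN (FreeGroup.of ((((0 : ℤ), (∅ : Finset ℤ)), 0), false))) +
    L (hN (FreeGroup.of ((((0 : ℤ), (∅ : Finset ℤ)), 1), false))) + L (hA (cc ∅)) +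
    L (hN (FreeGroup.of (s0, true))) with hc
  have p1 := h0 (hF (FreeGroup.of false))
  have p2 := h0 (hF (FreeGroup.of true))
  have p3 := h0 (hN (FreeGroup.of ((((0 : ℤ), (∅ : Finset ℤ)), 0), false)))
  have p4 := h0 (hN (FreeGroup.of ((((0 : ℤ), (∅ : Finset ℤ)), 1), false)))
  have p5 := h0 (hA (cc ∅))
  have p6 := h0 (hN (FreeGroup.of (s0, true)))
  have hc0 : 0 ≤ c := by linarith
  have hLp := fun n : ℕ => L_pY h1 hinv hmul hc0 (by linarith) (by linarith)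
    (by
      intro d
      rcases z2_cases d with rfl | rfl
      · linarith
      · linarith) (by linarith) (by linarith) n 0
  have hWL : ∀ n : ℕ, ∀ g ∈ WS n, L g ≤ 200 * c * ((n : ℝ) + 1) ^ 2 := by
    rintro n g ⟨⟨q, g1⟩, g2, g3⟩
    have e1 := hbU _ (decomp_WS g1 g2 g3)
    have e2 : g = hA (pY ⟨n, 0⟩ q) * ((hA (pY ⟨n, 0⟩ q))⁻¹ * g) := by group
    have e3 := hmul (hA (pY ⟨n, 0⟩ q)) ((hA (pY ⟨n, 0⟩ q))⁻¹ * g)
    rw [← e2] at e3
    have e4 := hLp n q
    have e5 : (0 : ℝ) ≤ n := Nat.cast_nonneg n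
    have e6 : b ≤ c := by linarith
    have e7 : (4 + 12 * (n : ℝ) * (4 * n + 13)) * c + c ≤ 200 * c * ((n : ℝ) + 1) ^ 2 := by
      have : (4 + 12 * (n : ℝ) * (4 * n + 13)) + 1 ≤ 200 * ((n : ℝ) + 1) ^ 2 := by nlinarith
      nlinarith
    linarith
  refine contra (C := C) (c := 200 * c) (s := s) (by positivity) (u := ν U0)
    (U0_open.measure_pos ν ⟨1, one_mem_U0⟩).ne' U0_compact.measure_lt_top.ne ?_
  intro n
  exact (measure_WS ν n).trans (test_subgroup ν (WS n) (WS_open n) (WS_compact n) L h0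
    (200 * c * ((n : ℝ) + 1) ^ 2) (hWL n) C s hs hRD)

end Pool.Agent.Helper509.RD
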