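import Pool.Agent.Helper509.RD.Cov

open Monoid Topology MeasureTheory
open scoped Pointwise ENNReal

namespace Pool.Agent.Helper509.RD

lemma lc_an {u v : N} : IsLocallyConstant (fun κ : J => u * (Psi κ v)⁻¹) :=
  (lc_Psi v).comp (fun x => u * x⁻¹)

lemma lc_aa {u : N} {x y : A} : IsLocallyConstant (fun κ : J => NA u (x * (JA κ y)⁻¹)) :=
  (lc_JA y).comp (fun z => NA u (x * z⁻¹))

/-- basic data of a point in the set -/
lemma basic {i1 i2 i3 j1 j2 j3 : ℕ} {b : Bool} {c c' : TC} {h : GG}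
    (hf : i1 + j1 = (disc h).1.norm) (hn : i2 + j2 = (disc h).2.1.norm)
    (hC : Cf (i1, i2, i3) b (disc h) = c) (hC' : Cf (j1, j2, j3) b (disc h⁻¹) = c') :
    h.right.right.right = c.1 * c'.1⁻¹ ∧
    h.right.left = c.2.1 * (Psi h.right.right c'.2.1)⁻¹ ∧
    h.left = NA c.2.1 (be i2 (disc h)) ∧
    CP.pre i3 (be i2 (disc h)) = c.2.2.1 ∧
    CP.pre j3 (be i2 (disc h))⁻¹ = JA h.right.right c'.2.2.1 := by
  subst hC hC'
  change i1 + j1 = (h.right.right.right).norm at hf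
  change i2 + j2 = (h.right.left).norm at hn
  refine ⟨?_, ?_, ?_, rfl, ?_⟩
  · change h.right.right.right = FG.pre i1 h.right.right.right *
      (FG.pre j1 (h⁻¹).right.right.right)⁻¹
    rw [inv_rrr, FG.pre_inv hf]
    change h.right.right.right = FG.pre i1 h.right.right.right *
      ((h.right.right.right)⁻¹ * FG.pre i1 h.right.right.right)⁻¹
    group
  · change h.right.left = FG.pre i2 h.right.left *
      (Psi h.right.right (FG.pre j2 (h⁻¹).right.left))⁻¹
    rw [inv_rl, pre_Psi, Psi_cancel', FG.pre_inv hn]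
    change h.right.left = FG.pre i2 h.right.left *
      ((h.right.left)⁻¹ * FG.pre i2 h.right.left)⁻¹
    group
  · change h.left = NA (FG.pre i2 h.right.left) (NA (FG.pre i2 h.right.left)⁻¹ h.left)
    rw [NA_cancel']
  · change _ = JA h.right.right (CP.pre j3 (be j2 (disc h⁻¹)))
    rw [be_inv hn, pre_JA, JA_cancel']

lemma idx_data {i1 i2 i3 j1 j2 j3 : ℕ} {c c' : TC} {h : GG}
    (hn : i2 + j2 = (disc h).2.1.norm)
    (hC : Cf (i1, i2, i3) (some (none : Option ℤ)).isSome (disc h) = c)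
    (hC' : Cf (j1, j2, j3) (some (none : Option ℤ)).isSome (disc h⁻¹) = c')
    (hk1 : i3 + 1 + j3 = (CP.nf (be i2 (disc h))).length) {y : Y} {q : Mf (.inr y)}
    (hk2 : (CP.nf (be i2 (disc h)))[i3]? = some ⟨.inr y, q⟩) :
    c.2.2.2 = some (Sum.inr y) ∧
    c'.2.2.2 = some (Sum.inr (shiftY (vv (h.right.right)⁻¹) y)) := by
  subst hC hC'
  have h1 : CP.idx i3 (be i2 (disc h)) = some (Sum.inr y) := by
    unfold CP.idx; simp [hk2]
  constructor
  · exact h1
  · change CP.idx j3 (be j2 (disc h⁻¹)) = _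
    rw [be_inv hn, idx_JA, CP.idx_inv hk1, h1]
    rfl

lemma vv_inv (κ : J) : vv κ⁻¹ = vv κ := by
  have h1 := vv_mul κ κ⁻¹
  rw [mul_inv_cancel] at h1
  have h2 : vv 1 = 0 := rfl
  rw [h2] at h1
  ext i
  have h3 := congrFun h1 i
  simp only [Pi.zero_apply, Pi.add_apply] at h3
  have h4 := z2_add_self (vv κ i)
  have h5 : vv κ i + vv κ⁻¹ i = vv κ i + vv κ i := by rw [h4, ← h3]
  exact add_left_cancel h5

lemma shiftY_eq {n : ℕ} {y : Fin n → ZMod 2} {v v' : ℕ → ZMod 2}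
    (h : shiftY v ⟨n, y⟩ = shiftY v' ⟨n, y⟩) (i : Fin n) : v i = v' i := by
  unfold shiftY at h
  simp only [Sigma.mk.injEq, heq_eq_eq, true_and] at h
  have := congrFun h i
  simpa using this

variable {μ : Measure GG} [μ.IsMulLeftInvariant]

theorem measure_bound (x : Lam) (c c' : TC) :
    μ {h | h ∈ good x ∧ Cf x.1 x.2.2.isSome (disc h) = c ∧
      Cf x.2.1 x.2.2.isSome (disc h⁻¹) = c'} ≤ μ KK := by
  obtain ⟨⟨i1, i2, i3⟩, ⟨j1, j2, j3⟩, kd⟩ := x
  simp only
  rcases kd with _ | _ | m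
  · -- no middle syllable
    rw [← measure_inJ_UF (μ := μ) (c.1 * c'.1⁻¹)]
    refine le_trans (measure_mono ?_) (measure_graph_le
      (a := fun κ => NA c.2.1 (c.2.2.1 * (JA κ c'.2.2.1)⁻¹))
      (n := fun κ => c.2.1 * (Psi κ c'.2.1)⁻¹) lc_aa lc_an (isOpen_UF _))
    rintro h ⟨⟨hf, hn, hk⟩, hC, hC'⟩
    obtain ⟨e1, e2, e3, e4, e5⟩ := basic hf hn hC hC'
    refine ⟨?_, e2, e1⟩
    simp only [kindOK] at hk
    have e6 := CP.pre_inv hk
    rw [e5, e4] at e6
    change h.left = NA c.2.1 (c.2.2.1 * (JA h.right.right c'.2.2.1)⁻¹)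
    rw [e6]
    conv_lhs => rw [e3]
    congr 1
    group
  · -- finite syllable
    rcases Set.eq_empty_or_nonempty {h | h ∈ good ((i1, i2, i3), (j1, j2, j3), some none) ∧
      Cf (i1, i2, i3) (some (none : Option ℤ)).isSome (disc h) = c ∧
      Cf (j1, j2, j3) (some (none : Option ℤ)).isSome (disc h⁻¹) = c'} with hemp | ⟨h0, hh0⟩
    · rw [hemp]; simp
    obtain ⟨⟨hf0, hn0, hk0⟩, hC0, hC0'⟩ := hh0
    simp only [kindOK] at hk0
    obtain ⟨hk01, ⟨n, y⟩, q0, hk02⟩ := hk0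
    have hidx0 := idx_data hn0 hC0 hC0' hk01 hk02
    have hU : ∀ δ, μ (inJ (UP (c.1 * c'.1⁻¹) n δ)) = μ (inJ (UP (c.1 * c'.1⁻¹) n δ)) :=
      fun _ => rfl
    set δ : Fin n → ZMod 2 := fun i => vv h0.right.right i with hδ
    rw [← measure_UP (μ := μ) (c.1 * c'.1⁻¹) n δ]
    have hsub : {h | h ∈ good ((i1, i2, i3), (j1, j2, j3), some none) ∧
      Cf (i1, i2, i3) (some (none : Option ℤ)).isSome (disc h) = c ∧
      Cf (j1, j2, j3) (some (none : Option ℤ)).isSome (disc h⁻¹) = c'} ⊆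
      ⋃ q : Fin n → ZMod 2, graph (fun κ => NA c.2.1 ((c.2.2.1 * pY ⟨n, y⟩ q) *
          (JA κ c'.2.2.1)⁻¹)) (fun κ => c.2.1 * (Psi κ c'.2.1)⁻¹) (UP (c.1 * c'.1⁻¹) n δ) := by
      rintro h ⟨⟨hf, hn, hk⟩, hC, hC'⟩
      obtain ⟨e1, e2, e3, e4, e5⟩ := basic hf hn hC hC'
      simp only [kindOK] at hk
      obtain ⟨hk1, ⟨n', y'⟩, q, hk2⟩ := hk
      have hidx := idx_data hn hC hC' hk1 hk2
      have e6 : (⟨n', y'⟩ : Y) = ⟨n, y⟩ := by
        have := hidx.1.symm.trans hidx0.1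
        simpa using this
      rw [e6] at hidx
      have e8 : ∃ q' : Fin n → ZMod 2, CoprodI.of q = pY ⟨n, y⟩ q' := by
        simp only [Sigma.mk.injEq] at e6
        obtain ⟨e6, e6'⟩ := e6
        subst e6
        rw [heq_eq_eq] at e6'
        subst e6'
        exact ⟨Multiplicative.toAdd (show Multiplicative (Fin n' → ZMod 2) from q), rfl⟩
      obtain ⟨q', hq'⟩ := e8
      rw [Set.mem_iUnion]
      refine ⟨q', ?_, e2, e1, ?_⟩
      · have e7 := CP.decomp hk1 hk2
        rw [e5, e4] at e7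
        change h.left = NA c.2.1 _
        rw [e3]
        congr 1
        rw [e7]
        simp only
        rw [hq']
      · have e9 := hidx.2.symm.trans hidx0.2
        simp only [Option.some.injEq, Sum.inr.injEq] at e9
        have e10 := shiftY_eq e9
        ext i
        have e11 := e10 i
        rw [vv_inv, vv_inv] at e11
        exact e11
    refine (measure_mono hsub).trans ((measure_iUnion_le _).trans ?_)
    rw [tsum_fintype]
    refine (Finset.sum_le_sum (g := fun _ => μ (inJ (UP (c.1 * c'.1⁻¹) n δ)))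
      (fun q _ => measure_graph_le lc_aa lc_an (isOpen_UP _ _ _))).trans ?_
    rw [Finset.sum_const, Finset.card_univ]
    simp [ZMod.card]
  · -- cyclic syllable
    by_cases hE : ∃ E : Finset S, c.2.2.2 = some (.inl E)
    · obtain ⟨E, hE⟩ := hE
      rw [← measure_inJ_UF (μ := μ) (c.1 * c'.1⁻¹)]
      refine le_trans (measure_mono ?_) (measure_graph_le
        (a := fun κ => NA c.2.1 ((c.2.2.1 * cHom E (Multiplicative.ofAdd m)) *
          (JA κ c'.2.2.1)⁻¹))
        (n := fun κ => c.2.1 * (Psi κ c'.2.1)⁻¹) lc_aa lc_an (isOpen_UF _))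
      rintro h ⟨⟨hf, hn, hk⟩, hC, hC'⟩
      obtain ⟨e1, e2, e3, e4, e5⟩ := basic hf hn hC hC'
      refine ⟨?_, e2, e1⟩
      simp only [kindOK] at hk
      obtain ⟨hk1, E', hk2⟩ := hk
      have e6 : some (Sum.inl E') = c.2.2.2 := by
        rw [← hC]
        unfold Cf CP.idx
        simp [hk2]
      rw [hE] at e6
      simp only [Option.some.injEq, Sum.inl.injEq] at e6
      subst e6
      have e7 := CP.decomp hk1 hk2
      rw [e5, e4] at e7
      change h.left = NA c.2.1 _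
      rw [e3]
      congr 1
    · refine le_trans (measure_mono (t := ∅) ?_) (by simp)
      rintro h ⟨⟨hf, hn, hk⟩, hC, hC'⟩
      exfalso
      simp only [kindOK] at hk
      obtain ⟨hk1, E', hk2⟩ := hk
      apply hE
      refine ⟨E', ?_⟩
      rw [← hC]
      unfold Cf CP.idx
      simp [hk2]

end Pool.Agent.Helper509.RD
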