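import Pool.Agent.Helper509.RD.Len

open Monoid Topology MeasureTheory
open scoped Pointwise ENNReal

namespace Pool.Agent.Helper509.RD

/-- the `J`-part over a set -/
def inJ (U : Set J) : Set GG := {h | h.left = 1 ∧ h.right.left = 1 ∧ h.right.right ∈ U}

/-- graph over a subset of `J` -/
def graph (a : J → A) (n : J → N) (U : Set J) : Set GG :=
  {h | h.left = a h.right.right ∧ h.right.left = n h.right.right ∧ h.right.right ∈ U}

lemma cont_rr : Continuous (fun h : GG => h.right.right) := continuous_right.comp continuous_right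

lemma lc_left : IsLocallyConstant (fun h : GG => h.left) := lc_of_cont continuous_left
lemma lc_rl : IsLocallyConstant (fun h : GG => h.right.left) :=
  lc_of_cont (continuous_left.comp continuous_right)

lemma isOpen_eq_lc {X Z : Type*} [TopologicalSpace X] {f g : X → Z} (hf : IsLocallyConstant f)
    (hg : IsLocallyConstant g) : IsOpen {x | f x = g x} := by
  have := (hf.comp₂ hg (fun a b => a = b)).isOpen_fiber True
  simpa using this

lemma isOpen_graph {a : J → A} {n : J → N} {U : Set J} (ha : IsLocallyConstant a)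
    (hn : IsLocallyConstant n) (hU : IsOpen U) : IsOpen (graph a n U) := by
  have h1 : IsOpen {h : GG | h.left = a h.right.right} :=
    isOpen_eq_lc lc_left (ha.comp_continuous cont_rr)
  have h2 : IsOpen {h : GG | h.right.left = n h.right.right} :=
    isOpen_eq_lc lc_rl (hn.comp_continuous cont_rr)
  exact h1.inter (h2.inter (hU.preimage cont_rr))

/-- representatives -/
noncomputable def dd (d : A × N) : GG := gA d.1 * gN d.2

lemma dd_left (d : A × N) (h : GG) (h1 : h.left = 1) : (dd d * h).left = d.1 := by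
  unfold dd gA gN gNJ
  simp [h1]

lemma dd_rl (d : A × N) (h : GG) (h1 : h.right.left = 1) : (dd d * h).right.left = d.2 := by
  unfold dd gA gN gNJ
  simp [h1]

lemma dd_rr (d : A × N) (h : GG) : (dd d * h).right.right = h.right.right := by
  unfold dd gA gN gNJ
  simp

lemma left_dd (d : A × N) (h : GG) (h1 : (dd d * h).left = d.1)
    (h2 : (dd d * h).right.left = d.2) : h.left = 1 ∧ h.right.left = 1 := by
  unfold dd gA gN gNJ at h1 h2
  simp at h1 h2
  exact ⟨h1, h2⟩

variable {μ : Measure GG} [μ.IsMulLeftInvariant]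

lemma measure_graph_le {a : J → A} {n : J → N} {U : Set J} (ha : IsLocallyConstant a)
    (hn : IsLocallyConstant n) (hU : IsOpen U) : μ (graph a n U) ≤ μ (inJ U) := by
  set Sd : A × N → Set GG := fun d => graph a n U ∩ {h | h.left = d.1 ∧ h.right.left = d.2}
    with hSd
  have hopen : ∀ d, IsOpen (Sd d) := fun d =>
    (isOpen_graph ha hn hU).inter ((isOpen_eq_lc lc_left (IsLocallyConstant.const _)).inter
      (isOpen_eq_lc lc_rl (IsLocallyConstant.const _)))
  have hcover : graph a n U = ⋃ d, Sd d := by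
    ext h
    simp only [hSd, Set.mem_iUnion, Set.mem_inter_iff]
    constructor
    · intro hh; exact ⟨(h.left, h.right.left), hh, rfl, rfl⟩
    · rintro ⟨d, hh, _⟩; exact hh
  have hdisj : Pairwise (Function.onFun Disjoint Sd) := by
    intro d d' hdd'
    rw [Function.onFun, Set.disjoint_left]
    rintro h ⟨_, h1, h2⟩ ⟨_, h3, h4⟩
    exact hdd' (Prod.ext (h1.symm.trans h3) (h2.symm.trans h4))
  rw [hcover, measure_iUnion hdisj (fun d => (hopen d).measurableSet)]
  have h1 : ∀ d, μ (Sd d) = μ ((fun x => dd d * x) ⁻¹' Sd d) := fun d =>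
    (measure_preimage_mul μ (dd d) (Sd d)).symm
  simp only [h1]
  rw [← measure_iUnion]
  · apply measure_mono
    intro h hh
    rw [Set.mem_iUnion] at hh
    obtain ⟨d, ⟨_, _, h3⟩, h4, h5⟩ := hh
    obtain ⟨h6, h7⟩ := left_dd d h h4 h5
    rw [dd_rr] at h3
    exact ⟨h6, h7, h3⟩
  · intro d d' hdd'
    rw [Function.onFun, Set.disjoint_left]
    rintro h ⟨⟨h1, h2, _⟩, h3, h4⟩ ⟨⟨h5, h6, _⟩, h7, h8⟩
    rw [dd_rr] at h1 h2 h5 h6
    exact hdd' (Prod.ext (h3.symm.trans (h1.trans (h5.symm.trans h7)))
      (h4.symm.trans (h2.trans (h6.symm.trans h8))))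
  · intro d
    exact ((hopen d).preimage (continuous_const.mul continuous_id)).measurableSet

/-- fibre over an element of `F` -/
def UF (f : F) : Set J := {κ | κ.right = f}

lemma isOpen_UF (f : F) : IsOpen (UF f) := isOpen_eq_lc lc_right (IsLocallyConstant.const _)

lemma measure_inJ_UF (f : F) : μ (inJ (UF f)) = μ KK := by
  rw [← measure_preimage_mul μ (gF f) (inJ (UF f))]
  congr 1
  ext h
  unfold inJ UF KK
  simp only [Set.mem_preimage, Set.mem_ofPred_eq]
  unfold gF gJ gNJ
  simp

/-- fibre with prescribed first coordinates -/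
def UP (f : F) (n : ℕ) (δ : Fin n → ZMod 2) : Set J :=
  {κ | κ.right = f ∧ (fun i : Fin n => (add κ.left).2 ((i : ℕ) : ℤ)) = δ}

lemma isOpen_UP (f : F) (n : ℕ) (δ : Fin n → ZMod 2) : IsOpen (UP f n δ) :=
  (isOpen_eq_lc lc_right (IsLocallyConstant.const _)).inter
    (isOpen_eq_lc (lc_y n) (IsLocallyConstant.const _))

/-- an element of `K` with prescribed coordinates -/
def kd (n : ℕ) (δ : Fin n → ZMod 2) : K :=
  Multiplicative.ofAdd ((0, fun j : ℤ => if h : j.toNat < n then δ ⟨j.toNat, h⟩ else 0) : E0)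

lemma kd_spec (n : ℕ) (δ : Fin n → ZMod 2) (i : Fin n) :
    (add (kd n δ)).2 ((i : ℕ) : ℤ) = δ i := by
  unfold kd add
  simp

lemma measure_UP_eq (f : F) (n : ℕ) (δ : Fin n → ZMod 2) :
    μ (inJ (UP f n δ)) = μ (inJ (UP f n 0)) := by
  rw [← measure_preimage_mul μ (gK (kd n δ)) (inJ (UP f n δ))]
  congr 1
  ext h
  unfold inJ UP
  simp only [Set.mem_preimage, Set.mem_ofPred_eq]
  have h1 : (gK (kd n δ) * h).left = Phi (gK (kd n δ)).right h.left := by
    rw [SemidirectProduct.mul_left]
    have : (gK (kd n δ)).left = 1 := rfl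
    rw [this, one_mul]
  have h2 : (gK (kd n δ) * h).right.left = Psi (gK (kd n δ)).right.right h.right.left := by
    rw [SemidirectProduct.mul_right, SemidirectProduct.mul_left]
    have : (gK (kd n δ)).right.left = 1 := rfl
    rw [this, one_mul]
  have h3 : (gK (kd n δ) * h).right.right.right = h.right.right.right := by
    rw [SemidirectProduct.mul_right, SemidirectProduct.mul_right, SemidirectProduct.mul_right]
    have : (gK (kd n δ)).right.right.right = 1 := rfl
    rw [this, one_mul]
  have h4 : (gK (kd n δ) * h).right.right.left = kd n δ * h.right.right.left := by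
    rw [SemidirectProduct.mul_right, SemidirectProduct.mul_right, SemidirectProduct.mul_left]
    have h5 : (gK (kd n δ)).right.right.left = kd n δ := rfl
    have h6 : (gK (kd n δ)).right.right.right = 1 := rfl
    rw [h5, h6, map_one]; rfl
  rw [h1, h2, h3, h4, map_eq_one_iff _ (MulEquiv.injective _),
    map_eq_one_iff _ (MulEquiv.injective _)]
  have h5 : ((fun i : Fin n => (add (kd n δ * h.right.right.left)).2 ((i : ℕ) : ℤ)) = δ) ↔
      ((fun i : Fin n => (add h.right.right.left).2 ((i : ℕ) : ℤ)) = 0) := by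
    rw [add_mul]
    simp only [Prod.snd_add, Pi.add_apply, kd_spec]
    constructor
    · intro hh
      ext i
      have := congrFun hh i
      simpa using this
    · intro hh
      ext i
      have := congrFun hh i
      change (add h.right.right.left).2 ((i : ℕ) : ℤ) = 0 at this
      rw [this]; simp
  rw [h5]

lemma measure_UP (f : F) (n : ℕ) (δ : Fin n → ZMod 2) :
    (2 : ℝ≥0∞) ^ n * μ (inJ (UP f n δ)) = μ KK := by
  rw [measure_UP_eq]
  have h1 : inJ (UF f) = ⋃ δ : Fin n → ZMod 2, inJ (UP f n δ) := by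
    ext h
    unfold inJ UF UP
    simp only [Set.mem_ofPred_eq, Set.mem_iUnion]
    constructor
    · rintro ⟨h1, h2, h3⟩; exact ⟨_, h1, h2, h3, rfl⟩
    · rintro ⟨δ, h1, h2, h3, _⟩; exact ⟨h1, h2, h3⟩
  have h2 : μ (inJ (UF f)) = ∑' δ : Fin n → ZMod 2, μ (inJ (UP f n δ)) := by
    rw [h1, measure_iUnion]
    · intro δ δ' hδ
      rw [Function.onFun, Set.disjoint_left]
      rintro h ⟨_, _, _, h1⟩ ⟨_, _, _, h2⟩
      exact hδ (h1.symm.trans h2)
    · intro δ
      refine IsOpen.measurableSet ?_
      exact (isOpen_eq_lc lc_left (IsLocallyConstant.const _)).inter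
        ((isOpen_eq_lc lc_rl (IsLocallyConstant.const _)).inter
          ((isOpen_UP f n δ).preimage cont_rr))
  rw [measure_inJ_UF] at h2
  rw [h2]
  simp only [measure_UP_eq]
  rw [tsum_fintype, Finset.sum_const, Finset.card_univ]
  simp [ZMod.card]

end Pool.Agent.Helper509.RD
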