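import Mathlib

open Topology MeasureTheory
open scoped ENNReal

namespace Pool.Agent.Helper509.RD

lemma eLpNorm_two_sq' {α : Type*} [MeasurableSpace α] {μ : Measure α} (u : α → ℂ) :
    eLpNorm u 2 μ ^ 2 = ∫⁻ x, ‖u x‖ₑ ^ 2 ∂μ := by
  have h := eLpNorm_nnreal_pow_eq_lintegral (μ := μ) (f := u) (p := 2) (by norm_num)
  have h2 : ((2 : NNReal) : ℝ) = ((2 : ℕ) : ℝ) := by norm_num
  rw [h2] at h
  simp only [ENNReal.rpow_natCast] at h
  exact h

/-- testing rapid decay on a compact open subgroup -/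
theorem test_subgroup {G : Type*} [Group G] [TopologicalSpace G] [IsTopologicalGroup G]
    [MeasurableSpace G] [BorelSpace G] (ν : Measure G) [ν.IsHaarMeasure] (W : Subgroup G)
    (hWo : IsOpen (W : Set G)) (hWc : IsCompact (W : Set G)) (L : G → ℝ) (hL0 : ∀ g, 0 ≤ L g)
    (B : ℝ) (hB : ∀ g ∈ W, L g ≤ B) (C s : ℝ) (hs : 0 ≤ s)
    (hRD : ∀ f ξ : G → ℂ, Continuous f → HasCompactSupport f → Continuous ξ →
      HasCompactSupport ξ → eLpNorm (fun x => ∫ y, f y * ξ (y⁻¹ * x) ∂ν) 2 ν ≤
        ENNReal.ofReal C * eLpNorm (fun g => f g * (((1 + L g) ^ s : ℝ) : ℂ)) 2 ν *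
          eLpNorm ξ 2 ν) :
    ν (W : Set G) ≤ (ENNReal.ofReal C * ENNReal.ofReal ((1 + B) ^ s)) ^ 2 := by
  classical
  have hWcl : IsClosed (W : Set G) := W.isClosed_of_isOpen hWo
  have hWm : MeasurableSet (W : Set G) := hWo.measurableSet
  have hfin : ν (W : Set G) ≠ ∞ := hWc.measure_lt_top.ne
  have hpos : ν (W : Set G) ≠ 0 := (hWo.measure_pos ν ⟨1, W.one_mem⟩).ne'
  set f : G → ℂ := (W : Set G).indicator 1 with hf
  have hfc : Continuous f := by
    rw [hf]
    apply continuous_indicator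
    · intro a ha
      rw [IsClopen.frontier_eq ⟨hWcl, hWo⟩] at ha
      exact absurd ha (by simp)
    · exact continuous_const.continuousOn
  have hfs : HasCompactSupport f :=
    HasCompactSupport.intro' hWc hWcl (fun x hx => Set.indicator_of_notMem hx _)
  have h := hRD f f hfc hfs hfc hfs
  have hconv : ∀ x, ∫ y, f y * f (y⁻¹ * x) ∂ν = f x * (ν.real (W : Set G) : ℂ) := by
    intro x
    have h1 : ∀ y, f y * f (y⁻¹ * x) = f x * f y := by
      intro y
      by_cases hy : y ∈ W
      · have h2 : f y = 1 := Set.indicator_of_mem hy _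
        have h3 : f (y⁻¹ * x) = f x := by
          by_cases hx : x ∈ W
          · rw [hf, Set.indicator_of_mem (show x ∈ (W : Set G) from hx),
              Set.indicator_of_mem (show y⁻¹ * x ∈ (W : Set G) from
                W.mul_mem (W.inv_mem hy) hx)]
            rfl
          · have : y⁻¹ * x ∉ (W : Set G) := by
              intro h4
              apply hx
              have := W.mul_mem hy h4
              rwa [mul_inv_cancel_left] at this
            rw [hf, Set.indicator_of_notMem (show x ∉ (W : Set G) from hx),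
              Set.indicator_of_notMem this]
        rw [h2, h3]; ring
      · have h2 : f y = 0 := Set.indicator_of_notMem hy _
        rw [h2]; ring
    simp only [h1]
    rw [integral_const_mul]
    congr 1
    rw [hf, integral_indicator hWm]
    simp
  simp only [hconv] at h
  have hsq : (eLpNorm (fun x => f x * (ν.real (W : Set G) : ℂ)) 2 ν) ^ 2 ≤
      (ENNReal.ofReal C * eLpNorm (fun g => f g * (((1 + L g) ^ s : ℝ) : ℂ)) 2 ν *
          eLpNorm f 2 ν) ^ 2 := by gcongr
  have hf2 : ∫⁻ x, ‖f x‖ₑ ^ 2 ∂ν = ν (W : Set G) := by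
    have : ∀ x, ‖f x‖ₑ ^ 2 = (W : Set G).indicator 1 x := by
      intro x
      by_cases hx : x ∈ (W : Set G)
      · rw [hf, Set.indicator_of_mem hx, Set.indicator_of_mem hx]; simp
      · rw [hf, Set.indicator_of_notMem hx, Set.indicator_of_notMem hx]; simp
    simp only [this]
    rw [lintegral_indicator_one hWm]
  have hL1 : (eLpNorm (fun x => f x * (ν.real (W : Set G) : ℂ)) 2 ν) ^ 2 =
      ν (W : Set G) ^ 2 * ν (W : Set G) := by
    rw [eLpNorm_two_sq']
    have : ∀ x, ‖f x * (ν.real (W : Set G) : ℂ)‖ₑ ^ 2 = ν (W : Set G) ^ 2 * ‖f x‖ₑ ^ 2 := by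
      intro x
      rw [enorm_mul, mul_pow, mul_comm]
      congr 2
      rw [← ofReal_norm, Complex.norm_real, Real.norm_eq_abs, abs_of_nonneg measureReal_nonneg]
      exact ENNReal.ofReal_toReal hfin
    simp only [this]
    rw [lintegral_const_mul' _ _ (ENNReal.pow_ne_top hfin), hf2]
  have hR1 : (eLpNorm (fun g => f g * (((1 + L g) ^ s : ℝ) : ℂ)) 2 ν) ^ 2 ≤
      ENNReal.ofReal ((1 + B) ^ s) ^ 2 * ν (W : Set G) := by
    rw [eLpNorm_two_sq', ← hf2, ← lintegral_const_mul' _ _ (ENNReal.pow_ne_top (by simp))]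
    refine lintegral_mono fun x => ?_
    rw [enorm_mul, mul_pow, mul_comm]
    by_cases hx : x ∈ (W : Set G)
    · gcongr
      rw [← ofReal_norm, Complex.norm_real, Real.norm_eq_abs,
        abs_of_nonneg (Real.rpow_nonneg (by linarith [hL0 x]) _)]
      apply ENNReal.ofReal_le_ofReal
      apply Real.rpow_le_rpow (by linarith [hL0 x]) _ hs
      linarith [hB x hx]
    · have : f x = 0 := Set.indicator_of_notMem hx _
      rw [this]; simp
  have hR2 : (eLpNorm f 2 ν) ^ 2 = ν (W : Set G) := by rw [eLpNorm_two_sq', hf2]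
  rw [hL1, mul_pow, mul_pow, hR2] at hsq
  have hfinal : ν (W : Set G) * (ν (W : Set G) * ν (W : Set G)) ≤
      (ENNReal.ofReal C * ENNReal.ofReal ((1 + B) ^ s)) ^ 2 *
        (ν (W : Set G) * ν (W : Set G)) := by
    calc ν (W : Set G) * (ν (W : Set G) * ν (W : Set G)) = ν (W : Set G) ^ 2 * ν (W : Set G) := by
          ring
      _ ≤ ENNReal.ofReal C ^ 2 *
          (eLpNorm (fun g => f g * (((1 + L g) ^ s : ℝ) : ℂ)) 2 ν) ^ 2 * ν (W : Set G) := hsq
      _ ≤ ENNReal.ofReal C ^ 2 * (ENNReal.ofReal ((1 + B) ^ s) ^ 2 * ν (W : Set G)) *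
          ν (W : Set G) := by gcongr
      _ = _ := by ring
  exact (ENNReal.mul_le_mul_iff_left (mul_ne_zero hpos hpos)
    (ENNReal.mul_ne_top hfin hfin)).mp hfinal

end Pool.Agent.Helper509.RD
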