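import Pool.Agent.Helper509.RD.Meas
import Pool.Agent.Helper509.RD.Test

open Monoid Topology MeasureTheory
open scoped Pointwise ENNReal

namespace Pool.Agent.Helper509.RD

/-- projection to the second coordinates -/
noncomputable def pi0 : GG →* Multiplicative (ℤ → ZMod 2) where
  toFun g := Multiplicative.ofAdd (add g.right.right.left).2
  map_one' := rfl
  map_mul' g h := by
    change Multiplicative.ofAdd
      (add (g.right.right.left * phi g.right.right.right h.right.right.left)).2 = _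
    rw [add_mul, Prod.snd_add, snd_phi]; rfl

/-- the cocompact normal subgroup -/
noncomputable def HH : Subgroup GG := pi0.ker

lemma mem_HH {g : GG} : g ∈ HH ↔ (add g.right.right.left).2 = 0 := Iff.rfl

lemma continuous_pi0 : Continuous (fun g : GG => (add g.right.right.left).2) :=
  continuous_snd.comp (continuous_add.comp (continuous_left.comp cont_rr))

lemma HH_normal : HH.Normal := MonoidHom.normal_ker _

lemma HH_closed : IsClosed (HH : Set GG) := by
  have : (HH : Set GG) = (fun g : GG => (add g.right.right.left).2) ⁻¹' {0} := by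
    ext g; exact mem_HH
  rw [this]
  exact isClosed_singleton.preimage continuous_pi0

lemma HH_cocompact : CompactSpace (GG ⧸ HH) := by
  have hc : Continuous (fun k : K => (QuotientGroup.mk (gK k) : GG ⧸ HH)) :=
    continuous_quotient_mk'.comp continuous_gK
  have hs : Function.Surjective (fun k : K => (QuotientGroup.mk (gK k) : GG ⧸ HH)) := by
    intro x
    obtain ⟨g, rfl⟩ := QuotientGroup.mk_surjective x
    refine ⟨Multiplicative.ofAdd ((0, (add g.right.right.left).2) : E0), ?_⟩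
    simp only
    rw [QuotientGroup.eq]
    change _ ∈ pi0.ker
    rw [MonoidHom.mem_ker, map_mul, map_inv, inv_mul_eq_one]
    rfl
  exact hs.compactSpace hc

lemma vv_HH {g : GG} (hg : g ∈ HH) : vv g.right.right = 0 := by
  rw [mem_HH] at hg
  unfold vv
  rw [hg]; rfl

/-! homomorphisms into the subgroup -/

/-- `A` in the subgroup -/
noncomputable def hA : A →* HH := gA.codRestrict HH (fun _ => rfl)
/-- `N` in the subgroup -/
noncomputable def hN : N →* HH := gN.codRestrict HH (fun _ => rfl)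
/-- `F` in the subgroup -/
noncomputable def hF : F →* HH := gF.codRestrict HH (fun _ => rfl)

lemma hA_coe (a : A) : ((hA a : HH) : GG) = gA a := rfl

lemma pY_inj {y : Y} {q q' : Fin y.1 → ZMod 2} (h : pY y q = pY y q') : q = q' := by
  have := CoprodI.of_injective (M := Mf) (Sum.inr y) h
  exact Multiplicative.ofAdd.injective this

lemma pY_inv (y : Y) (q : Fin y.1 → ZMod 2) : (pY y q)⁻¹ = pY y (-q) := by
  rw [inv_eq_iff_mul_eq_one, ← pY_add, add_neg_cancel, pY_zero]

lemma JA_pY_HH {g : GG} (hg : g ∈ HH) (n : ℕ) (y q : Fin n → ZMod 2) :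
    JA g.right.right (pY ⟨n, y⟩ q) = pY ⟨n, y⟩ q := by
  rw [JA_pY]
  have h1 : (fun i : ℕ => (add g.right.right.left).2 (i : ℤ)) = 0 := vv_HH hg
  rw [h1]
  apply pY_congr
  simp

/-- test subgroups -/
noncomputable def WS (n : ℕ) : Subgroup HH where
  carrier := {h | (∃ q : Fin n → ZMod 2, (h : GG).left = pY ⟨n, 0⟩ q) ∧ (h : GG).right.left = 1 ∧
    (h : GG).right.right.right = 1}
  one_mem' := ⟨⟨0, (pY_zero _).symm⟩, rfl, rfl⟩
  mul_mem' := by
    rintro h h' ⟨⟨q, h1⟩, h2, h3⟩ ⟨⟨q', h1'⟩, h2', h3'⟩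
    refine ⟨⟨q + q', ?_⟩, ?_, ?_⟩
    · change (h : GG).left * NA (h : GG).right.left (JA (h : GG).right.right (h' : GG).left) = _
      rw [h1, h2, h1', JA_pY_HH h.2, pY_add, map_one]; rfl
    · change (h : GG).right.left * Psi (h : GG).right.right (h' : GG).right.left = 1
      rw [h2, h2', map_one, one_mul]
    · change (h : GG).right.right.right * (h' : GG).right.right.right = 1
      rw [h3, h3', one_mul]
  inv_mem' := by
    rintro h ⟨⟨q, h1⟩, h2, h3⟩
    refine ⟨⟨-q, ?_⟩, ?_, ?_⟩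
    · change NA (Psi (h : GG).right.right⁻¹ (h : GG).right.left⁻¹)
        (JA (h : GG).right.right⁻¹ (h : GG).left⁻¹) = _
      have h4 : (h : GG).right.right⁻¹ = ((h : GG)⁻¹).right.right := rfl
      rw [h1, h2, inv_one, map_one, map_one, pY_inv, h4, JA_pY_HH (HH.inv_mem h.2)]; rfl
    · change Psi (h : GG).right.right⁻¹ (h : GG).right.left⁻¹ = 1
      rw [h2, inv_one, map_one]
    · change ((h : GG).right.right.right)⁻¹ = 1
      rw [h3, inv_one]

lemma mem_WS {n : ℕ} {h : HH} : h ∈ WS n ↔ (∃ q : Fin n → ZMod 2, (h : GG).left = pY ⟨n, 0⟩ q) ∧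
    (h : GG).right.left = 1 ∧ (h : GG).right.right.right = 1 := Iff.rfl

/-- the base open set -/
def U0 : Set HH := {h | (h : GG) ∈ KK}

lemma KK_compact' : IsCompact KK := by
  have : KK = Set.range gK := by ext g; exact mem_KK
  rw [this]
  exact isCompact_range continuous_gK

lemma U0_compact : IsCompact U0 :=
  HH_closed.isClosedEmbedding_subtypeVal.isCompact_preimage KK_compact'

lemma U0_open : IsOpen U0 := isOpen_KK.preimage continuous_subtype_val

lemma one_mem_U0 : (1 : HH) ∈ U0 := ⟨rfl, rfl, rfl⟩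

lemma WS_open (n : ℕ) : IsOpen (WS n : Set HH) := by
  have h1 : IsOpen {g : GG | ∃ q : Fin n → ZMod 2, g.left = pY ⟨n, 0⟩ q} :=
    (isOpen_discrete {a : A | ∃ q : Fin n → ZMod 2, a = pY ⟨n, 0⟩ q}).preimage continuous_left
  have h2 : IsOpen {g : GG | g.right.left = 1} :=
    (isOpen_discrete {(1 : N)}).preimage (continuous_left.comp continuous_right)
  have h3 : IsOpen {g : GG | g.right.right.right = 1} :=
    (isOpen_discrete {(1 : F)}).preimage
      (continuous_right.comp (continuous_right.comp continuous_right))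
  exact (h1.inter (h2.inter h3)).preimage continuous_subtype_val

lemma decomp_WS {n : ℕ} {h : HH} {q : Fin n → ZMod 2} (h1 : (h : GG).left = pY ⟨n, 0⟩ q)
    (h2 : (h : GG).right.left = 1) (h3 : (h : GG).right.right.right = 1) :
    (hA (pY ⟨n, 0⟩ q))⁻¹ * h ∈ U0 := by
  have h4 : (gA (pY ⟨n, 0⟩ q))⁻¹ = gA (pY ⟨n, 0⟩ q)⁻¹ := (map_inv _ _).symm
  refine ⟨?_, ?_, ?_⟩
  · change ((gA (pY ⟨n, 0⟩ q))⁻¹ * (h : GG)).left = 1
    rw [h4]
    unfold gA
    simp [h1]
  · change ((gA (pY ⟨n, 0⟩ q))⁻¹ * (h : GG)).right.left = 1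
    rw [h4]
    unfold gA
    simp [h2]
  · change ((gA (pY ⟨n, 0⟩ q))⁻¹ * (h : GG)).right.right.right = 1
    rw [h4]
    unfold gA
    simp [h3]

lemma WS_compact (n : ℕ) : IsCompact (WS n : Set HH) := by
  have hsub : (WS n : Set HH) ⊆ ⋃ q : Fin n → ZMod 2, (fun x => hA (pY ⟨n, 0⟩ q) * x) '' U0 := by
    rintro h ⟨⟨q, h1⟩, h2, h3⟩
    rw [Set.mem_iUnion]
    exact ⟨q, _, decomp_WS h1 h2 h3, by simp⟩
  have hc : IsCompact (⋃ q : Fin n → ZMod 2, (fun x => hA (pY ⟨n, 0⟩ q) * x) '' U0) :=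
    isCompact_iUnion fun q => U0_compact.image (continuous_const.mul continuous_id)
  exact hc.of_isClosed_subset ((WS n).isClosed_of_isOpen (WS_open n)) hsub

lemma coset_left {n : ℕ} {q : Fin n → ZMod 2} {x : HH}
    (hx : (hA (pY ⟨n, 0⟩ q))⁻¹ * x ∈ U0) : (x : GG).left = pY ⟨n, 0⟩ q ∧
      (x : GG).right.left = 1 ∧ (x : GG).right.right.right = 1 := by
  obtain ⟨h1, h2, h3⟩ := hx
  have h4 : (gA (pY ⟨n, 0⟩ q))⁻¹ = gA (pY ⟨n, 0⟩ q)⁻¹ := (map_inv _ _).symm
  change ((gA (pY ⟨n, 0⟩ q))⁻¹ * (x : GG)).left = 1 at h1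
  change ((gA (pY ⟨n, 0⟩ q))⁻¹ * (x : GG)).right.left = 1 at h2
  change ((gA (pY ⟨n, 0⟩ q))⁻¹ * (x : GG)).right.right.right = 1 at h3
  rw [h4] at h1 h2 h3
  unfold gA at h1 h2 h3
  simp at h1 h2 h3
  refine ⟨?_, h2, h3⟩
  rw [inv_mul_eq_one] at h1
  exact h1.symm

lemma measure_WS (ν : Measure HH) [ν.IsHaarMeasure] (n : ℕ) :
    2 ^ n * ν U0 ≤ ν (WS n : Set HH) := by
  have hsub : (⋃ q : Fin n → ZMod 2, (fun x => (hA (pY ⟨n, 0⟩ q))⁻¹ * x) ⁻¹' U0) ⊆
      (WS n : Set HH) := by
    intro x hx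
    rw [Set.mem_iUnion] at hx
    obtain ⟨q, hq⟩ := hx
    obtain ⟨h1, h2, h3⟩ := coset_left hq
    exact ⟨⟨q, h1⟩, h2, h3⟩
  refine le_trans (le_of_eq ?_) (measure_mono hsub)
  rw [measure_iUnion]
  · simp only [measure_preimage_mul]
    rw [tsum_fintype, Finset.sum_const, Finset.card_univ]
    simp [ZMod.card]
  · intro q q' hq
    rw [Function.onFun, Set.disjoint_left]
    intro x hx hx'
    have h1 := (coset_left hx).1
    have h2 := (coset_left hx').1
    exact hq (pY_inj (y := ⟨n, 0⟩) (h1.symm.trans h2))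
  · intro q
    exact (U0_open.preimage (continuous_const.mul continuous_id)).measurableSet

end Pool.Agent.Helper509.RD
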