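import Pool.Agent.Helper509.RD.MB

open Monoid Topology MeasureTheory
open scoped Pointwise ENNReal

namespace Pool.Agent.Helper509.RD

lemma eLpNorm_two_sq {α : Type*} [MeasurableSpace α] {μ : Measure α} (u : α → ℂ) :
    eLpNorm u 2 μ ^ 2 = ∫⁻ x, ‖u x‖ₑ ^ 2 ∂μ := by
  have h := eLpNorm_nnreal_pow_eq_lintegral (μ := μ) (f := u) (p := 2) (by norm_num)
  have h2 : ((2 : NNReal) : ℝ) = ((2 : ℕ) : ℝ) := by norm_num
  rw [h2] at h
  simp only [ENNReal.rpow_natCast] at h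
  exact h

lemma le_of_sq_le {a b : ℝ≥0∞} (h : a ^ 2 ≤ b ^ 2) : a ≤ b :=
  (ENNReal.pow_le_pow_left_iff (by norm_num)).mp h

lemma KK_compact : IsCompact KK := by
  have : KK = Set.range gK := by ext g; exact mem_KK
  rw [this]
  exact isCompact_range continuous_gK

theorem rd_GG (μ : Measure GG) (hμ : μ.IsHaarMeasure) :
    ∃ L : GG → ℝ, Measurable L ∧ L 1 = 0 ∧ (∀ g, 0 ≤ L g) ∧ (∀ g, L g⁻¹ = L g) ∧
      (∀ g h, L (g * h) ≤ L g + L h) ∧
      (∀ K : Set GG, IsCompact K → BddAbove (L '' K)) ∧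
      ∃ C s : ℝ, 0 ≤ C ∧ 0 ≤ s ∧
        ∀ f ξ : GG → ℂ, Continuous f → HasCompactSupport f → Continuous ξ →
          HasCompactSupport ξ →
          eLpNorm (fun x => ∫ y, f y * ξ (y⁻¹ * x) ∂μ) 2 μ ≤
            ENNReal.ofReal C * eLpNorm (fun g => f g * (((1 + L g) ^ s : ℝ) : ℂ)) 2 μ *
              eLpNorm ξ 2 μ := by
  set D : ℝ≥0∞ := (Theta * μ KK) ^ (1 / 2 : ℝ) * 320 with hD
  have hDtop : D ≠ ∞ := by
    refine ENNReal.mul_ne_top (ENNReal.rpow_ne_top_of_nonneg (by norm_num)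
      (ENNReal.mul_ne_top Theta_ne_top KK_compact.measure_lt_top.ne)) (by norm_num)
  have hD2 : D ^ 2 = Theta * μ KK * 320 ^ 2 := by
    rw [hD, mul_pow]
    congr 1
    rw [← ENNReal.rpow_natCast, ← ENNReal.rpow_mul]
    norm_num
  refine ⟨fun g => (Len g : ℝ), ?_, ?_, ?_, ?_, ?_, ?_, D.toReal, 22, ENNReal.toReal_nonneg,
    by norm_num, ?_⟩
  · exact measurable_from_nat.comp measurable_Len
  · simp [Len_one]
  · intro g; positivity
  · intro g; simp [Len_inv]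
  · intro g h
    have := Len_mul_le g h
    change ((Len (g * h) : ℕ) : ℝ) ≤ (Len g : ℝ) + (Len h : ℝ)
    exact_mod_cast this
  · intro C hC
    obtain ⟨b, hb⟩ := Len_bdd hC
    refine ⟨b, ?_⟩
    rintro _ ⟨x, hx, rfl⟩
    have : Len x ≤ b := hb ⟨x, hx, rfl⟩
    simp only
    exact_mod_cast this
  · intro f ξ hf _ hξ _
    rw [ENNReal.ofReal_toReal hDtop]
    apply le_of_sq_le
    rw [mul_pow, mul_pow, eLpNorm_two_sq, eLpNorm_two_sq, eLpNorm_two_sq, hD2]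
    have hmain := centers_bound (μ := μ) Len measurable_Len BX good
      (fun x => (isOpen_good x).measurableSet)
      (fun x g => Cf x.1 x.2.2.isSome (disc g)) (fun x g => Cf x.2.1 x.2.2.isSome (disc g))
      (fun x => measurable_Cf _ _) (fun x => measurable_Cf _ _) (μ KK)
      (fun x c w => measure_bound x c w) coverage
      (f := fun g => ‖f g‖ₑ) (ξ := fun g => ‖ξ g‖ₑ) hf.measurable.enorm hξ.measurable.enorm
    have hL : ∫⁻ x, ‖∫ y, f y * ξ (y⁻¹ * x) ∂μ‖ₑ ^ 2 ∂μ ≤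
        ∫⁻ g, (∫⁻ h, ‖f h‖ₑ * ‖ξ (h⁻¹ * g)‖ₑ ∂μ) ^ 2 ∂μ := by
      refine lintegral_mono fun g => ?_
      refine pow_le_pow_left₀ zero_le ?_ 2
      refine (enorm_integral_le_lintegral_enorm _).trans ?_
      simp only [enorm_mul]
      exact le_refl _
    refine hL.trans (hmain.trans ?_)
    refine mul_le_mul_left ?_ _
    rw [mul_assoc (Theta * μ KK)]
    refine mul_le_mul_right ?_ _
    rw [← lintegral_const_mul' _ _ (by norm_num)]
    refine lintegral_mono fun g => ?_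
    have h1 : ‖f g * (((1 + (Len g : ℝ)) ^ (22 : ℝ) : ℝ) : ℂ)‖ₑ ^ 2 =
        ‖f g‖ₑ ^ 2 * (1 + (Len g : ℝ≥0∞)) ^ 44 := by
      rw [enorm_mul, mul_pow]
      congr 1
      have h2 : (1 + (Len g : ℝ)) ^ (22 : ℝ) = (1 + (Len g : ℝ)) ^ (22 : ℕ) := by
        rw [← Real.rpow_natCast]; norm_num
      rw [h2]
      have h3 : ((((1 + (Len g : ℝ)) ^ (22 : ℕ) : ℝ)) : ℂ) = (((1 + Len g) ^ 22 : ℕ) : ℂ) := by
        push_cast; ring
      rw [h3]
      have h4 : ‖(((1 + Len g) ^ 22 : ℕ) : ℂ)‖ₑ = ((1 + Len g) ^ 22 : ℕ) := by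
        rw [← ofReal_norm, Complex.norm_natCast, ENNReal.ofReal_natCast]
      rw [h4]
      push_cast
      rw [← pow_mul]
    rw [h1]
    have h5 : ((BX (Len g)).card : ℝ≥0∞) ≤ 320 * (1 + (Len g : ℝ≥0∞)) ^ 21 := by
      have := card_BX (Len g)
      have h6 : ((BX (Len g)).card : ℝ≥0∞) ≤ ((320 * (Len g + 1) ^ 21 : ℕ) : ℝ≥0∞) := by
        exact_mod_cast this
      refine h6.trans (le_of_eq ?_)
      push_cast
      ring
    calc ‖f g‖ₑ ^ 2 * ((1 + (Len g : ℝ≥0∞)) ^ 2 * ((BX (Len g)).card : ℝ≥0∞) ^ 2)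
        ≤ ‖f g‖ₑ ^ 2 * ((1 + (Len g : ℝ≥0∞)) ^ 2 * (320 * (1 + (Len g : ℝ≥0∞)) ^ 21) ^ 2) := by
          gcongr
      _ = 320 ^ 2 * (‖f g‖ₑ ^ 2 * (1 + (Len g : ℝ≥0∞)) ^ 44) := by ring

end Pool.Agent.Helper509.RD
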