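import Pool.Agent.Helper509.RD.Constr

open Monoid Topology
open scoped Pointwise

namespace Pool.Agent.Helper509.RD

lemma z2_cases (a : ZMod 2) : a = 0 ∨ a = 1 := by
  revert a; decide

/-! the transvection data -/

/-- exactly one bit present at a position -/
def one' (E : Finset S) (o : O) : Prop := ((o, (0 : ZMod 2)) ∈ E) ≠ ((o, (1 : ZMod 2)) ∈ E)

/-- both bits present -/
def full (E : Finset S) (o : O) : Prop := (o, (0 : ZMod 2)) ∈ E ∧ (o, (1 : ZMod 2)) ∈ E

/-- the bit at a position -/
def bit (E : Finset S) (o : O) : ZMod 2 := if (o, (1 : ZMod 2)) ∈ E then 1 else 0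

instance (E : Finset S) (o : O) : Decidable (full E o) := by unfold full; infer_instance

/-- defining condition -/
def cond (s : S) (E : Finset S) : Prop :=
  ∀ i : ℕ, i < E.card / 3 → one' E (pos s.1 {(i : ℤ)})

open Classical in
/-- the transvection coefficient -/
noncomputable def pp (s : S) (E : Finset S) : A :=
  if cond s E then
    pY ⟨E.card / 3, fun i => s.2 + bit E (pos s.1 {((i : ℕ) : ℤ)})⟩
      (fun i => if full E (pos s.1 {-1, ((i : ℕ) : ℤ)}) then 1 else 0)
  else 1

lemma smul_mem_iff (κ : J) (E : Finset S) (o : O) (b : ZMod 2) :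
    (FO κ.right o, b) ∈ κ • E ↔ (o, b + eps (add κ.left) (FO κ.right o)) ∈ E := by
  rw [← Finset.smul_mem_smul_finset_iff (a := κ) (b := (o, b + eps (add κ.left) (FO κ.right o))),
    smul_S]
  simp only
  rw [add_assoc, z2_add_self, add_zero]

lemma one'_smul (κ : J) (E : Finset S) (o : O) : one' (κ • E) (FO κ.right o) ↔ one' E o := by
  unfold one'
  rw [smul_mem_iff, smul_mem_iff]
  rcases z2_cases (eps (add κ.left) (FO κ.right o)) with h | h
  · rw [h]; simp
  · rw [h, z2_add_self]
    simp only [zero_add, ne_eq]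
    exact ne_comm

lemma full_smul (κ : J) (E : Finset S) (o : O) : full (κ • E) (FO κ.right o) ↔ full E o := by
  unfold full
  rw [smul_mem_iff, smul_mem_iff]
  rcases z2_cases (eps (add κ.left) (FO κ.right o)) with h | h
  · rw [h]; simp
  · rw [h, z2_add_self]
    simp only [zero_add]
    exact and_comm

lemma bit_smul (κ : J) (E : Finset S) (o : O) (h : one' E o) :
    bit (κ • E) (FO κ.right o) = bit E o + eps (add κ.left) (FO κ.right o) := by
  unfold bit
  simp only [smul_mem_iff]
  rcases z2_cases (eps (add κ.left) (FO κ.right o)) with h' | h'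
  · rw [h']; simp
  · rw [h', z2_add_self]
    unfold one' at h
    by_cases h1 : (o, (1 : ZMod 2)) ∈ E
    · have h0 : (o, (0 : ZMod 2)) ∉ E := by
        intro h0; exact h (by simp [h0, h1])
      rw [if_pos h1, if_neg h0, z2_add_self]
    · have h0 : (o, (0 : ZMod 2)) ∈ E := by
        by_contra h0; exact h (by simp [h0, h1])
      rw [if_neg h1, if_pos h0, zero_add]

lemma smul_S_fst (κ : J) (s : S) : (κ • s).1 = FO κ.right s.1 := rfl
lemma smul_S_snd (κ : J) (s : S) : (κ • s).2 = s.2 + eps (add κ.left) (FO κ.right s.1) := rfl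

lemma cond_smul (κ : J) (s : S) (E : Finset S) : cond (κ • s) (κ • E) ↔ cond s E := by
  unfold cond
  rw [Finset.card_smul_finset, smul_S_fst]
  simp only [← FO_pos, one'_smul]

lemma pY_congr2 {n n' : ℕ} (hn : n = n') {y : Fin n → ZMod 2} {y' : Fin n' → ZMod 2}
    {q : Fin n → ZMod 2} {q' : Fin n' → ZMod 2} (hy : ∀ i (h : i < n) (h' : i < n'),
      y ⟨i, h⟩ = y' ⟨i, h'⟩) (hq : ∀ i (h : i < n) (h' : i < n'), q ⟨i, h⟩ = q' ⟨i, h'⟩) :
    pY ⟨n, y⟩ q = pY ⟨n', y'⟩ q' := by
  subst hn
  have h1 : y = y' := funext fun i => hy i.1 i.2 i.2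
  have h2 : q = q' := funext fun i => hq i.1 i.2 i.2
  rw [h1, h2]

lemma pp_smul (κ : J) (s : S) (E : Finset S) : pp (κ • s) (κ • E) = JA κ (pp s E) := by
  unfold pp
  by_cases h : cond s E
  · rw [if_pos h, if_pos ((cond_smul κ s E).mpr h), JA_pY]
    unfold shiftY
    refine pY_congr2 (by rw [Finset.card_smul_finset]) ?_ ?_
    · intro i hi hi'
      simp only [smul_S_fst, smul_S_snd]
      rw [← FO_pos, bit_smul κ E _ (h i hi')]
      rw [FO_pos, eps_pos]
      simp only [Finset.sum_singleton]
      have := z2_add_self (eps (add κ.left) (FO κ.right s.1))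
      linear_combination this
    · intro i hi hi'
      simp only [smul_S_fst, ← FO_pos, full_smul]
  · rw [if_neg h, if_neg (fun h' => h ((cond_smul κ s E).mp h')), map_one]

/-- the set of elements from the finite factors -/
def isP (a : A) : Prop := ∃ y q, a = pY y q

lemma isP_pp (s : S) (E : Finset S) : isP (pp s E) := by
  unfold pp
  split_ifs
  · exact ⟨_, _, rfl⟩
  · exact ⟨⟨0, fun _ => 0⟩, 0, by simp⟩

lemma isP_inv {a : A} (h : isP a) : isP a⁻¹ := by
  obtain ⟨y, q, rfl⟩ := h
  refine ⟨y, -q, ?_⟩
  rw [inv_eq_iff_mul_eq_one, ← pY_add, add_neg_cancel, pY_zero]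

/-- transvection endomorphism -/
noncomputable def transHom (p : Finset S → A) : A →* A :=
  liftA (fun E => zpowersHom A (p E * cc E)) (fun y => pHom y)

@[simp] lemma transHom_cc (p : Finset S → A) (E : Finset S) :
    transHom p (cc E) = p E * cc E := by
  unfold transHom
  rw [liftA_cc]
  simp [zpowersHom]

@[simp] lemma transHom_pY (p : Finset S → A) (y : Y) (q) :
    transHom p (pY y q) = pY y q := by
  unfold transHom
  rw [liftA_pY]; rfl

lemma transHom_isP (p : Finset S → A) {a : A} (h : isP a) : transHom p a = a := by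
  obtain ⟨y, q, rfl⟩ := h; simp

lemma transHom_comp (p p' : Finset S → A) (h : ∀ E, isP (p' E)) :
    (transHom p).comp (transHom p') = transHom (fun E => p' E * p E) := by
  apply homA_ext
  · intro E
    simp [transHom_isP p (h E), mul_assoc]
  · intro y q; simp

lemma transHom_one : transHom (fun _ => 1) = MonoidHom.id A := by
  apply homA_ext
  · intro E; simp
  · intro y q; simp

/-- transvection -/
noncomputable def transAut (s : S) : MulAut A :=
  MonoidHom.toMulEquiv (transHom (pp s)) (transHom (fun E => (pp s E)⁻¹))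
    (by rw [transHom_comp _ _ (isP_pp s)]; simp only [mul_inv_cancel]; exact transHom_one)
    (by rw [transHom_comp _ _ (fun E => isP_inv (isP_pp s E))]; simp only [inv_mul_cancel]
        exact transHom_one)

lemma transAut_apply (s : S) (a : A) : transAut s a = transHom (pp s) a := rfl
lemma transAut_cc (s : S) (E : Finset S) : transAut s (cc E) = pp s E * cc E := by
  rw [transAut_apply, transHom_cc]
lemma transAut_pY (s : S) (y : Y) (q) : transAut s (pY y q) = pY y q := by
  rw [transAut_apply, transHom_pY]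

/-- toggling -/
def tog (s : S) : Equiv.Perm (Finset S) where
  toFun E := symmDiff E {s}
  invFun E := symmDiff E {s}
  left_inv E := by simp
  right_inv E := by simp

lemma tog_smul (κ : J) (s : S) (E : Finset S) : tog (κ • s) (κ • E) = κ • tog s E := by
  change symmDiff (κ • E) {κ • s} = κ • symmDiff E {s}
  rw [Finset.smul_finset_symmDiff, Finset.smul_finset_singleton]

/-- toggling automorphism -/
def togAut (s : S) : MulAut A := permAut (tog s) 0

lemma togAut_apply (s : S) (a : A) : togAut s a = permHom (tog s) 0 a := rfl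
lemma togAut_cc (s : S) (E : Finset S) : togAut s (cc E) = cc (tog s E) := by
  rw [togAut_apply, permHom_cc]
lemma togAut_cHom (s : S) (E : Finset S) (m) : togAut s (cHom E m) = cHom (tog s E) m := by
  rw [togAut_apply, permHom_cHom]
lemma togAut_pY (s : S) (y : Y) (q) : togAut s (pY y q) = pY y q := by
  obtain ⟨n, y⟩ := y
  rw [togAut_apply, permHom_pY]
  apply pY_congr
  simp

/-- action of `N` on `A` -/
noncomputable def NA : N →* MulAut A :=
  FreeGroup.lift (fun x : S × Bool => if x.2 then transAut x.1 else togAut x.1)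

lemma NA_true (s : S) : NA (FreeGroup.of (s, true)) = transAut s := by
  simp [NA]
lemma NA_false (s : S) : NA (FreeGroup.of (s, false)) = togAut s := by
  simp [NA]

lemma JA_trans (κ : J) (s : S) : JA κ * transAut s = transAut (κ • s) * JA κ := by
  apply MulEquiv.toMonoidHom_injective
  apply homA_ext
  · intro E
    change JA κ (transAut s (cc E)) = transAut (κ • s) (JA κ (cc E))
    rw [transAut_cc, map_mul, JA_cc, transAut_cc, pp_smul]
  · intro y q
    change JA κ (transAut s (pY y q)) = transAut (κ • s) (JA κ (pY y q))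
    rw [transAut_pY, JA_pY, transAut_pY]

lemma JA_tog (κ : J) (s : S) : JA κ * togAut s = togAut (κ • s) * JA κ := by
  apply MulEquiv.toMonoidHom_injective
  apply homA_ext
  · intro E
    change JA κ (togAut s (cc E)) = togAut (κ • s) (JA κ (cc E))
    rw [togAut_cc, JA_cc, JA_cc, togAut_cc, tog_smul]
  · intro y q
    change JA κ (togAut s (pY y q)) = togAut (κ • s) (JA κ (pY y q))
    rw [togAut_pY, JA_pY, togAut_pY]

lemma NA_Psi (κ : J) : NA.comp (Psi κ).toMonoidHom =
    (MulAut.conj (JA κ)).toMonoidHom.comp NA := by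
  apply FreeGroup.ext_hom
  rintro ⟨s, b⟩
  simp only [MonoidHom.comp_apply, MulEquiv.coe_toMonoidHom, MulAut.conj_apply, Psi_of]
  rw [eq_mul_inv_iff_mul_eq]
  cases b
  · rw [NA_false, NA_false]; exact (JA_tog κ s).symm
  · rw [NA_true, NA_true]; exact (JA_trans κ s).symm

/-- the group `N ⋊ J` -/
abbrev NJ : Type := N ⋊[Psi] J

/-- action of `N ⋊ J` on `A` -/
noncomputable def Phi : NJ →* MulAut A := SemidirectProduct.lift NA JA NA_Psi

lemma Phi_apply (x : NJ) (a : A) : Phi x a = NA x.left (JA x.right a) := rfl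

lemma NA_Psi_apply (κ : J) (ν : N) (a : A) : NA (Psi κ ν) (JA κ a) = JA κ (NA ν a) := by
  have h := DFunLike.congr_fun (NA_Psi κ) ν
  simp only [MonoidHom.comp_apply, MulEquiv.coe_toMonoidHom, MulAut.conj_apply] at h
  rw [h]
  simp [MulAut.mul_apply]

/-- the big group -/
abbrev GG : Type := A ⋊[Phi] NJ

end Pool.Agent.Helper509.RD
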