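import Mathlib

open List

namespace Pool.Agent.Helper509.RD

lemma split {α : Type*} [DecidableEq α] (l l' : List α) : ∃ p r r', l = p ++ r ∧ l' = p ++ r' ∧
    (r = [] ∨ r' = [] ∨ ∃ x y t t', r = x :: t ∧ r' = y :: t' ∧ x ≠ y) := by
  induction l generalizing l' with
  | nil => exact ⟨[], [], l', rfl, rfl, Or.inl rfl⟩
  | cons a l ih =>
    cases l' with
    | nil => exact ⟨[], a :: l, [], rfl, rfl, Or.inr (Or.inl rfl)⟩
    | cons b l' =>
      by_cases h : a = b
      · subst h
        obtain ⟨p, r, r', h1, h2, h3⟩ := ih l'
        exact ⟨a :: p, r, r', by rw [h1]; rfl, by rw [h2]; rfl, h3⟩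
      · exact ⟨[], a :: l, b :: l', rfl, rfl, Or.inr (Or.inr ⟨a, b, l, l', rfl, rfl, h⟩)⟩

lemma isChain_reverse' {α : Type*} {R : α → α → Prop} (hR : ∀ a b, R a b → R b a) {l : List α}
    (h : l.IsChain R) : l.reverse.IsChain R := by
  induction l with
  | nil => simp
  | cons a l ih =>
    rw [List.reverse_cons]
    rw [List.isChain_cons] at h
    refine (ih h.2).append (List.isChain_singleton a) ?_
    intro x hx y hy
    simp only [head?_cons, Option.mem_def, Option.some.injEq] at hy
    subst hy
    apply hR
    apply h.1
    rw [List.getLast?_reverse] at hx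
    exact hx

namespace FG

open FreeGroup

variable {α : Type*} [DecidableEq α]

/-- the prefix of length `i` of the reduced word -/
def pre (i : ℕ) (g : FreeGroup α) : FreeGroup α := FreeGroup.mk (g.toWord.take i)

lemma isReduced_invRev {l : List (α × Bool)} (h : IsReduced l) : IsReduced (invRev l) := by
  have := h.reduce_eq
  rw [isReduced_iff_reduce_eq, reduce_invRev, this]

lemma toWord_of_isReduced {l : List (α × Bool)} (h : IsReduced l) : (FreeGroup.mk l).toWord = l := by
  rw [toWord_mk, h.reduce_eq]

theorem tripod (h k : FreeGroup α) : ∃ i j, i + j = h.norm ∧ pre i h = pre i (h * k) ∧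
    pre j h⁻¹ = pre j k := by
  obtain ⟨p, r, r', h1, h2, h3⟩ := split (h⁻¹).toWord k.toWord
  have hr1 : IsReduced (p ++ r) := by rw [← h1]; exact isReduced_toWord
  have hr2 : IsReduced (p ++ r') := by rw [← h2]; exact isReduced_toWord
  have hr : IsReduced r := hr1.right_of_append
  have hr' : IsReduced r' := hr2.right_of_append
  have hh : h = FreeGroup.mk (invRev (p ++ r)) := by
    rw [← h1, ← toWord_inv, inv_inv, mk_toWord]
  have hk : k = FreeGroup.mk (p ++ r') := by rw [← h2, mk_toWord]
  have hinv : invRev (p ++ r) = invRev r ++ invRev p := by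
    simp [invRev]
  have htw : h.toWord = invRev r ++ invRev p := by
    rw [hh, toWord_of_isReduced (isReduced_invRev hr1), hinv]
  have hhk : h * k = FreeGroup.mk (invRev r ++ r') := by
    rw [hh, hk, hinv, ← mul_mk, ← mul_mk, ← mul_mk, ← inv_mk, ← inv_mk]
    group
  have hred : IsReduced (invRev r ++ r') := by
    rcases h3 with h3 | h3 | ⟨x, y, t, t', h3, h4, h5⟩
    · subst h3; simpa [invRev] using hr'
    · subst h3; simpa using isReduced_invRev hr
    · refine (isReduced_invRev hr).append hr' ?_
      intro a ha b hb hab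
      have ha' : a = (x.1, !x.2) := by
        rw [h3] at ha
        simp [invRev] at ha
        exact ha.symm
      have hb' : b = y := by
        rw [h4] at hb
        simp at hb
        exact hb.symm
      subst ha' hb'
      by_contra hcon
      apply h5
      apply Prod.ext
      · exact hab
      · simp only at hcon
        cases hx : x.2 <;> cases hy : b.2 <;> simp_all
  refine ⟨r.length, p.length, ?_, ?_, ?_⟩
  · rw [FreeGroup.norm, htw]; simp
  · unfold pre
    rw [htw, hhk, toWord_of_isReduced hred, List.take_left' (by simp), List.take_left' (by simp)]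
  · unfold pre
    rw [h1, h2, List.take_left' rfl, List.take_left' rfl]

lemma pre_inv {i j : ℕ} {h : FreeGroup α} (hij : i + j = h.norm) :
    pre j h⁻¹ = h⁻¹ * pre i h := by
  unfold pre
  rw [toWord_inv]
  have h1 : h = FreeGroup.mk (h.toWord.take i) * FreeGroup.mk (h.toWord.drop i) := by
    rw [mul_mk, List.take_append_drop, mk_toWord]
  have h2 : (invRev h.toWord).take j = invRev (h.toWord.drop i) := by
    rw [FreeGroup.norm] at hij
    unfold invRev
    rw [List.take_reverse, List.map_drop]
    congr 2
    simp only [List.length_map]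
    omega
  rw [h2, ← inv_mk]
  conv_rhs => rw [h1]
  have h3 : (FreeGroup.mk (h.toWord.take i) * FreeGroup.mk (h.toWord.drop i)).toWord = h.toWord := by
    rw [← h1]
  rw [h3]
  group

lemma pre_norm_le (i : ℕ) (h : FreeGroup α) : (pre i h).norm ≤ h.norm := by
  unfold pre
  refine norm_mk_le.trans ?_
  rw [FreeGroup.norm, List.length_take]
  exact min_le_right _ _

lemma pre_map {β : Type*} [DecidableEq β] (e : α ≃ β) (i : ℕ) (h : FreeGroup α) :
    pre i (FreeGroup.map e h) = FreeGroup.map e (pre i h) := by
  have h1 : (FreeGroup.map e h).toWord = h.toWord.map (fun x => (e x.1, x.2)) := by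
    have h2 : IsReduced (h.toWord.map (fun x => (e x.1, x.2))) := by
      unfold FreeGroup.IsReduced
      rw [List.isChain_map]
      refine (isReduced_toWord (x := h)).imp ?_
      intro a b hab hab'
      exact hab (e.injective hab')
    conv_lhs => rw [← mk_toWord (x := h)]
    rw [FreeGroup.map.mk, toWord_of_isReduced h2]
  unfold pre
  rw [h1, FreeGroup.map.mk, List.map_take]

end FG

end Pool.Agent.Helper509.RD
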