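import Pool.Agent.Helper509.RD.Trans

open Monoid Topology
open scoped Pointwise

namespace Pool.Agent.Helper509.RD

/-- the shift vector of an element of `J` -/
def vv (κ : J) : ℕ → ZMod 2 := fun i : ℕ => (add κ.left).2 (i : ℤ)

lemma vv_mul (κ κ' : J) : vv (κ * κ') = vv κ + vv κ' := by
  ext i
  unfold vv
  rw [SemidirectProduct.mul_left, add_mul]
  simp only [Prod.snd_add, Pi.add_apply, snd_phi]

/-- map on syllables -/
def tau (κ : J) : (Σ i, Mf i) → (Σ i, Mf i)
  | ⟨.inl E, m⟩ => ⟨.inl (κ • E), m⟩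
  | ⟨.inr y, q⟩ => ⟨.inr (shiftY (vv κ) y), q⟩

/-- map on indices -/
def ixMap (κ : J) : Ix → Ix
  | .inl E => .inl (κ • E)
  | .inr y => .inr (shiftY (vv κ) y)

lemma tau_fst (κ : J) (s : Σ i, Mf i) : (tau κ s).1 = ixMap κ s.1 := by
  rcases s with ⟨E | y, m⟩ <;> rfl

lemma shiftY_inj (v : ℕ → ZMod 2) : Function.Injective (shiftY v) := by
  rintro ⟨n, y⟩ ⟨n', y'⟩ h
  unfold shiftY at h
  simp only [Sigma.mk.injEq] at h
  obtain ⟨h1, h2⟩ := h
  subst h1
  have h3 := eq_of_heq h2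
  congr 1
  ext i
  have := congrFun h3 i
  simpa using this

lemma ixMap_inj (κ : J) : Function.Injective (ixMap κ) := by
  rintro (E | y) (E' | y') h
  · simp only [ixMap, Sum.inl.injEq, smul_left_cancel_iff] at h
    rw [h]
  · simp [ixMap] at h
  · simp [ixMap] at h
  · simp only [ixMap, Sum.inr.injEq] at h
    rw [shiftY_inj _ h]

lemma tau_ne_one (κ : J) (s : Σ i, Mf i) (h : s.2 ≠ 1) : (tau κ s).2 ≠ 1 := by
  rcases s with ⟨E | y, m⟩
  · exact h
  · exact h

lemma JA_of (κ : J) (s : Σ i, Mf i) :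
    (JA κ).toMonoidHom (CoprodI.of s.2) = CoprodI.of (tau κ s).2 := by
  rcases s with ⟨E | y, m⟩
  · exact JA_cHom κ E m
  · exact JA_pY κ y m

lemma nf_JA (κ : J) (a : A) : CP.nf (JA κ a) = (CP.nf a).map (tau κ) :=
  CP.nf_map (JA κ).toMonoidHom (tau κ) (tau_ne_one κ)
    (fun s s' h => by rw [tau_fst, tau_fst]; exact fun h' => h (ixMap_inj κ h')) (JA_of κ) a

lemma pre_JA (κ : J) (i : ℕ) (a : A) : CP.pre i (JA κ a) = JA κ (CP.pre i a) :=
  CP.pre_map (JA κ).toMonoidHom (tau κ) (tau_ne_one κ)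
    (fun s s' h => by rw [tau_fst, tau_fst]; exact fun h' => h (ixMap_inj κ h')) (JA_of κ) i a

lemma idx_JA (κ : J) (i : ℕ) (a : A) : CP.idx i (JA κ a) = (CP.idx i a).map (ixMap κ) := by
  unfold CP.idx
  rw [nf_JA, List.getElem?_map]
  cases (CP.nf a)[i]? with
  | none => rfl
  | some s => simp [tau_fst]

lemma pre_Psi (κ : J) (i : ℕ) (ν : N) : FG.pre i (Psi κ ν) = Psi κ (FG.pre i ν) :=
  FG.pre_map (permS κ) i ν

/-- weight of a syllable -/
def w : (Σ i, Mf i) → ℕ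
  | ⟨.inl _, m⟩ => (Multiplicative.toAdd (show Multiplicative ℤ from m)).natAbs
  | ⟨.inr _, _⟩ => 1

lemma w_inv (i : Ix) (m : Mf i) : w ⟨i, m⁻¹⟩ = w ⟨i, m⟩ := by
  rcases i with E | y
  · exact Int.natAbs_neg _
  · rfl

lemma w_mul (i : Ix) (m m' : Mf i) : w ⟨i, m * m'⟩ ≤ w ⟨i, m⟩ + w ⟨i, m'⟩ := by
  rcases i with E | y
  · exact Int.natAbs_add_le _ _
  · simp [w]

lemma w_pos (s : Σ i, Mf i) (h : s.2 ≠ 1) : 1 ≤ w s := by
  rcases s with ⟨E | y, m⟩
  · simp only [w]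
    have : (Multiplicative.toAdd (show Multiplicative ℤ from m)) ≠ 0 := by
      intro h'
      exact h h'
    exact Int.natAbs_pos.mpr this
  · simp [w]

lemma w_tau (κ : J) (s : Σ i, Mf i) : w (tau κ s) = w s := by
  rcases s with ⟨E | y, m⟩ <;> rfl

/-- weight of an element of `A` -/
def wA (a : A) : ℕ := CP.wt w a

lemma wA_mul (a b : A) : wA (a * b) ≤ wA a + wA b := CP.wt_mul_le w_mul a b
lemma wA_inv (a : A) : wA a⁻¹ = wA a := CP.wt_inv w_inv a
@[simp] lemma wA_one : wA 1 = 0 := CP.wt_one w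

lemma wA_JA (κ : J) (a : A) : wA (JA κ a) = wA a := by
  unfold wA CP.wt
  rw [nf_JA, List.map_map]
  congr 1
  apply List.map_congr_left
  intro s _
  exact w_tau κ s

lemma wA_pY (y : Y) (q) : wA (pY y q) ≤ 1 := CP.wt_of_le w _
lemma wA_cHom (E : Finset S) (m : Multiplicative ℤ) :
    wA (cHom E m) ≤ (Multiplicative.toAdd m).natAbs := CP.wt_of_le w _
lemma wA_cc (E : Finset S) : wA (cc E) ≤ 1 := by
  exact (wA_cHom E (Multiplicative.ofAdd 1)).trans (by simp)

lemma wA_npow (a : A) (n : ℕ) : wA (a ^ n) ≤ n * wA a := by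
  induction n with
  | zero => simp
  | succ n ih =>
    rw [pow_succ]
    refine (wA_mul _ _).trans ?_
    rw [Nat.succ_mul]
    omega

lemma wA_zpow (a : A) (n : ℤ) : wA (a ^ n) ≤ n.natAbs * wA a := by
  rcases Int.natAbs_eq n with h | h
  · have h2 : a ^ n = a ^ n.natAbs := by
      conv_lhs => rw [h]
      rw [zpow_natCast]
    rw [h2]
    exact wA_npow a n.natAbs
  · have h2 : a ^ n = (a ^ n.natAbs)⁻¹ := by
      conv_lhs => rw [h]
      rw [zpow_neg, zpow_natCast]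
    rw [h2, wA_inv]
    exact wA_npow a n.natAbs

/-- fixed by `N` -/
def Fx (a : A) : Prop := ∀ ν : N, NA ν a = a

lemma Fx_mul {a b : A} (ha : Fx a) (hb : Fx b) : Fx (a * b) := fun ν => by
  rw [map_mul, ha ν, hb ν]
lemma Fx_inv {a : A} (ha : Fx a) : Fx a⁻¹ := fun ν => by
  rw [map_inv, ha ν]
lemma Fx_one : Fx 1 := fun _ => map_one _

lemma Fx_pY (y : Y) (q) : Fx (pY y q) := by
  intro ν
  induction ν using FreeGroup.induction_on with
  | C1 => rw [map_one]; rfl
  | of x =>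
    obtain ⟨s, b⟩ := x
    cases b
    · rw [NA_false, togAut_pY]
    · rw [NA_true, transAut_pY]
  | inv_of x ih =>
    rw [map_inv]
    exact (MulEquiv.symm_apply_eq _).mpr ih.symm
  | mul a b ha hb =>
    rw [map_mul, MulAut.mul_apply, hb, ha]

lemma Fx_isP {a : A} (h : isP a) : Fx a := by
  obtain ⟨y, q, rfl⟩ := h; exact Fx_pY y q

lemma NA_letter (x : S × Bool) (E : Finset S) : ∃ p E', Fx p ∧ wA p ≤ 1 ∧
    NA (FreeGroup.of x) (cc E) = p * cc E' := by
  obtain ⟨s, b⟩ := x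
  cases b
  · refine ⟨1, tog s E, Fx_one, by simp, ?_⟩
    rw [NA_false, togAut_cc, one_mul]
  · refine ⟨pp s E, E, Fx_isP (isP_pp s E), ?_, ?_⟩
    · obtain ⟨y, q, h⟩ := isP_pp s E
      rw [h]; exact wA_pY y q
    · rw [NA_true, transAut_cc]

lemma NA_letter_inv (x : S × Bool) (E : Finset S) : ∃ p E', Fx p ∧ wA p ≤ 1 ∧
    NA (FreeGroup.of x)⁻¹ (cc E) = p * cc E' := by
  obtain ⟨s, b⟩ := x
  cases b
  · refine ⟨1, tog s E, Fx_one, by simp, ?_⟩
    rw [map_inv, one_mul]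
    refine (MulEquiv.symm_apply_eq _).mpr ?_
    rw [NA_false, togAut_cc]
    congr 1
    exact ((tog s).apply_symm_apply E).symm
  · refine ⟨(pp s E)⁻¹, E, Fx_inv (Fx_isP (isP_pp s E)), ?_, ?_⟩
    · rw [wA_inv]
      obtain ⟨y, q, h⟩ := isP_pp s E
      rw [h]; exact wA_pY y q
    · rw [map_inv]
      refine (MulEquiv.symm_apply_eq _).mpr ?_
      rw [map_mul, Fx_inv (Fx_isP (isP_pp s E)) _, NA_true, transAut_cc]
      group

lemma NA_list (l : List ((S × Bool) × Bool)) (E : Finset S) : ∃ p E', Fx p ∧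
    wA p ≤ l.length ∧ NA (FreeGroup.mk l) (cc E) = p * cc E' := by
  induction l generalizing E with
  | nil =>
    refine ⟨1, E, Fx_one, by simp, ?_⟩
    rw [one_mul, ← FreeGroup.one_eq_mk, map_one]; rfl
  | cons x l ih =>
    obtain ⟨p, E', h1, h2, h3⟩ := ih E
    have hx : ∃ p' E'', Fx p' ∧ wA p' ≤ 1 ∧ NA (FreeGroup.mk [x]) (cc E') = p' * cc E'' := by
      obtain ⟨x, b⟩ := x
      cases b
      · exact NA_letter_inv x E'
      · exact NA_letter x E'
    obtain ⟨p', E'', h4, h5, h6⟩ := hx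
    refine ⟨p * p', E'', Fx_mul h1 h4, ?_, ?_⟩
    · refine (wA_mul _ _).trans ?_
      simp only [List.length_cons]
      omega
    · have : FreeGroup.mk (x :: l) = FreeGroup.mk [x] * FreeGroup.mk l := by
        rw [FreeGroup.mul_mk]; rfl
      rw [this, map_mul, MulAut.mul_apply, h3, map_mul, h1, h6, mul_assoc]

lemma wA_NA_cHom (ν : N) (E : Finset S) (m : Multiplicative ℤ) :
    wA (NA ν (cHom E m)) ≤ (ν.norm + 1) * (Multiplicative.toAdd m).natAbs := by
  have h1 : cHom E m = cc E ^ (Multiplicative.toAdd m) := by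
    unfold cc
    rw [← map_zpow]
    congr 1
    apply Multiplicative.toAdd.injective
    simp
  obtain ⟨p, E', h2, h3, h4⟩ := NA_list ν.toWord E
  rw [FreeGroup.mk_toWord] at h4
  rw [h1, map_zpow, h4]
  refine (wA_zpow _ _).trans ?_
  rw [mul_comm]
  gcongr
  refine (wA_mul _ _).trans ?_
  have := wA_cc E'
  unfold FreeGroup.norm
  omega

/-- linear distortion -/
lemma wA_NA (ν : N) (a : A) : wA (NA ν a) ≤ (ν.norm + 1) * wA a := by
  have h1 : ∀ l : List (Σ i, Mf i), wA (NA ν (CP.prodL l)) ≤ (ν.norm + 1) * (l.map w).sum := by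
    intro l
    induction l with
    | nil => simp
    | cons s l ih =>
      rw [CP.prodL_cons, map_mul]
      refine (wA_mul _ _).trans ?_
      rw [List.map_cons, List.sum_cons, mul_add]
      refine Nat.add_le_add ?_ ih
      rcases s with ⟨E | y, m⟩
      · exact wA_NA_cHom ν E m
      · have : NA ν (CoprodI.of m : A) = pY y m := Fx_pY y m ν
        rw [this]
        refine (wA_pY y m).trans ?_
        simp [w]
  have := h1 (CP.nf a)
  rwa [CP.prodL_nf] at this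

end Pool.Agent.Helper509.RD
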